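import Pool.Agent.W2helper24.FP.Blk

set_option autoImplicit false

/-! # Montgomery's theorem for the zeros up to height `T`, without hypotheses -/

open Filter Topology Complex MeasureTheory Set
open scoped ENNReal Real

namespace Pool.Agent.W2helper24.FP

open H370 H370.A2 TH803TW Pool.Agent.Y744 Pool.Agent.Y750.OM

/-- the number of the zeros off the critical line with ordinate in `(0, T]` -/
noncomputable def NofT (T : ℝ) : ℝ := ∑ s ∈ (Zt T).filter (fun s => s.re ≠ 1 / 2), mz s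

lemma NofT_nonneg (T : ℝ) : 0 ≤ NofT T := Finset.sum_nonneg fun s _ => mz_nonneg s

lemma NofT_mono {V T : ℝ} (h : V ≤ T) : NofT V ≤ NofT T := by
  unfold NofT
  refine Finset.sum_le_sum_of_subset_of_nonneg (fun s hs => ?_) fun s _ _ => mz_nonneg s
  rw [Finset.mem_filter, mem_Zt] at hs ⊢
  exact ⟨⟨hs.1.1, hs.1.2.1, hs.1.2.2.1, hs.1.2.2.2.1.trans h, hs.1.2.2.2.2⟩, hs.2⟩

lemma NofT_step {V : ℝ} (hV : 1 ≤ V) : NofT (2 * V) = NofT V + Nof V (2 * V) := by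
  classical
  unfold NofT Nof
  rw [Zt_split (V := V) (T := 2 * V) hV (by linarith), Finset.filter_union,
    Finset.sum_union]
  exact Finset.disjoint_filter_filter (Zt_disj hV)

variable {ψ f : ℝ → ℝ}

lemma step_est {κ1 C0 : ℝ} (hκ1 : κ1 < 1) (hP : Prof ψ f)
    (hblk : ∀ δ c θ ε : ℝ, 0 < δ → δ ≤ κ1 → 0 < c → c ≤ 1 → 0 < θ → 0 < ε → ∃ V1 : ℝ, 20 ≤ V1 ∧
    ∀ V : ℝ, V1 ≤ V →
      |QS (Zb V (2 * V)) (Zb V (2 * V)) mz (fun s => s.im) (dil δ f) (Real.log V) -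
        mn ψ δ * Xf V| ≤ (ε + C0 * (c + δ ^ 4 / c * θ)) * Xf V +
          C0 * (δ ^ 4 / (c * θ)) * Nof V (2 * V))
    {δ c θ ε : ℝ} (hδ : 0 < δ) (hδκ : δ ≤ κ1) (hc : 0 < c) (hc1 : c ≤ 1) (hθ : 0 < θ)
    (hε : 0 < ε) {σ : ℝ} (hσ : 0 ≤ σ) :
    ∀ᶠ V in atTop, |Q2 (dil δ f) (2 * V) (Real.log V + σ) - Q2 (dil δ f) V (Real.log V + σ) -
      mn ψ δ * Xf V| ≤ (ε + C0 * (c + δ ^ 4 / c * θ)) * Xf V +
        C0 * (δ ^ 4 / (c * θ)) * (NofT (2 * V) - NofT V) := by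
  have hpi := Real.pi_pos
  have hδ1 : δ ≤ 1 := hδκ.trans hκ1.le
  obtain ⟨D, hD, hdec⟩ := hP.dec
  obtain ⟨C1, hC1, hsc⟩ := hP.scale
  obtain ⟨V1, hV1, h1⟩ := hblk δ c θ (ε / 3) hδ hδκ hc hc1 hθ (by positivity)
  obtain ⟨C, B0, V0, hC, hB0, hV0, hPP, hloc⟩ := PP_bnd
  obtain ⟨V2, hV2, h2⟩ := cross_sm (f := dil δ f) (K := D / δ ^ 3) (by positivity)
    (dec_one (by positivity) (dil_dec hD hdec hδ hδ1)) (η := ε / (12 * π)) (by positivity)
  have ev1 : ∀ᶠ V : ℝ in atTop, 3200 * (C1 / δ) * σ * C * (2 * π) * 3 / ε ≤ Real.log V :=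
    Real.tendsto_log_atTop.eventually_ge_atTop _
  filter_upwards [eventually_ge_atTop V1, eventually_ge_atTop V0, eventually_ge_atTop V2, ev1]
    with V a1 a0 a2 a3
  have hV20 : 20 ≤ V := hV1.trans a1
  have hL : 0 < Real.log V := Real.log_pos (by linarith)
  have hX := Xf_pos (V := V) (by linarith)
  have hXV : V * Real.log V = 2 * π * Xf V := by
    unfold Xf
    field_simp
  have b1 := h1 V a1
  have b2 := h2 V a2 (Real.log V + σ) (by linarith)
  have b3 := scale_err (x := fun s : ℂ => s.im) (Zb V (2 * V)) mz_nonneg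
    (show 0 ≤ C1 / δ by positivity) (dil_scale hC1 hsc hδ hδ1) hL
    (s := 1 + σ / Real.log V) (by
      have : 0 ≤ σ / Real.log V := by positivity
      linarith)
  have e1 : (1 + σ / Real.log V) * Real.log V = Real.log V + σ := by field_simp
  rw [e1] at b3
  have b4 : |QS (Zb V (2 * V)) (Zb V (2 * V)) mz (fun s => s.im) (dil δ f) (Real.log V + σ) -
      QS (Zb V (2 * V)) (Zb V (2 * V)) mz (fun s => s.im) (dil δ f) (Real.log V)| ≤
      ε / 3 * Xf V := by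
    refine b3.trans ((mul_le_mul_of_nonneg_left (hPP V a0) ?_).trans ?_)
    · have : 0 ≤ σ / Real.log V := by positivity
      have h5 : 0 ≤ C1 / δ * (1 + σ / Real.log V - 1) := mul_nonneg (by positivity) (by linarith)
      linarith
    · rw [hXV, add_sub_cancel_left]
      rw [div_le_iff₀ hε] at a3
      have e2 : 3200 * (C1 / δ * (σ / Real.log V)) * (C * (2 * π * Xf V)) =
          (3200 * (C1 / δ) * σ * C * (2 * π)) / Real.log V * Xf V := by
        field_simp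
      rw [e2]
      refine mul_le_mul_of_nonneg_right ?_ hX.le
      rw [div_le_iff₀ hL]
      linarith
  have b5 : |2 * QS (Zt V) (Zb V (2 * V)) mz (fun s => s.im) (dil δ f) (Real.log V + σ)| ≤
      ε / 3 * Xf V := by
    rw [abs_mul, abs_of_pos (by norm_num : (0 : ℝ) < 2)]
    have e3 : 2 * (ε / (12 * π) * (V * Real.log V)) = ε / 3 * Xf V := by
      rw [hXV]
      field_simp
      norm_num
    linarith
  rw [NofT_step (by linarith), QS_split (dil_even hP δ) (by linarith)]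
  have e4 : Q2 (dil δ f) V (Real.log V + σ) + QS (Zb V (2 * V)) (Zb V (2 * V)) mz
      (fun s => s.im) (dil δ f) (Real.log V + σ) + 2 * QS (Zt V) (Zb V (2 * V)) mz
      (fun s => s.im) (dil δ f) (Real.log V + σ) - Q2 (dil δ f) V (Real.log V + σ) -
      mn ψ δ * Xf V = (QS (Zb V (2 * V)) (Zb V (2 * V)) mz (fun s => s.im) (dil δ f)
        (Real.log V) - mn ψ δ * Xf V) +
      (QS (Zb V (2 * V)) (Zb V (2 * V)) mz (fun s => s.im) (dil δ f) (Real.log V + σ) -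
      QS (Zb V (2 * V)) (Zb V (2 * V)) mz (fun s => s.im) (dil δ f) (Real.log V)) +
      2 * QS (Zt V) (Zb V (2 * V)) mz (fun s => s.im) (dil δ f) (Real.log V + σ) := by ring
  rw [e4]
  refine (abs_add_le _ _).trans ((add_le_add ((abs_add_le _ _).trans (add_le_add b1 b4)) b5).trans
    (le_of_eq ?_))
  ring

lemma sumX_lim (J : ℕ) : Tendsto (fun T : ℝ => (∑ j ∈ Finset.range J, Xf (T / 2 ^ (j + 1))) / Xf T)
    atTop (𝓝 (1 - 1 / 2 ^ J)) := by
  have h3 : ∀ j : ℕ, Tendsto (fun T : ℝ => Xf (T / 2 ^ (j + 1)) / Xf T) atTop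
      (𝓝 (1 / 2 ^ (j + 1))) := by
    intro j
    have h4 : Tendsto (fun T : ℝ => 1 / 2 ^ (j + 1) * (1 - (j + 1) * Real.log 2 *
        (Real.log T)⁻¹)) atTop (𝓝 (1 / 2 ^ (j + 1) * (1 - (j + 1) * Real.log 2 * 0))) :=
      (tendsto_const_nhds.sub ((tendsto_inv_atTop_zero.comp
        Real.tendsto_log_atTop).const_mul _)).const_mul _
    rw [mul_zero, sub_zero, mul_one] at h4
    refine h4.congr' ?_
    filter_upwards [eventually_gt_atTop (1 : ℝ)] with T hT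
    have hL : 0 < Real.log T := Real.log_pos hT
    unfold Xf
    rw [Real.log_div (by linarith) (by positivity), Real.log_pow]
    have hpi := Real.pi_pos
    push_cast
    field_simp
  have h4 := tendsto_finsetSum (Finset.range J) fun j _ => h3 j
  have e : ∑ j ∈ Finset.range J, (1 : ℝ) / 2 ^ (j + 1) = 1 - 1 / 2 ^ J := by
    induction J with
    | zero => simp
    | succ J ih =>
      rw [Finset.sum_range_succ, ih (tendsto_finsetSum (Finset.range J) fun j _ => h3 j), pow_succ]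
      field_simp
      ring
  rw [e] at h4
  refine h4.congr fun T => ?_
  rw [Finset.sum_div]

lemma tele_est {κ1 C0 : ℝ} (hκ1 : κ1 < 1) (hP : Prof ψ f)
    (hblk : ∀ δ c θ ε : ℝ, 0 < δ → δ ≤ κ1 → 0 < c → c ≤ 1 → 0 < θ → 0 < ε → ∃ V1 : ℝ, 20 ≤ V1 ∧
    ∀ V : ℝ, V1 ≤ V →
      |QS (Zb V (2 * V)) (Zb V (2 * V)) mz (fun s => s.im) (dil δ f) (Real.log V) -
        mn ψ δ * Xf V| ≤ (ε + C0 * (c + δ ^ 4 / c * θ)) * Xf V +
          C0 * (δ ^ 4 / (c * θ)) * Nof V (2 * V))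
    {δ c θ ε : ℝ} (hδ : 0 < δ) (hδκ : δ ≤ κ1) (hc : 0 < c) (hc1 : c ≤ 1) (hθ : 0 < θ)
    (hε : 0 < ε) (J : ℕ) :
    ∀ᶠ T in atTop, |Q2 (dil δ f) T (Real.log T) - Q2 (dil δ f) (T / 2 ^ J) (Real.log T) -
      mn ψ δ * ∑ j ∈ Finset.range J, Xf (T / 2 ^ (j + 1))| ≤
        (ε + C0 * (c + δ ^ 4 / c * θ)) * (∑ j ∈ Finset.range J, Xf (T / 2 ^ (j + 1))) +
        C0 * (δ ^ 4 / (c * θ)) * (NofT T - NofT (T / 2 ^ J)) := by
  induction J with
  | zero =>
    refine Eventually.of_forall fun T => ?_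
    simp
  | succ J ih =>
    have h1 := step_est hκ1 hP hblk hδ hδκ hc hc1 hθ hε (σ := (J + 1) * Real.log 2)
      (mul_nonneg (by positivity) (Real.log_nonneg (by norm_num)))
    have ht : Tendsto (fun T : ℝ => T / 2 ^ (J + 1)) atTop atTop :=
      tendsto_id.atTop_div_const (by positivity)
    filter_upwards [ih, ht.eventually h1, eventually_gt_atTop ((2 : ℝ) ^ (J + 1))] with T a1 a2 a3
    have hT1 : 1 < T := lt_of_le_of_lt (one_le_pow₀ (by norm_num)) a3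
    have e1 : Real.log (T / 2 ^ (J + 1)) + (J + 1) * Real.log 2 = Real.log T := by
      rw [Real.log_div (by linarith) (by positivity), Real.log_pow]
      push_cast
      ring
    have e2 : 2 * (T / 2 ^ (J + 1)) = T / 2 ^ J := by
      rw [pow_succ]
      field_simp
    rw [e1, e2] at a2
    rw [Finset.sum_range_succ]
    have e3 : Q2 (dil δ f) T (Real.log T) - Q2 (dil δ f) (T / 2 ^ (J + 1)) (Real.log T) -
        mn ψ δ * (∑ j ∈ Finset.range J, Xf (T / 2 ^ (j + 1)) + Xf (T / 2 ^ (J + 1))) =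
        (Q2 (dil δ f) T (Real.log T) - Q2 (dil δ f) (T / 2 ^ J) (Real.log T) -
          mn ψ δ * ∑ j ∈ Finset.range J, Xf (T / 2 ^ (j + 1))) +
        (Q2 (dil δ f) (T / 2 ^ J) (Real.log T) - Q2 (dil δ f) (T / 2 ^ (J + 1)) (Real.log T) -
          mn ψ δ * Xf (T / 2 ^ (J + 1))) := by ring
    rw [e3]
    refine (abs_add_le _ _).trans ((add_le_add a1 a2).trans (le_of_eq ?_))
    ring

/-- **Montgomery's theorem with the zeros off the line as an error term** -/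
theorem mont_off : ∃ κ1 : ℝ, 0 < κ1 ∧ κ1 < 1 ∧ ∀ ψ f : ℝ → ℝ, Prof ψ f → ∃ C0 : ℝ, 0 ≤ C0 ∧
    ∀ δ c θ ε : ℝ, 0 < δ → δ ≤ κ1 → 0 < c → c ≤ 1 → 0 < θ → 0 < ε → ∀ᶠ T in atTop,
      |Q2 (dil δ f) T (Real.log T) / Xf T - mn ψ δ| ≤
        ε + C0 * (c + δ ^ 4 / c * θ) + C0 * (δ ^ 4 / (c * θ)) * (NofT T / Xf T) := by
  obtain ⟨κ1, hκ0, hκ1, hall⟩ := blk_est
  refine ⟨κ1, hκ0, hκ1, fun ψ f hP => ?_⟩
  obtain ⟨C0, hC0, hblk⟩ := hall ψ f hP
  refine ⟨C0, hC0, fun δ c θ ε hδ hδκ hc hc1 hθ hε => ?_⟩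
  have hδ1 : δ ≤ 1 := hδκ.trans hκ1.le
  obtain ⟨C, B0, V0, hC, hB0, hV0, hPP, hloc⟩ := PP_bnd
  obtain ⟨D0, hD0, hdec0⟩ := hP.dec
  obtain ⟨K, hKd⟩ : ∃ K : ℝ, K = D0 / δ ^ 3 := ⟨_, rfl⟩
  have hK : 0 ≤ K := by rw [hKd]; positivity
  have hf : ∀ y, |dil δ f y| ≤ K / (1 + y ^ 2) := by
    rw [hKd]
    exact dec_one (by positivity) (dil_dec hD0 hdec0 hδ hδ1)
  set m0 := mn ψ δ with hm0
  set D : ℝ := 2 * |m0| + 3200 * K * (2 * Real.pi) * (C + 1) with hD
  have hpi := Real.pi_pos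
  have hDn : 0 ≤ D := by positivity
  obtain ⟨J, hJ⟩ := pow_unbounded_of_one_lt (2 * (D + 1) / ε) (one_lt_two)
  have h1 := tele_est hκ1 hP hblk hδ hδκ hc hc1 hθ (ε := ε / 2) (by positivity) J
  have h2J : (1 : ℝ) ≤ 2 ^ J := one_le_pow₀ (by norm_num)
  have hlimJ := sumX_lim J
  have ev0 : ∀ᶠ T : ℝ in atTop, 1 - 2 / 2 ^ J <
      (∑ j ∈ Finset.range J, Xf (T / 2 ^ (j + 1))) / Xf T := by
    refine hlimJ.eventually_const_lt ?_
    have : (0 : ℝ) < 1 / 2 ^ J := by positivity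
    have e : (2 : ℝ) / 2 ^ J = 1 / 2 ^ J + 1 / 2 ^ J := by ring
    linarith
  have ev1 : ∀ᶠ T : ℝ in atTop, (∑ j ∈ Finset.range J, Xf (T / 2 ^ (j + 1))) / Xf T < 1 := by
    refine hlimJ.eventually_lt_const ?_
    have : (0 : ℝ) < 1 / 2 ^ J := by positivity
    linarith
  have ev2 : ∀ᶠ T : ℝ in atTop, (2 : ℝ) ^ J * V0 ≤ T := eventually_ge_atTop _
  have ev3 : ∀ᶠ T : ℝ in atTop, (2 : ℝ) ^ J * B0 ≤ T := eventually_ge_atTop _
  filter_upwards [h1, ev0, ev1, ev2, ev3, eventually_ge_atTop (20 : ℝ)] with T a1 c0 c1 a2 a3 hT20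
  have hTV : V0 ≤ T / 2 ^ J := by
    rw [le_div_iff₀ (by positivity)]
    linarith
  have hL1 : 1 ≤ Real.log T := by
    rw [Real.le_log_iff_exp_le (by linarith)]
    linarith [Real.exp_one_lt_d9]
  have hX := Xf_pos (V := T) (by linarith)
  have hlog : Real.log (T / 2 ^ J) ≤ Real.log T := by
    refine Real.log_le_log (by linarith) ?_
    rw [div_le_iff₀ (by positivity)]
    nlinarith
  -- the first block
  have b1 : |Q2 (dil δ f) (T / 2 ^ J) (Real.log T)| ≤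
      3200 * K * (B0 + C * (T / 2 ^ J * Real.log (T / 2 ^ J))) := by
    unfold Q2
    refine (QS_le_abs _ _ mz_nonneg _ _).trans ?_
    refine (QS_abs_bound (x := fun s : ℂ => s.im) _ _ mz_nonneg hf (by linarith) one_pos).trans ?_
    have h3 := hloc (T / 2 ^ J) hTV (Real.log T) hlog
    have h4 : (1 : ℝ) * PP1 (Zt (T / 2 ^ J)) mz (fun s => s.im) (Real.log T) +
        1 / 1 * PP1 (Zt (T / 2 ^ J)) mz (fun s => s.im) (Real.log T) ≤
        2 * (B0 + C * (T / 2 ^ J * Real.log (T / 2 ^ J))) := by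
      rw [one_mul, div_one, one_mul]
      linarith
    have h5 := mul_le_mul_of_nonneg_left h4 (show (0 : ℝ) ≤ 1600 * K by positivity)
    linarith
  have b2 : |Q2 (dil δ f) (T / 2 ^ J) (Real.log T)| / Xf T ≤
      3200 * K * (2 * Real.pi) * (C + 1) / 2 ^ J := by
    rw [div_le_div_iff₀ hX (by positivity)]
    have h3 : B0 ≤ T / 2 ^ J * Real.log T := by
      have : B0 ≤ T / 2 ^ J := by
        rw [le_div_iff₀ (by positivity)]
        linarith
      have h4 : 0 ≤ T / 2 ^ J := by linarith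
      nlinarith
    have h4 : C * (T / 2 ^ J * Real.log (T / 2 ^ J)) ≤ C * (T / 2 ^ J * Real.log T) := by
      have h5 : 0 ≤ T / 2 ^ J := by linarith
      gcongr
    have h5 : |Q2 (dil δ f) (T / 2 ^ J) (Real.log T)| ≤
        3200 * K * ((C + 1) * (T / 2 ^ J * Real.log T)) := by
      refine b1.trans (mul_le_mul_of_nonneg_left ?_ (by positivity))
      linarith
    have h6 : 3200 * K * ((C + 1) * (T / 2 ^ J * Real.log T)) * 2 ^ J =
        3200 * K * (2 * Real.pi) * (C + 1) * Xf T := by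
      unfold Xf
      field_simp
    rw [← h6]
    exact mul_le_mul_of_nonneg_right h5 (by positivity)
  set Y := ∑ j ∈ Finset.range J, Xf (T / 2 ^ (j + 1)) with hY
  have hNmono : NofT T - NofT (T / 2 ^ J) ≤ NofT T := by
    have := NofT_nonneg (T / 2 ^ J)
    linarith
  have hYX : Y ≤ Xf T := by
    rw [div_lt_one hX] at c1
    exact c1.le
  have d1 : |Q2 (dil δ f) T (Real.log T) - Q2 (dil δ f) (T / 2 ^ J) (Real.log T) - m0 * Y| ≤
      (ε / 2 + C0 * (c + δ ^ 4 / c * θ)) * Xf T + C0 * (δ ^ 4 / (c * θ)) * NofT T := by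
    refine a1.trans (add_le_add (mul_le_mul_of_nonneg_left hYX (by positivity))
      (mul_le_mul_of_nonneg_left hNmono (by positivity)))
  have d2 : |m0 * Y - m0 * Xf T| ≤ 2 * |m0| / 2 ^ J * Xf T := by
    have e0 : m0 * Y - m0 * Xf T = -(m0 * (Xf T - Y)) := by ring
    rw [e0, abs_neg, abs_mul, abs_of_nonneg (sub_nonneg.2 hYX)]
    have h3 : Xf T - Y ≤ 2 / 2 ^ J * Xf T := by
      rw [lt_div_iff₀ hX] at c0
      linarith
    have h4 := mul_le_mul_of_nonneg_left h3 (abs_nonneg m0)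
    refine h4.trans (le_of_eq ?_)
    ring
  have d3 : |Q2 (dil δ f) (T / 2 ^ J) (Real.log T)| ≤
      3200 * K * (2 * Real.pi) * (C + 1) / 2 ^ J * Xf T := by
    rwa [div_le_iff₀ hX] at b2
  have d4 : D / 2 ^ J * Xf T ≤ ε / 2 * Xf T := by
    refine mul_le_mul_of_nonneg_right ?_ hX.le
    rw [div_lt_iff₀ hε] at hJ
    rw [div_le_iff₀ (by positivity)]
    linarith
  have d5 : |Q2 (dil δ f) T (Real.log T) - m0 * Xf T| ≤
      (ε + C0 * (c + δ ^ 4 / c * θ)) * Xf T + C0 * (δ ^ 4 / (c * θ)) * NofT T := by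
    have e : Q2 (dil δ f) T (Real.log T) - m0 * Xf T =
        (Q2 (dil δ f) T (Real.log T) - Q2 (dil δ f) (T / 2 ^ J) (Real.log T) - m0 * Y) +
        (m0 * Y - m0 * Xf T) + Q2 (dil δ f) (T / 2 ^ J) (Real.log T) := by ring
    rw [e]
    refine (abs_add_le _ _).trans ((add_le_add (abs_add_le _ _) le_rfl).trans ?_)
    have e5 : D / 2 ^ J * Xf T = 2 * |m0| / 2 ^ J * Xf T +
        3200 * K * (2 * Real.pi) * (C + 1) / 2 ^ J * Xf T := by
      rw [hD]
      ring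
    linarith
  have e6 : Q2 (dil δ f) T (Real.log T) / Xf T - m0 =
      (Q2 (dil δ f) T (Real.log T) - m0 * Xf T) / Xf T := by
    field_simp
  rw [e6, abs_div, abs_of_pos hX, div_le_iff₀ hX]
  refine d5.trans (le_of_eq ?_)
  field_simp

end Pool.Agent.W2helper24.FP
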