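import Pool.Agent.W2helper24.FP.Lims

set_option autoImplicit false

/-! # The diagonal and the zeros that are multiple or off the critical line -/

open Filter Topology MeasureTheory Set
open scoped ENNReal Real ComplexConjugate

namespace Pool.Agent.W2helper24.FP

open H370 TH803TW Pool.Agent.Y744 Pool.Agent.Y750.OM

/-- the number of the zeros with ordinate in `(0, T]` that are multiple or off the line -/
noncomputable def NbT (T : ℝ) : ℝ :=
  ∑ s ∈ (Zt T).filter (fun s => s.re ≠ 1 / 2 ∨ mz s ≠ 1), mz s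

/-- the number of the zeros with the same ordinate -/
noncomputable def nn (T : ℝ) (s : ℂ) : ℝ := ∑ s' ∈ (Zt T).filter (fun s' => s'.im = s.im), mz s'

lemma NbT_nonneg (T : ℝ) : 0 ≤ NbT T := Finset.sum_nonneg fun s _ => mz_nonneg s

lemma nn_nonneg (T : ℝ) (s : ℂ) : 0 ≤ nn T s := Finset.sum_nonneg fun s _ => mz_nonneg s

lemma NofT_le_NbT (T : ℝ) : NofT T ≤ NbT T := by
  unfold NofT NbT
  refine Finset.sum_le_sum_of_subset_of_nonneg (fun s hs => ?_) fun s _ _ => mz_nonneg s
  rw [Finset.mem_filter] at hs ⊢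
  exact ⟨hs.1, Or.inl hs.2⟩

lemma mz_ge_one {T : ℝ} {s : ℂ} (hs : s ∈ Zt T) : 1 ≤ mz s := by
  rw [mem_Zt] at hs
  have h := Loc.mult_pos' good_zeta hs.2.2.1 hs.2.2.2.2
  unfold mz
  exact_mod_cast h

lemma mz_two {T : ℝ} {s : ℂ} (hs : s ∈ Zt T) (h : mz s ≠ 1) : 2 ≤ mz s := by
  have h1 := mz_ge_one hs
  unfold mz at h h1 ⊢
  have h2 : 1 ≤ mult riemannZeta s := by exact_mod_cast h1
  have h3 : mult riemannZeta s ≠ 1 := by
    intro h4
    apply h
    rw [h4]
    simp
  have h4 : 2 ≤ mult riemannZeta s := by omega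
  exact_mod_cast h4

lemma PC_diag {T : ℝ} (hT : 1 < T) : PC T {x | |x| ≤ 0} = ∑ s ∈ Zt T, mz s * nn T s := by
  unfold PC nn
  refine Finset.sum_congr rfl fun s _ => ?_
  rw [Finset.sum_filter, Finset.mul_sum]
  refine Finset.sum_congr rfl fun s' _ => ?_
  have hlog : 0 < Real.log T := Real.log_pos hT
  have hpi := Real.pi_pos
  have e : dd T s s' ∈ {x : ℝ | |x| ≤ 0} ↔ s'.im = s.im := by
    show |dd T s s'| ≤ 0 ↔ s'.im = s.im
    rw [abs_nonpos_iff]
    unfold dd
    rw [div_eq_zero_iff, mul_eq_zero]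
    constructor
    · rintro ((h | h) | h)
      · linarith
      · exact absurd h hlog.ne'
      · exfalso
        have : (0 : ℝ) < 2 * π := by positivity
        linarith
    · intro h
      left; left
      linarith
  by_cases h : s'.im = s.im
  · rw [if_pos h, Set.indicator_of_mem (e.2 h), mul_one]
  · rw [if_neg h, Set.indicator_of_notMem (fun h1 => h (e.1 h1)), mul_zero, mul_zero]

/-- the diagonal detects the bad zeros -/
theorem diag_low {T : ℝ} (hT : 1 < T) :
    ∑ s ∈ Zt T, mz s + NbT T ≤ PC T {x | |x| ≤ 0} + 2 * ∑ s ∈ Zt 1, mz s := by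
  classical
  rw [PC_diag hT]
  have h1 : NbT T = ∑ s ∈ Zt T, if (s.re ≠ 1 / 2 ∨ mz s ≠ 1) then mz s else 0 := by
    unfold NbT
    rw [Finset.sum_filter]
  have h2 : ∀ s ∈ Zt T, mz s + (if (s.re ≠ 1 / 2 ∨ mz s ≠ 1) then mz s else 0) ≤
      mz s * nn T s + (if s ∈ Zt 1 then 2 * mz s else 0) := by
    intro s hs
    have hm := mz_ge_one hs
    have hmem : s ∈ (Zt T).filter (fun s' => s'.im = s.im) := Finset.mem_filter.2 ⟨hs, rfl⟩
    have hn1 : mz s ≤ nn T s :=
      Finset.single_le_sum (f := fun s' => mz s') (fun s' _ => mz_nonneg s') hmem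
    by_cases hlow : s ∈ Zt 1
    · rw [if_pos hlow]
      have h3 : (if (s.re ≠ 1 / 2 ∨ mz s ≠ 1) then mz s else 0) ≤ mz s := by
        split_ifs
        · exact le_rfl
        · exact mz_nonneg s
      have h4 : 0 ≤ mz s * nn T s := mul_nonneg (mz_nonneg s) (nn_nonneg T s)
      linarith
    · rw [if_neg hlow, add_zero]
      have hs' := mem_Zt.1 hs
      have him : 1 < s.im := by
        by_contra hcon
        push Not at hcon
        exact hlow (mem_Zt.2 ⟨hs'.1, hs'.2.1, hs'.2.2.1, hcon, hs'.2.2.2.2⟩)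
      split_ifs with hb
      · have h2n : 2 ≤ nn T s := by
          rcases hb with hb | hb
          · -- off the line
            set s1 : ℂ := 1 - conj s with hs1
            have him1 : s1.im = s.im := by simp [hs1]
            have hre1 : s1.re = 1 - s.re := by simp [hs1]
            have hz : s1 ∈ zset riemannZeta 1 T :=
              zset_refl good_zeta le_rfl ⟨hs'.1, hs'.2.1, him, hs'.2.2.2.1, hs'.2.2.2.2⟩
            have hz1 : s1 ∈ Zt T := mem_Zt.2 ⟨hz.1, hz.2.1, by linarith [hz.2.2.1], hz.2.2.2.1,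
              hz.2.2.2.2⟩
            have hne : s ≠ s1 := by
              intro h
              apply hb
              have := congrArg Complex.re h
              rw [hre1] at this
              linarith
            have h5 : ({s, s1} : Finset ℂ) ⊆ (Zt T).filter (fun s' => s'.im = s.im) := by
              intro z hz
              rw [Finset.mem_insert, Finset.mem_singleton] at hz
              rcases hz with rfl | rfl
              · exact hmem
              · exact Finset.mem_filter.2 ⟨hz1, him1⟩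
            have h6 := Finset.sum_le_sum_of_subset_of_nonneg (f := mz) h5
              fun s _ _ => mz_nonneg s
            rw [Finset.sum_pair hne] at h6
            have := mz_ge_one hz1
            unfold nn
            linarith
          · exact (mz_two hs hb).trans hn1
        nlinarith
      · have : mz s * 1 ≤ mz s * nn T s := mul_le_mul_of_nonneg_left (hm.trans hn1) (mz_nonneg s)
        linarith
  have h3 := Finset.sum_le_sum h2
  rw [Finset.sum_add_distrib, Finset.sum_add_distrib, ← h1] at h3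
  have h4 : ∑ s ∈ Zt T, (if s ∈ Zt 1 then 2 * mz s else 0) ≤ 2 * ∑ s ∈ Zt 1, mz s := by
    rw [← Finset.sum_filter, Finset.mul_sum]
    refine Finset.sum_le_sum_of_subset_of_nonneg (fun s hs => (Finset.mem_filter.1 hs).2)
      fun s _ _ => by
        have := mz_nonneg s
        positivity
  linarith

/-- second moment of the numbers of zeros with the same ordinate -/
theorem third : ∃ C B T0 : ℝ, 0 ≤ C ∧ 0 ≤ B ∧ 20 ≤ T0 ∧ ∀ T : ℝ, T0 ≤ T →
    ∑ s ∈ Zt T, mz s * nn T s ^ 2 ≤ B + C * (T * Real.log T) := by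
  classical
  obtain ⟨κ0, C, V0, hκ, hC, hV0, hmom⟩ := mom 3 (by norm_num)
  obtain ⟨C1, hC1d⟩ : ∃ C1 : ℝ, C1 = 2 * (9 * π) ^ 2 * C := ⟨_, rfl⟩
  have hC1 : 0 ≤ C1 := by rw [hC1d]; positivity
  -- a block
  have hblk : ∀ V : ℝ, V0 ≤ V → ∑ s ∈ Zb V (2 * V), mz s *
      (∑ s' ∈ (Zb V (2 * V)).filter (fun s' => s'.im = s.im), mz s') ^ 2 ≤
      C1 * (V * Real.log V) := by
    intro V hV
    have hV20 : 20 ≤ V := hV0.trans hV
    have hlV : 1 ≤ Real.log V := by
      rw [Real.le_log_iff_exp_le (by linarith)]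
      linarith [Real.exp_one_lt_d9]
    set L := Real.log V with hL
    have h1 := hmom V hV L le_rfl (by linarith)
    have h2 := cell_moment 1 L 1 (by linarith) one_pos le_rfl (Zb V (2 * V)) mz mz_nonneg (C * V)
      (by positivity) (by
        refine le_trans (lintegral_mono fun t => ENNReal.ofReal_le_ofReal ?_) h1
        refine pow_le_pow_left₀ (Finset.sum_nonneg fun s _ => mz_nonneg s) ?_ _
        unfold Fw
        refine Finset.sum_le_sum fun s _ => ?_
        have h3 : 1 ≤ Real.exp (κ0 * |s.re - 1 / 2| * L) := Real.one_le_exp (by positivity)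
        have := mul_le_mul_of_nonneg_left h3 (mz_nonneg s)
        linarith)
    refine le_trans (Finset.sum_le_sum fun s _ => ?_) (h2.trans (le_of_eq ?_))
    · refine mul_le_mul_of_nonneg_left ?_ (mz_nonneg s)
      rw [one_mul]
      refine pow_le_pow_left₀ (Finset.sum_nonneg fun s _ => mz_nonneg s) ?_ _
      rw [Finset.sum_filter]
      refine Finset.sum_le_sum fun s' _ => ?_
      split_ifs with h
      · rw [h, sub_self, mul_zero, mul_zero]
        norm_num
      · have := mz_nonneg s'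
        positivity
    · rw [hC1d]
      norm_num
      ring
  -- the recursion
  have hstep : ∀ V : ℝ, V0 ≤ V → ∑ s ∈ Zt (2 * V), mz s * nn (2 * V) s ^ 2 ≤
      ∑ s ∈ Zt V, mz s * nn V s ^ 2 + C1 * (V * Real.log V) := by
    intro V hV
    have hV20 : 20 ≤ V := hV0.trans hV
    rw [Zt_split (V := V) (T := 2 * V) (by linarith) (by linarith),
      Finset.sum_union (Zt_disj (by linarith))]
    refine add_le_add (le_of_eq (Finset.sum_congr rfl fun s hs => ?_)) (le_trans (le_of_eq
      (Finset.sum_congr rfl fun s hs => ?_)) (hblk V hV))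
    · congr 2
      unfold nn
      refine Finset.sum_congr ?_ fun _ _ => rfl
      ext s'
      rw [Finset.mem_filter, Finset.mem_filter, mem_Zt, mem_Zt]
      rw [mem_Zt] at hs
      constructor
      · rintro ⟨h1, h2⟩
        exact ⟨⟨h1.1, h1.2.1, h1.2.2.1, by rw [h2]; exact hs.2.2.2.1, h1.2.2.2.2⟩, h2⟩
      · rintro ⟨h1, h2⟩
        exact ⟨⟨h1.1, h1.2.1, h1.2.2.1, by linarith [h1.2.2.2.1], h1.2.2.2.2⟩, h2⟩
    · congr 2
      unfold nn
      refine Finset.sum_congr ?_ fun _ _ => rfl
      ext s'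
      rw [Finset.mem_filter, Finset.mem_filter, mem_Zt, mem_Zb (by linarith)]
      rw [mem_Zb (by linarith)] at hs
      constructor
      · rintro ⟨h1, h2⟩
        exact ⟨⟨h1.1, h1.2.1, by rw [h2]; exact hs.2.2.1, h1.2.2.2.1, h1.2.2.2.2⟩, h2⟩
      · rintro ⟨h1, h2⟩
        exact ⟨⟨h1.1, h1.2.1, by linarith [h1.2.2.1], h1.2.2.2.1, h1.2.2.2.2⟩, h2⟩
  obtain ⟨B0, hB0d⟩ : ∃ B0 : ℝ, B0 = ∑ s ∈ Zt (2 * V0), mz s * nn (2 * V0) s ^ 2 := ⟨_, rfl⟩
  have hB0 : 0 ≤ B0 := by
    rw [hB0d]
    exact Finset.sum_nonneg fun s _ => mul_nonneg (mz_nonneg s) (sq_nonneg _)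
  have hsmall : ∀ T : ℝ, T ≤ 2 * V0 → ∑ s ∈ Zt T, mz s * nn T s ^ 2 ≤ B0 := by
    intro T hT
    rw [hB0d]
    have hsub : Zt T ⊆ Zt (2 * V0) := by
      intro s hs
      rw [mem_Zt] at hs ⊢
      exact ⟨hs.1, hs.2.1, hs.2.2.1, hs.2.2.2.1.trans hT, hs.2.2.2.2⟩
    have hnn : ∀ s, nn T s ≤ nn (2 * V0) s := fun s =>
      Finset.sum_le_sum_of_subset_of_nonneg (Finset.filter_subset_filter _ hsub)
        fun s _ _ => mz_nonneg s
    refine (Finset.sum_le_sum fun s _ => mul_le_mul_of_nonneg_left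
      (pow_le_pow_left₀ (nn_nonneg T s) (hnn s) 2) (mz_nonneg s)).trans ?_
    exact Finset.sum_le_sum_of_subset_of_nonneg hsub fun s _ _ =>
      mul_nonneg (mz_nonneg s) (sq_nonneg _)
  have hmain : ∀ n : ℕ, ∀ T : ℝ, V0 ≤ T → T ≤ 2 ^ n * (2 * V0) →
      ∑ s ∈ Zt T, mz s * nn T s ^ 2 ≤ B0 + C1 * (T * Real.log T) := by
    intro n
    induction n with
    | zero =>
      intro T hT hT2
      rw [pow_zero, one_mul] at hT2
      have h1 := hsmall T hT2
      have h2 : 0 ≤ Real.log T := Real.log_nonneg (by linarith)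
      have h3 : 0 ≤ C1 * (T * Real.log T) := by
        have : 0 ≤ T := by linarith
        positivity
      linarith
    | succ n ih =>
      intro T hT hT2
      have hlT : 0 ≤ Real.log T := Real.log_nonneg (by linarith)
      rcases le_or_gt T (2 * V0) with h | h
      · have h1 := hsmall T h
        have h3 : 0 ≤ C1 * (T * Real.log T) := by
          have : 0 ≤ T := by linarith
          positivity
        linarith
      · obtain ⟨V, hVd⟩ : ∃ V : ℝ, V = T / 2 := ⟨_, rfl⟩
        have hVV : V0 ≤ V := by linarith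
        have hTV : T = 2 * V := by rw [hVd]; ring
        have hlog : Real.log V ≤ Real.log T := Real.log_le_log (by linarith) (by linarith)
        have h1 := ih V hVV (by
          rw [pow_succ] at hT2
          linarith)
        have h2 := hstep V hVV
        rw [← hTV] at h2
        have h6 : C1 * (V * Real.log V) ≤ C1 * (V * Real.log T) := by
          have : 0 ≤ V := by linarith
          gcongr
        have h7 : C1 * (T * Real.log T) = 2 * (C1 * (V * Real.log T)) := by
          have : C1 * (T * Real.log T) = C1 * ((2 * V) * Real.log T) := by rw [← hTV]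
          rw [this]
          ring
        linarith
  refine ⟨C1, B0, V0, hC1, hB0, hV0, fun T hT => ?_⟩
  obtain ⟨n, hn⟩ := pow_unbounded_of_one_lt (T / (2 * V0)) (one_lt_two)
  refine hmain n T hT ?_
  rw [div_lt_iff₀ (by linarith)] at hn
  exact hn.le

/-- the zeros that share their ordinate -/
lemma shared_le (T : ℝ) : ∑ s ∈ (Zt T).filter (fun s => 1 < nn T s), mz s ≤ 2 * NbT T := by
  classical
  set P := (Zt T).filter (fun s => 1 < nn T s) with hP
  set Bs := (Zt T).filter (fun s => s.re ≠ 1 / 2 ∨ mz s ≠ 1) with hBs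
  rw [← Finset.sum_filter_add_sum_filter_not P (fun s => s.re ≠ 1 / 2 ∨ mz s ≠ 1)]
  have h1 : ∑ s ∈ P.filter (fun s => s.re ≠ 1 / 2 ∨ mz s ≠ 1), mz s ≤ NbT T := by
    unfold NbT
    refine Finset.sum_le_sum_of_subset_of_nonneg (fun s hs => ?_) fun s _ _ => mz_nonneg s
    rw [Finset.mem_filter, hP, Finset.mem_filter] at hs
    exact Finset.mem_filter.2 ⟨hs.1.1, hs.2⟩
  set G := P.filter (fun s => ¬ (s.re ≠ 1 / 2 ∨ mz s ≠ 1)) with hG
  have hGs : ∀ s ∈ G, s ∈ Zt T ∧ 1 < nn T s ∧ s.re = 1 / 2 ∧ mz s = 1 := by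
    intro s hs
    rw [hG, Finset.mem_filter, hP, Finset.mem_filter] at hs
    have h3 := hs.2
    push Not at h3
    exact ⟨hs.1.1, hs.1.2, h3.1, h3.2⟩
  have hex : ∀ s ∈ G, ∃ s' ∈ Bs, s'.im = s.im := by
    intro s hs
    obtain ⟨a1, a2, a3, a4⟩ := hGs s hs
    by_contra hcon
    push Not at hcon
    have h3 : (Zt T).filter (fun s' => s'.im = s.im) ⊆ {s} := by
      intro z hz
      obtain ⟨hz1, hz2⟩ := Finset.mem_filter.1 hz
      rw [Finset.mem_singleton]
      by_contra hne
      have h4 : z.re ≠ 1 / 2 := by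
        intro h5
        apply hne
        apply Complex.ext
        · rw [h5, a3]
        · exact hz2
      exact hcon z (Finset.mem_filter.2 ⟨hz1, Or.inl h4⟩) hz2
    have h4 : nn T s ≤ ∑ s' ∈ ({s} : Finset ℂ), mz s' :=
      Finset.sum_le_sum_of_subset_of_nonneg h3 fun s _ _ => mz_nonneg s
    rw [Finset.sum_singleton, a4] at h4
    linarith
  choose! F hF1 hF2 using hex
  have hcard : G.card ≤ Bs.card := by
    refine Finset.card_le_card_of_injOn F (fun s hs => hF1 s hs) ?_
    intro s hs z hz h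
    obtain ⟨_, _, a3, _⟩ := hGs s hs
    obtain ⟨_, _, b3, _⟩ := hGs z hz
    apply Complex.ext
    · rw [a3, b3]
    · rw [← hF2 s hs, ← hF2 z hz, h]
  have h2 : ∑ s ∈ G, mz s ≤ NbT T := by
    calc ∑ s ∈ G, mz s = ∑ s ∈ G, (1 : ℝ) :=
          Finset.sum_congr rfl fun s hs => (hGs s hs).2.2.2
      _ = G.card := by simp
      _ ≤ Bs.card := by exact_mod_cast hcard
      _ = ∑ s ∈ Bs, (1 : ℝ) := by simp
      _ ≤ ∑ s ∈ Bs, mz s := Finset.sum_le_sum fun s hs => mz_ge_one (Finset.mem_filter.1 hs).1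
  linarith

section

variable {u : Filter ℝ} {A' : ℝ → ℝ} {C0 : ℝ}

lemma N_lim : Tendsto (fun T => (∑ s ∈ Zt T, mz s) / Xf T) atTop (𝓝 1) := by
  rw [Metric.tendsto_nhds]
  intro ε hε
  obtain ⟨T0, hT0, h⟩ := Pool.Agent.W54.TCF.NT_asymp' (ε / 2) (by positivity)
  filter_upwards [eventually_ge_atTop T0] with T hT
  obtain ⟨h1, h2⟩ := h T hT
  have hX := Xf_pos (V := T) (by linarith)
  have e : T / (2 * Real.pi) * Real.log T = Xf T := by
    unfold Xf
    ring
  rw [e] at h1 h2
  rw [sum_Zt, Real.dist_eq, abs_lt]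
  constructor
  · have : 1 - ε / 2 ≤ (NN riemannZeta 0 T : ℝ) / Xf T := by
      rw [le_div_iff₀ hX]
      exact h1
    linarith
  · have : (NN riemannZeta 0 T : ℝ) / Xf T ≤ 1 + ε / 2 := by
      rw [div_le_iff₀ hX]
      exact h2
    linarith

lemma Xf_top : Tendsto Xf atTop atTop := by
  have h1 : Tendsto (fun V : ℝ => V * Real.log V) atTop atTop :=
    tendsto_id.atTop_mul_atTop₀ Real.tendsto_log_atTop
  exact h1.atTop_div_const (by positivity)

/-- simple zeros on the line from the diagonal -/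
theorem Lm.bad (h : Lm u A' C0) (h1 : A' 0 = 1) : Tendsto (fun T => NbT T / Xf T) u (𝓝 0) := by
  have l1 := h.lim 0
  rw [h1] at l1
  have l2 : Tendsto (fun T => 2 * (∑ s ∈ Zt 1, mz s) / Xf T) u (𝓝 0) :=
    (Xf_top.const_div_atTop _).mono_left h.top
  have l3 := (l1.sub (N_lim.mono_left h.top)).add l2
  rw [sub_self, add_zero] at l3
  refine squeeze_zero' ?_ ?_ l3
  · filter_upwards [h.top (eventually_gt_atTop (1 : ℝ))] with T hT
    exact div_nonneg (NbT_nonneg T) (Xf_pos hT).le
  · filter_upwards [h.top (eventually_gt_atTop (1 : ℝ))] with T hT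
    have hX := Xf_pos hT
    have h2 := diag_low hT
    have e : Aa T 0 = PC T {x | |x| ≤ 0} / Xf T := by
      unfold Aa
      rw [div_eq_inv_mul]
    rw [e, ← sub_div, ← add_div]
    exact div_le_div_of_nonneg_right (by linarith) hX.le

/-- the diagonal from simple zeros on the line -/
theorem Lm.good [NeBot u] (h : Lm u A' C0) (h1 : Tendsto (fun T => NbT T / Xf T) u (𝓝 0)) :
    A' 0 = 1 := by
  classical
  obtain ⟨C, B, T0, hC, hB, hT0, h3⟩ := third
  refine le_antisymm ?_ h.one
  refine le_of_forall_pos_le_add fun ε hε => ?_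
  obtain ⟨θ, hθd⟩ : ∃ θ : ℝ, θ = ε / (2 * π * (C + 1)) := ⟨_, rfl⟩
  have hpi := Real.pi_pos
  have hθ : 0 < θ := by rw [hθd]; positivity
  have l2 : Tendsto (fun T => θ * B / Xf T) u (𝓝 0) :=
    (Xf_top.const_div_atTop _).mono_left h.top
  have l3 := (((N_lim.mono_left h.top).add l2).add (h1.const_mul (1 / (2 * θ)))).add_const
    (θ * C * (2 * π))
  rw [mul_zero, add_zero, add_zero] at l3
  have l4 : A' 0 ≤ 1 + θ * C * (2 * π) := by
    refine le_of_tendsto_of_tendsto (h.lim 0) l3 ?_
    filter_upwards [h.top (eventually_ge_atTop T0)] with T hT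
    have hT1 : 1 < T := by linarith
    have hX := Xf_pos hT1
    have e : Aa T 0 = (∑ s ∈ Zt T, mz s * nn T s) / Xf T := by
      unfold Aa
      rw [PC_diag hT1, div_eq_inv_mul]
    have h4 : ∀ s ∈ Zt T, mz s * nn T s ≤ mz s + θ * (mz s * nn T s ^ 2) +
        1 / (4 * θ) * (if 1 < nn T s then mz s else 0) := by
      intro s _
      have hm := mz_nonneg s
      have hn := nn_nonneg T s
      have h6 : 0 ≤ θ * (mz s * nn T s ^ 2) := by positivity
      split_ifs with h5
      · have h7 : nn T s ≤ 1 + θ * nn T s ^ 2 + 1 / (4 * θ) := by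
          have h8 : θ * nn T s ^ 2 + 1 / (4 * θ) - nn T s = (2 * θ * nn T s - 1) ^ 2 / (4 * θ) := by
            field_simp
            ring
          have h9 : 0 ≤ (2 * θ * nn T s - 1) ^ 2 / (4 * θ) := by positivity
          linarith
        have := mul_le_mul_of_nonneg_left h7 hm
        linarith
      · push Not at h5
        have := mul_le_mul_of_nonneg_left h5 hm
        linarith
    have h5 := Finset.sum_le_sum h4
    rw [Finset.sum_add_distrib, Finset.sum_add_distrib, ← Finset.mul_sum, ← Finset.mul_sum,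
      ← Finset.sum_filter] at h5
    have h6 := shared_le T
    have h7 := h3 T hT
    have h8 : 1 / (4 * θ) * ∑ s ∈ (Zt T).filter (fun s => 1 < nn T s), mz s ≤
        1 / (2 * θ) * NbT T := by
      have := mul_le_mul_of_nonneg_left h6 (show 0 ≤ 1 / (4 * θ) by positivity)
      refine this.trans (le_of_eq ?_)
      field_simp
      ring
    have h9 := mul_le_mul_of_nonneg_left h7 hθ.le
    have e2 : ∑ s ∈ Zt T, mz s / Xf T = (∑ s ∈ Zt T, mz s) / Xf T := by
      rw [Finset.sum_div]
    show Aa T 0 ≤ (∑ s ∈ Zt T, mz s) / Xf T + θ * B / Xf T + 1 / (2 * θ) * (NbT T / Xf T) +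
      θ * C * (2 * π)
    rw [e, div_le_iff₀ hX]
    have hXV : T * Real.log T = 2 * π * Xf T := by
      unfold Xf
      field_simp
    rw [hXV] at h9
    have e3 : ((∑ s ∈ Zt T, mz s) / Xf T + θ * B / Xf T + 1 / (2 * θ) * (NbT T / Xf T) +
        θ * C * (2 * π)) * Xf T = (∑ s ∈ Zt T, mz s) + θ * B + 1 / (2 * θ) * NbT T +
        θ * C * (2 * π) * Xf T := by
      field_simp
    rw [e3]
    linarith
  have l5 : θ * C * (2 * π) ≤ ε := by
    rw [hθd, div_mul_eq_mul_div, div_mul_eq_mul_div, div_le_iff₀ (by positivity)]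
    have : 0 ≤ ε * (2 * π) := by positivity
    nlinarith
  linarith

end

end Pool.Agent.W2helper24.FP
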