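import Pool.Agent.W2helper24.FP.Blk1

set_option autoImplicit false

/-! # Montgomery's theorem in a dyadic block, without hypotheses -/

open Filter Topology Complex MeasureTheory Set
open scoped ENNReal Real

namespace Pool.Agent.W2helper24.FP

open H370 H370.A2 TH803TW Pool.Agent.Y744 Pool.Agent.Y750.OM

/-- profiles of the test functions -/
structure Prof (ψ f : ℝ → ℝ) : Prop where
  lip : ∃ A : ℝ, 0 ≤ A ∧ ∀ x y, |ψ x - ψ y| ≤ A * |x - y|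
  supp : ∀ x, 1 ≤ |x| → ψ x = 0
  eq : ∀ x, ct ψ x = f x
  dec : ∃ D : ℝ, 0 ≤ D ∧ ∀ y, |f y| ≤ D / (1 + y ^ 2) ^ 2
  scale : ∃ C : ℝ, 0 ≤ C ∧ ∀ y s, 1 ≤ s → |f (s * y) - f y| ≤ C * (s - 1) / (1 + y ^ 2)

/-- dilated test function -/
noncomputable def dil (δ : ℝ) (f : ℝ → ℝ) (x : ℝ) : ℝ := δ * f (δ * x)

/-- the main term -/
noncomputable def mn (ψ : ℝ → ℝ) (δ : ℝ) : ℝ := ψ 0 + δ ^ 2 * ∫ α in (-1 : ℝ)..1, |α| * ψ α

variable {ψ f : ℝ → ℝ}

lemma Prof.even (h : Prof ψ f) (x : ℝ) : f (-x) = f x := by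
  rw [← h.eq, ← h.eq, TK.ct_neg]

lemma Prof.cont (h : Prof ψ f) : Continuous ψ := by
  obtain ⟨A, hA, hl⟩ := h.lip
  have : LipschitzWith A.toNNReal ψ := by
    refine LipschitzWith.of_dist_le_mul fun x y => ?_
    rw [Real.dist_eq, Real.dist_eq, Real.coe_toNNReal _ hA]
    exact hl x y
  exact this.continuous

lemma dil_even (h : Prof ψ f) (δ x : ℝ) : dil δ f (-x) = dil δ f x := by
  unfold dil
  rw [mul_neg, h.even]

lemma dil_ct (h : Prof ψ f) {δ : ℝ} (hδ : 0 < δ) (x : ℝ) :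
    ct (fun α => ψ (α / δ)) x = dil δ f x := by
  unfold dil
  rw [← h.eq]
  unfold ct
  have h1 := Measure.integral_comp_div (fun β : ℝ => ψ β * Real.cos (2 * π * (δ * x) * β)) δ
  rw [abs_of_pos hδ, smul_eq_mul] at h1
  rw [← h1]
  refine integral_congr_ae (Eventually.of_forall fun α => ?_)
  show ψ (α / δ) * Real.cos (2 * π * x * α) = ψ (α / δ) * Real.cos (2 * π * (δ * x) * (α / δ))
  congr 2
  field_simp

lemma dil_dec {D δ : ℝ} (hD : 0 ≤ D) (hf : ∀ y, |f y| ≤ D / (1 + y ^ 2) ^ 2) (hδ : 0 < δ)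
    (hδ1 : δ ≤ 1) (y : ℝ) : |dil δ f y| ≤ D / δ ^ 3 / (1 + y ^ 2) ^ 2 := by
  unfold dil
  rw [abs_mul, abs_of_pos hδ]
  have h1 : δ ^ 2 * (1 + y ^ 2) ≤ 1 + (δ * y) ^ 2 := by
    have : δ ^ 2 ≤ 1 := pow_le_one₀ hδ.le hδ1
    nlinarith
  have h2 := pow_le_pow_left₀ (by positivity) h1 2
  calc δ * |f (δ * y)| ≤ δ * (D / (1 + (δ * y) ^ 2) ^ 2) :=
        mul_le_mul_of_nonneg_left (hf _) hδ.le
    _ ≤ δ * (D / (δ ^ 2 * (1 + y ^ 2)) ^ 2) := by gcongr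
    _ = D / δ ^ 3 / (1 + y ^ 2) ^ 2 := by
        field_simp

lemma dec_one {D : ℝ} (hD : 0 ≤ D) {g : ℝ → ℝ} (hg : ∀ y, |g y| ≤ D / (1 + y ^ 2) ^ 2) (y : ℝ) :
    |g y| ≤ D / (1 + y ^ 2) := by
  refine (hg y).trans (div_le_div_of_nonneg_left hD (by positivity) ?_)
  nlinarith [sq_nonneg y]

lemma dil_scale {C δ : ℝ} (hC : 0 ≤ C)
    (hs : ∀ y s, 1 ≤ s → |f (s * y) - f y| ≤ C * (s - 1) / (1 + y ^ 2)) (hδ : 0 < δ)
    (hδ1 : δ ≤ 1) (y s : ℝ) (h1 : 1 ≤ s) :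
    |dil δ f (s * y) - dil δ f y| ≤ C / δ * (s - 1) / (1 + y ^ 2) := by
  unfold dil
  have h2 := hs (δ * y) s h1
  have e : δ * (s * y) = s * (δ * y) := by ring
  rw [e, ← mul_sub, abs_mul, abs_of_pos hδ]
  have h3 : δ ^ 2 * (1 + y ^ 2) ≤ 1 + (δ * y) ^ 2 := by
    have : δ ^ 2 ≤ 1 := pow_le_one₀ hδ.le hδ1
    nlinarith
  have h4 : 0 ≤ C * (s - 1) := mul_nonneg hC (by linarith)
  calc δ * |f (s * (δ * y)) - f (δ * y)| ≤ δ * (C * (s - 1) / (1 + (δ * y) ^ 2)) :=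
        mul_le_mul_of_nonneg_left h2 hδ.le
    _ ≤ δ * (C * (s - 1) / (δ ^ 2 * (1 + y ^ 2))) := by gcongr
    _ = C / δ * (s - 1) / (1 + y ^ 2) := by
        field_simp

lemma mn_dil {ψ : ℝ → ℝ} {δ : ℝ} (hδ : 0 < δ) :
    ψ (0 / δ) + ∫ α in (-δ)..δ, |α| * ψ (α / δ) = mn ψ δ := by
  unfold mn
  rw [zero_div]
  congr 1
  have h1 := intervalIntegral.mul_integral_comp_mul_left (a := (-1 : ℝ)) (b := 1)
    (f := fun α => |α| * ψ (α / δ)) δ
  rw [mul_one, mul_neg, mul_one] at h1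
  rw [← h1, ← intervalIntegral.integral_const_mul, ← intervalIntegral.integral_const_mul]
  refine intervalIntegral.integral_congr fun β _ => ?_
  show δ * (|δ * β| * ψ (δ * β / δ)) = δ ^ 2 * (|β| * ψ β)
  rw [abs_mul, abs_of_pos hδ, mul_div_cancel_left₀ _ hδ.ne']
  ring

/-- **the block estimate** -/
theorem blk_est : ∃ κ1 : ℝ, 0 < κ1 ∧ κ1 < 1 ∧ ∀ ψ f : ℝ → ℝ, Prof ψ f → ∃ C0 : ℝ, 0 ≤ C0 ∧
    ∀ δ c θ ε : ℝ, 0 < δ → δ ≤ κ1 → 0 < c → c ≤ 1 → 0 < θ → 0 < ε → ∃ V1 : ℝ, 20 ≤ V1 ∧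
    ∀ V : ℝ, V1 ≤ V →
      |QS (Zb V (2 * V)) (Zb V (2 * V)) mz (fun s => s.im) (dil δ f) (Real.log V) -
        mn ψ δ * Xf V| ≤ (ε + C0 * (c + δ ^ 4 / c * θ)) * Xf V +
          C0 * (δ ^ 4 / (c * θ)) * Nof V (2 * V) := by
  obtain ⟨κ', C1, V0, hκ', hC1, hV0, hwin⟩ := win_mom
  have hpi := Real.pi_pos
  refine ⟨min (κ' / 2) (1 / 2), lt_min (by positivity) (by norm_num),
    (min_le_right _ _).trans_lt (by norm_num), fun ψ f hP => ?_⟩
  obtain ⟨A, hA, hlip⟩ := hP.lip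
  obtain ⟨D, hD, hdec⟩ := hP.dec
  obtain ⟨g0, hg, hgs, hg2⟩ := sq_approx (κ := 1) (κ' := 2) one_pos (by norm_num)
    (r := fun α => |ψ α|) hP.cont.abs (fun α => abs_nonneg _) (fun α hα => by
      rw [hP.supp α hα.le, abs_zero]) (e := 1) one_pos
  obtain ⟨C2, hC2, hjd⟩ := jd_lint hg (rr := 2) (by norm_num) hgs
  obtain ⟨B1, hB1⟩ : ∃ B1 : ℝ, B1 = |ψ 0| + |∫ α in (-1 : ℝ)..1, |α| * (|ψ α|)| + 1 := ⟨_, rfl⟩
  have hB10 : 0 ≤ B1 := by rw [hB1]; positivity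
  refine ⟨B1 + 4 * π * C2 * C1 + C2, by positivity, fun δ c θ ε hδ hδκ hc hc1 hθ hε => ?_⟩
  have hδ1 : δ ≤ 1 := (hδκ.trans (min_le_right _ _)).trans (by norm_num)
  have hδ2 : δ < 1 := lt_of_le_of_lt (hδκ.trans (min_le_right _ _)) (by norm_num)
  have hδκ' : 2 * δ ≤ κ' := by
    have := hδκ.trans (min_le_left _ _)
    linarith
  set ε1 : ℝ := ε / 4 with hε1
  have hε10 : 0 < ε1 := by positivity
  set ψd : ℝ → ℝ := fun α => ψ (α / δ) with hψd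
  have hψc : Continuous ψd := hP.cont.comp (by fun_prop)
  have hlipd : ∀ x y, |ψd x - ψd y| ≤ A / δ * |x - y| := by
    intro x y
    refine (hlip (x / δ) (y / δ)).trans (le_of_eq ?_)
    rw [← sub_div, abs_div, abs_of_pos hδ]
    ring
  have hzd : ∀ x, δ ≤ |x| → ψd x = 0 := by
    intro x hx
    apply hP.supp
    rw [abs_div, abs_of_pos hδ, le_div_iff₀ hδ]
    linarith
  obtain ⟨T1, hT1, hpsi⟩ := psi_full δ ε1 hδ hδ2 hε10 ψd (A / δ) hlipd hzd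
  obtain ⟨T2, hT2, hpsa⟩ := psi_full δ 1 hδ hδ2 one_pos (fun α => |ψd α|) (A / δ)
    (fun x y => (abs_abs_sub_abs_le_abs_sub _ _).trans (hlipd x y))
    (fun x hx => by
      show |ψd x| = 0
      rw [hzd x hx, abs_zero])
  obtain ⟨D', hD'd⟩ : ∃ D' : ℝ, D' = D / δ ^ 3 := ⟨_, rfl⟩
  have hD' : 0 ≤ D' := by rw [hD'd]; positivity
  have hfd : ∀ y, |dil δ f y| ≤ D' / (1 + y ^ 2) ^ 2 := fun y => by
    rw [hD'd]
    exact dil_dec hD hdec hδ hδ1 y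
  obtain ⟨V2, hV2, hedge⟩ := edge_sm (dil_even hP δ) hD' (dec_one hD' hfd)
    (η := ε1 / (2 * π)) (by positivity)
  obtain ⟨C, B0, V3, hC, hB0, hV3, hblk, hloc⟩ := PP_bnd
  obtain ⟨W, hWd⟩ : ∃ W : ℝ, W = 3200 * π ^ 2 * D' * C * (2 * π) / ε1 := ⟨_, rfl⟩
  have ev1 : ∀ᶠ V : ℝ in atTop, W ≤ Real.log V := Real.tendsto_log_atTop.eventually_ge_atTop _
  have ev2 : ∀ᶠ V : ℝ in atTop, 1 / δ ≤ Real.log V := Real.tendsto_log_atTop.eventually_ge_atTop _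
  have ev3 : ∀ᶠ V : ℝ in atTop, 2 * |mn ψ δ| / ε1 ≤ V := eventually_ge_atTop _
  obtain ⟨V4, hV4⟩ := (ev1.and (ev2.and ev3)).exists_forall_of_atTop
  refine ⟨max (max (max V0 T1) (max T2 V2)) (max V3 V4),
    hV3.trans ((le_max_left _ _).trans (le_max_right _ _)), fun V hV => ?_⟩
  have hVa : max (max V0 T1) (max T2 V2) ≤ V := (le_max_left _ _).trans hV
  have hVb : max V3 V4 ≤ V := (le_max_right _ _).trans hV
  have hVV0 : V0 ≤ V := ((le_max_left _ _).trans (le_max_left _ _)).trans hVa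
  have hVT1 : T1 ≤ V := ((le_max_right _ _).trans (le_max_left _ _)).trans hVa
  have hVT2 : T2 ≤ V := ((le_max_left _ _).trans (le_max_right _ _)).trans hVa
  have hVV2 : V2 ≤ V := ((le_max_right _ _).trans (le_max_right _ _)).trans hVa
  have hVV3 : V3 ≤ V := (le_max_left _ _).trans hVb
  obtain ⟨e1, e2, e3⟩ := hV4 V ((le_max_right _ _).trans hVb)
  have hV20 : 20 ≤ V := hV0.trans hVV0
  have hlV : 1 ≤ Real.log V := by
    rw [Real.le_log_iff_exp_le (by linarith)]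
    linarith [Real.exp_one_lt_d9]
  obtain ⟨-, p1⟩ := hpsi V hVT1
  obtain ⟨-, p2⟩ := hpsa V hVT2
  have p3 := hwin V hVV0 (2 * δ) (by positivity) hδκ' θ hθ
  have p4 := hedge V hVV2
  have p5 := hblk V hVV3
  set L := Real.log V with hL
  have hL0 : 0 < L := by linarith
  set X' := (V - 2) * L / (2 * π) with hX'
  have hX0 : 0 ≤ X' := by
    rw [hX']
    have : 0 ≤ V - 2 := by linarith
    positivity
  have hXX : X' ≤ Xf V := by
    rw [hX']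
    unfold Xf
    rw [← hL]
    gcongr
    linarith
  have hXV : V * L = 2 * π * Xf V := by
    unfold Xf
    rw [← hL]
    field_simp
  have hXf : 0 < Xf V := Xf_pos (by linarith)
  set M := θ * (C1 * V) + Nof V (2 * V) / (2 * θ * L) with hM
  have hNof := Nof_nonneg V (2 * V)
  have hM0 : 0 ≤ M := by positivity
  have hδL : 1 ≤ δ * L := by
    rw [div_le_iff₀ hδ] at e2
    linarith
  have hA1 : (1 : ℝ) ≤ V + 1 := by linarith
  have q1 := hjd δ L hδ hδ1 hδL (V + 1) (2 * V - 1) hA1 M hM0 p3 ψd (fun α => (hg2 (α / δ)).1)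
  have q2 := cmp_int hA1 hc hδ hψc (K := C2 * δ ^ 4 * (L * M)) (by positivity) q1
  have q3 := jb_int (Zb (V + 1) (2 * V - 1)) (L := L) hδ hψc hzd
  have hct : ∀ x, ct ψd x = dil δ f x := dil_ct hP hδ
  simp_rw [hct] at q3
  have q4 := gauss_rm (Zb (V + 1) (2 * V - 1)) hD' hfd hL0
  rw [← q3] at q4
  -- the integrals
  have hmn1 : ψd 0 + ∫ α in (-δ)..δ, |α| * ψd α = mn ψ δ := mn_dil hδ
  have hmn2 : |ψd 0| + ∫ α in (-δ)..δ, |α| * |ψd α| = mn (fun α => |ψ α|) δ :=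
    mn_dil (ψ := fun α => |ψ α|) hδ
  simp only [hmn1] at p1
  simp only [hmn2] at p2
  have hmnB : mn (fun α => |ψ α|) δ + 1 ≤ B1 := by
    rw [hB1]
    unfold mn
    have h1 : δ ^ 2 * ∫ α in (-1 : ℝ)..1, |α| * |ψ α| ≤ |∫ α in (-1 : ℝ)..1, |α| * (|ψ α|)| := by
      have h2 : δ ^ 2 ≤ 1 := pow_le_one₀ hδ.le hδ1
      have h3 : 0 ≤ ∫ α in (-1 : ℝ)..1, |α| * |ψ α| :=
        intervalIntegral.integral_nonneg (by norm_num) fun α _ => by positivity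
      rw [abs_of_nonneg h3]
      exact mul_le_of_le_one_left h3 h2
    linarith
  have hsq : 1 ≤ Real.sqrt π := by
    rw [Real.one_le_sqrt]
    linarith [Real.pi_gt_three]
  have hsq0 : 0 < Real.sqrt π := by linarith
  have hJJ : Continuous fun α : ℝ => JJ riemannZeta (V + 1) (2 * V - 1) (α * L) :=
    (JJ_cont good_zeta (U2 := 2 * V - 1) hA1).comp (by fun_prop)
  have hJB : Continuous fun α : ℝ => JB (Zb (V + 1) (2 * V - 1)) mz (α * L) :=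
    (JB_cont (Zb (V + 1) (2 * V - 1)) mz).comp (by fun_prop)
  have hJN : ∀ φ : ℝ → ℝ, ∫ α in (-δ)..δ, φ α * JN riemannZeta (V + 1) (2 * V - 1) (α * L) =
      (∫ α in (-δ)..δ, φ α * JJ riemannZeta (V + 1) (2 * V - 1) (α * L)) / Real.sqrt π := by
    intro φ
    rw [← intervalIntegral.integral_div]
    refine intervalIntegral.integral_congr fun α _ => ?_
    show φ α * (JJ riemannZeta (V + 1) (2 * V - 1) (α * L) / Real.sqrt π) = _
    ring
  rw [hJN] at p1 p2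
  have hsplit : ∫ α in (-δ)..δ, ψd α * (JJ riemannZeta (V + 1) (2 * V - 1) (α * L) -
      JB (Zb (V + 1) (2 * V - 1)) mz (α * L)) =
      (∫ α in (-δ)..δ, ψd α * JJ riemannZeta (V + 1) (2 * V - 1) (α * L)) -
        ∫ α in (-δ)..δ, ψd α * JB (Zb (V + 1) (2 * V - 1)) mz (α * L) := by
    rw [← intervalIntegral.integral_sub]
    · refine intervalIntegral.integral_congr fun α _ => ?_
      ring
    · exact (hψc.mul hJJ).intervalIntegrable _ _
    · exact (hψc.mul hJB).intervalIntegrable _ _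
  rw [hsplit] at q2
  set I1 := ∫ α in (-δ)..δ, ψd α * JJ riemannZeta (V + 1) (2 * V - 1) (α * L) with hI1
  set I2 := ∫ α in (-δ)..δ, ψd α * JB (Zb (V + 1) (2 * V - 1)) mz (α * L) with hI2
  set I3 := ∫ α in (-δ)..δ, |ψd α| * JJ riemannZeta (V + 1) (2 * V - 1) (α * L) with hI3
  set Q' := QS (Zb (V + 1) (2 * V - 1)) (Zb (V + 1) (2 * V - 1)) mz (fun s => s.im) (dil δ f) L
    with hQ'
  set Q := QS (Zb V (2 * V)) (Zb V (2 * V)) mz (fun s => s.im) (dil δ f) L with hQ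
  -- the pieces
  have r1 : |I1 / Real.sqrt π - X' * mn ψ δ| ≤ ε1 * Xf V :=
    p1.trans (mul_le_mul_of_nonneg_left hXX hε10.le)
  have r2 : I3 / Real.sqrt π ≤ B1 * Xf V := by
    have h1 := (abs_le.1 p2).2
    have h2 : X' * (mn (fun α => |ψ α|) δ + 1) ≤ X' * B1 := mul_le_mul_of_nonneg_left hmnB hX0
    have h3 : X' * B1 ≤ B1 * Xf V := by
      rw [mul_comm]
      exact mul_le_mul_of_nonneg_left hXX hB10
    linarith
  have hLM : L * M = θ * C1 * (2 * π * Xf V) + Nof V (2 * V) / (2 * θ) := by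
    rw [hM, ← hXV]
    field_simp
  have r3 : |I1 / Real.sqrt π - I2 / Real.sqrt π| ≤ c * (B1 * Xf V) +
      2 / c * (C2 * δ ^ 4 * (L * M)) := by
    rw [← sub_div, abs_div, abs_of_pos hsq0, div_le_iff₀ hsq0]
    refine q2.trans ?_
    have h1 : c * I3 ≤ c * (B1 * Xf V) * Real.sqrt π := by
      rw [div_le_iff₀ hsq0] at r2
      have := mul_le_mul_of_nonneg_left r2 hc.le
      linarith
    have h2 : (1 + 1 / c) * (C2 * δ ^ 4 * (L * M)) ≤
        2 / c * (C2 * δ ^ 4 * (L * M)) * Real.sqrt π := by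
      have h3 : 1 + 1 / c ≤ 2 / c := by
        rw [le_div_iff₀ hc, add_mul, one_div_mul_cancel hc.ne']
        linarith
      have h4 : 0 ≤ C2 * δ ^ 4 * (L * M) := by positivity
      have h5 := mul_le_mul_of_nonneg_right h3 h4
      have h6 : 0 ≤ 2 / c * (C2 * δ ^ 4 * (L * M)) := by positivity
      calc (1 + 1 / c) * (C2 * δ ^ 4 * (L * M)) ≤ 2 / c * (C2 * δ ^ 4 * (L * M)) := h5
        _ = 2 / c * (C2 * δ ^ 4 * (L * M)) * 1 := (mul_one _).symm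
        _ ≤ _ := mul_le_mul_of_nonneg_left hsq h6
    refine (add_le_add h1 h2).trans (le_of_eq ?_)
    ring
  have r4 : |I2 / Real.sqrt π - Q'| ≤ ε1 * Xf V := by
    refine q4.trans ?_
    have hsub : Zb (V + 1) (2 * V - 1) ⊆ Zb V (2 * V) := by
      intro s hs
      rw [mem_Zb (by linarith)] at hs ⊢
      exact ⟨hs.1, hs.2.1, by linarith [hs.2.2.1], by linarith [hs.2.2.2.1], hs.2.2.2.2⟩
    have h1 : PP1 (Zb (V + 1) (2 * V - 1)) mz (fun s => s.im) L ≤ C * (V * L) :=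
      (PP1_mono hsub mz_nonneg L).trans p5
    have h2 : 3200 * (π ^ 2 * D' / L ^ 2) * PP1 (Zb (V + 1) (2 * V - 1)) mz (fun s => s.im) L ≤
        3200 * (π ^ 2 * D' / L ^ 2) * (C * (V * L)) :=
      mul_le_mul_of_nonneg_left h1 (by positivity)
    refine h2.trans ?_
    rw [hXV]
    have h3 : 3200 * (π ^ 2 * D' / L ^ 2) * (C * (2 * π * Xf V)) =
        3200 * π ^ 2 * D' * C * (2 * π) / L ^ 2 * Xf V := by ring
    rw [h3]
    refine mul_le_mul_of_nonneg_right ?_ hXf.le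
    rw [div_le_iff₀ (by positivity)]
    rw [hWd, div_le_iff₀ hε10] at e1
    have h4 : L * ε1 ≤ ε1 * L ^ 2 := by
      calc L * ε1 = ε1 * L * 1 := by ring
        _ ≤ ε1 * L * L := mul_le_mul_of_nonneg_left hlV (mul_nonneg hε10.le hL0.le)
        _ = ε1 * L ^ 2 := by ring
    exact e1.trans h4
  have r5 : |Q - Q'| ≤ ε1 * Xf V := by
    refine p4.trans (le_of_eq ?_)
    rw [hXV]
    field_simp
  have r6 : |X' * mn ψ δ - mn ψ δ * Xf V| ≤ ε1 * Xf V := by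
    have h1 : X' * mn ψ δ - mn ψ δ * Xf V = -(mn ψ δ * (2 * L / (2 * π))) := by
      rw [hX']
      unfold Xf
      rw [← hL]
      ring
    rw [h1, abs_neg, abs_mul, abs_of_nonneg (by positivity : 0 ≤ 2 * L / (2 * π))]
    rw [div_le_iff₀ hε10] at e3
    have h2 : |mn ψ δ| * (2 * L / (2 * π)) = (2 * |mn ψ δ|) * (L / (2 * π)) := by ring
    have h3 : ε1 * Xf V = (V * ε1) * (L / (2 * π)) := by
      unfold Xf
      rw [← hL]
      ring
    rw [h2, h3]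
    exact mul_le_mul_of_nonneg_right e3 (by positivity)
  -- sum up
  have hfin : |Q - mn ψ δ * Xf V| ≤ ε * Xf V + (c * (B1 * Xf V) +
      2 / c * (C2 * δ ^ 4 * (L * M))) := by
    have a1 := abs_le.1 r1
    have a3 := abs_le.1 r3
    have a4 := abs_le.1 r4
    have a5 := abs_le.1 r5
    have a6 := abs_le.1 r6
    have hεε : ε * Xf V = 4 * (ε1 * Xf V) := by rw [hε1]; ring
    rw [hεε, abs_le]
    constructor
    · linarith [a1.1, a3.2, a4.2, a5.1, a6.1]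
    · linarith [a1.2, a3.1, a4.1, a5.2, a6.2]
  refine hfin.trans ?_
  rw [hLM]
  have t1 : 2 / c * (C2 * δ ^ 4 * (θ * C1 * (2 * π * Xf V) + Nof V (2 * V) / (2 * θ))) =
      4 * π * C2 * C1 * (δ ^ 4 / c * θ) * Xf V + C2 * (δ ^ 4 / (c * θ)) * Nof V (2 * V) := by
    field_simp
    ring
  rw [t1]
  have t2 : 0 ≤ δ ^ 4 / c * θ * Xf V := by positivity
  have t3 : 0 ≤ δ ^ 4 / (c * θ) * Nof V (2 * V) := by positivity
  have t4 : 0 ≤ c * Xf V := by positivity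
  have t5 : 0 ≤ 4 * π * C2 * C1 := by positivity
  have t6 : (ε + (B1 + 4 * π * C2 * C1 + C2) * (c + δ ^ 4 / c * θ)) * Xf V +
      (B1 + 4 * π * C2 * C1 + C2) * (δ ^ 4 / (c * θ)) * Nof V (2 * V) =
      (ε * Xf V + (c * (B1 * Xf V) + (4 * π * C2 * C1 * (δ ^ 4 / c * θ) * Xf V +
        C2 * (δ ^ 4 / (c * θ)) * Nof V (2 * V)))) +
      (B1 * (δ ^ 4 / c * θ * Xf V) + (4 * π * C2 * C1) * (c * Xf V) + C2 * (c * Xf V) +
        C2 * (δ ^ 4 / c * θ * Xf V) + B1 * (δ ^ 4 / (c * θ) * Nof V (2 * V)) +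
        (4 * π * C2 * C1) * (δ ^ 4 / (c * θ) * Nof V (2 * V))) := by ring
  rw [t6]
  refine le_add_of_nonneg_right ?_
  have u1 := mul_nonneg hB10 t2
  have u2 := mul_nonneg t5 t4
  have u3 := mul_nonneg hC2.le t4
  have u4 := mul_nonneg hC2.le t2
  have u5 := mul_nonneg hB10 t3
  have u6 := mul_nonneg t5 t3
  linarith

end Pool.Agent.W2helper24.FP
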