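import Pool.Agent.TH803.TW.Cell

set_option autoImplicit false

/-! # Pairs and second moments of local counts -/

open Filter Topology MeasureTheory Set
open scoped ENNReal

namespace Pool.Agent.W2helper24.FP

open TH803TW

lemma overlap {a b r : ℝ} (h : |a - b| ≤ r) :
    ENNReal.ofReal r ≤ volume ({t : ℝ | |a - t| ≤ r} ∩ {t : ℝ | |b - t| ≤ r}) := by
  have h1 : Icc (max a b - r) (min a b + r) ⊆ {t : ℝ | |a - t| ≤ r} ∩ {t : ℝ | |b - t| ≤ r} := by
    rintro t ⟨h2, h3⟩
    have := le_max_left a b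
    have := le_max_right a b
    have := min_le_left a b
    have := min_le_right a b
    constructor
    · show |a - t| ≤ r
      rw [abs_le]
      constructor <;> linarith
    · show |b - t| ≤ r
      rw [abs_le]
      constructor <;> linarith
  refine le_trans ?_ (measure_mono h1)
  rw [Real.volume_Icc]
  apply ENNReal.ofReal_le_ofReal
  have h2 := max_sub_min_eq_abs a b
  rw [abs_sub_comm] at h2
  linarith

/-- pairs at distance at most `1 / L` from the second moment of the local counts -/
lemma pp_of_mom (S : Finset ℂ) {m w : ℂ → ℝ} (hm : ∀ s, 0 ≤ m s) (hw : ∀ s, 1 ≤ w s) {L M : ℝ}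
    (hL : 0 < L) (hM : 0 ≤ M)
    (h : ∫⁻ t : ℝ, ENNReal.ofReal ((∑ s ∈ S.filter (fun s => |s.im - t| ≤ 1 / L), m s * w s) ^ 2) ≤
      ENNReal.ofReal M) : PP1 S m (fun s => s.im) L ≤ L * M := by
  classical
  have hr : 0 < 1 / L := by positivity
  set r := 1 / L with hrd
  set g : ℂ → ℝ → ℝ := fun s t => if |s.im - t| ≤ r then m s else 0 with hg
  have hg0 : ∀ s t, 0 ≤ g s t := fun s t => by
    simp only [hg]
    split_ifs
    · exact hm s
    · exact le_rfl
  have hmeas : ∀ s : ℂ, MeasurableSet {t : ℝ | |s.im - t| ≤ r} := fun s =>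
    measurableSet_le (by fun_prop) measurable_const
  have hgm : ∀ s, Measurable (g s) := fun s =>
    Measurable.ite (hmeas s) measurable_const measurable_const
  have h1 : ∀ t : ℝ, ∑ s ∈ S, ∑ s' ∈ S, ENNReal.ofReal (g s t * g s' t) ≤
      ENNReal.ofReal ((∑ s ∈ S.filter (fun s => |s.im - t| ≤ r), m s * w s) ^ 2) := by
    intro t
    have e1 : ∑ s ∈ S, ∑ s' ∈ S, ENNReal.ofReal (g s t * g s' t) =
        ENNReal.ofReal ((∑ s ∈ S, g s t) ^ 2) := by
      rw [sq, Finset.sum_mul_sum, ENNReal.ofReal_sum_of_nonneg fun s _ =>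
        Finset.sum_nonneg fun s' _ => mul_nonneg (hg0 s t) (hg0 s' t)]
      refine Finset.sum_congr rfl fun s _ => ?_
      rw [ENNReal.ofReal_sum_of_nonneg fun s' _ => mul_nonneg (hg0 s t) (hg0 s' t)]
    rw [e1]
    apply ENNReal.ofReal_le_ofReal
    refine pow_le_pow_left₀ (Finset.sum_nonneg fun s _ => hg0 s t) ?_ 2
    simp only [hg]
    rw [← Finset.sum_filter]
    refine Finset.sum_le_sum fun s _ => ?_
    have := mul_le_mul_of_nonneg_left (hw s) (hm s)
    linarith
  have hgg : ∀ s s', Measurable fun t => ENNReal.ofReal (g s t * g s' t) := fun s s' =>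
    ((hgm s).mul (hgm s')).ennreal_ofReal
  have h2 : ∑ s ∈ S, ∑ s' ∈ S, ENNReal.ofReal (m s * m s' * (if |s.im - s'.im| ≤ r then 1 else 0)
      * r) ≤ ENNReal.ofReal M := by
    refine le_trans ?_ ((lintegral_mono h1).trans h)
    rw [lintegral_finsetSum _ fun s _ => Finset.measurable_sum _ fun s' _ => hgg s s']
    refine Finset.sum_le_sum fun s _ => ?_
    rw [lintegral_finsetSum _ fun s' _ => hgg s s']
    refine Finset.sum_le_sum fun s' _ => ?_
    by_cases hs : |s.im - s'.im| ≤ r
    · rw [if_pos hs, mul_one]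
      have e2 : ∀ t, ENNReal.ofReal (g s t * g s' t) =
          ({t : ℝ | |s.im - t| ≤ r} ∩ {t : ℝ | |s'.im - t| ≤ r}).indicator
            (fun _ => ENNReal.ofReal (m s * m s')) t := by
        intro t
        simp only [hg]
        by_cases a1 : |s.im - t| ≤ r
        · by_cases a2 : |s'.im - t| ≤ r
          · rw [if_pos a1, if_pos a2, indicator_of_mem]
            exact ⟨a1, a2⟩
          · rw [if_neg a2, indicator_of_notMem (fun h => a2 h.2), mul_zero, ENNReal.ofReal_zero]
        · rw [if_neg a1, indicator_of_notMem (fun h => a1 h.1), zero_mul, ENNReal.ofReal_zero]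
      simp_rw [e2]
      rw [lintegral_indicator_const ((hmeas s).inter (hmeas s')),
        ENNReal.ofReal_mul (mul_nonneg (hm s) (hm s'))]
      gcongr
      exact overlap hs
    · rw [if_neg hs, mul_zero, zero_mul, ENNReal.ofReal_zero]
      exact zero_le
  have e3 : ∑ s ∈ S, ∑ s' ∈ S, ENNReal.ofReal (m s * m s' * (if |s.im - s'.im| ≤ r then 1 else 0)
      * r) = ENNReal.ofReal (PP1 S m (fun s => s.im) L * r) := by
    have hn : ∀ s s' : ℂ, 0 ≤ m s * m s' * (if |s.im - s'.im| ≤ r then (1 : ℝ) else 0) * r := by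
      intro s s'
      refine mul_nonneg (mul_nonneg (mul_nonneg (hm s) (hm s')) ?_) hr.le
      split_ifs <;> norm_num
    unfold PP1
    rw [Finset.sum_mul, ENNReal.ofReal_sum_of_nonneg fun s _ => by
      rw [Finset.sum_mul]
      exact Finset.sum_nonneg fun s' _ => hn s s']
    refine Finset.sum_congr rfl fun s _ => ?_
    rw [Finset.sum_mul, ENNReal.ofReal_sum_of_nonneg fun s' _ => hn s s']
  rw [e3, ENNReal.ofReal_le_ofReal_iff hM] at h2
  rw [hrd, mul_one_div, div_le_iff₀ hL] at h2
  linarith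

end Pool.Agent.W2helper24.FP
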