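import Pool.Agent.W2helper24.FP.Mom
import Pool.Agent.W2helper24.FP.Ovl
import Pool.Agent.Y744.PCR.Fin

set_option autoImplicit false

/-! # Bounds for the pairs of zeros, without hypotheses -/

open Filter Topology Complex MeasureTheory

namespace Pool.Agent.W2helper24.FP

open H370 TH803TW Pool.Agent.Y744
open scoped Real


/-- pairs in a dyadic block -/
theorem blk_pp : ∃ C T0 : ℝ, 0 < C ∧ 10 ≤ T0 ∧ ∀ V : ℝ, T0 ≤ V →
    PP1 (Zb V (2 * V)) mz (fun s => s.im) (Real.log V) ≤ C * (V * Real.log V) := by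
  obtain ⟨κ0, C, V0, hκ, hC, hV0, h⟩ := mom 2 (by norm_num)
  refine ⟨C + 1, V0, by positivity, by linarith, fun V hV => ?_⟩
  have hV20 : 20 ≤ V := hV0.trans hV
  have hlV : 1 ≤ Real.log V := by
    rw [Real.le_log_iff_exp_le (by linarith)]
    linarith [Real.exp_one_lt_d9]
  have h1 := h V hV (Real.log V) le_rfl (by linarith)
  have h2 := pp_of_mom (Zb V (2 * V)) (m := mz)
    (w := fun s => Real.exp (κ0 * |s.re - 1 / 2| * Real.log V)) mz_nonneg
    (fun s => Real.one_le_exp (by positivity)) (L := Real.log V) (M := C * V) (by linarith)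
    (by positivity) h1
  refine h2.trans ?_
  have : 0 ≤ V * Real.log V := by positivity
  nlinarith

/-- **local bound** -/
theorem PP_bnd : ∃ C B0 V0 : ℝ, 0 ≤ C ∧ 0 ≤ B0 ∧ 20 ≤ V0 ∧
    (∀ V : ℝ, V0 ≤ V → PP1 (Zb V (2 * V)) mz (fun s => s.im) (Real.log V) ≤ C * (V * Real.log V)) ∧
    (∀ T : ℝ, V0 ≤ T → ∀ Λ : ℝ, Real.log T ≤ Λ →
      PP1 (Zt T) mz (fun s => s.im) Λ ≤ B0 + C * (T * Real.log T)) := by
  obtain ⟨C1, T1, hC1, hT1, hP⟩ := blk_pp
  obtain ⟨V1, hV1, hN⟩ := near_bound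
  set V0 : ℝ := max V1 T1 with hV0
  have hV020 : 20 ≤ V0 := hV1.trans (le_max_left _ _)
  have hblk : ∀ V : ℝ, V0 ≤ V →
      PP1 (Zb V (2 * V)) mz (fun s => s.im) (Real.log V) ≤ C1 * (V * Real.log V) :=
    fun V hV => hP V ((le_max_right _ _).trans hV)
  set B0 : ℝ := (∑ s ∈ Zt (2 * V0), mz s) ^ 2 with hB0
  have hsmall : ∀ T : ℝ, T ≤ 2 * V0 → ∀ Λ : ℝ, PP1 (Zt T) mz (fun s => s.im) Λ ≤ B0 := by
    intro T hT Λ
    refine (PP1_le_sq (Zt T) mz_nonneg Λ).trans ?_
    refine pow_le_pow_left₀ (Finset.sum_nonneg fun s _ => mz_nonneg s) ?_ 2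
    refine Finset.sum_le_sum_of_subset_of_nonneg (fun s hs => ?_) fun s _ _ => mz_nonneg s
    rw [mem_Zt] at hs ⊢
    exact ⟨hs.1, hs.2.1, hs.2.2.1, hs.2.2.2.1.trans hT, hs.2.2.2.2⟩
  have hmain : ∀ n : ℕ, ∀ T : ℝ, V0 ≤ T → T ≤ 2 ^ n * (2 * V0) → ∀ Λ : ℝ, Real.log T ≤ Λ →
      PP1 (Zt T) mz (fun s => s.im) Λ ≤ B0 + (C1 + 1) * (T * Real.log T) := by
    intro n
    induction n with
    | zero =>
      intro T hT hT2 Λ hΛ
      rw [pow_zero, one_mul] at hT2
      have h1 := hsmall T hT2 Λ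
      have h2 : 0 ≤ Real.log T := Real.log_nonneg (by linarith)
      have h3 : 0 ≤ (C1 + 1) * (T * Real.log T) := by
        have : 0 ≤ T := by linarith
        positivity
      linarith
    | succ n ih =>
      intro T hT hT2 Λ hΛ
      have hlT : 0 ≤ Real.log T := Real.log_nonneg (by linarith)
      rcases le_or_gt T (2 * V0) with h | h
      · have h1 := hsmall T h Λ
        have h3 : 0 ≤ (C1 + 1) * (T * Real.log T) := by
          have : 0 ≤ T := by linarith
          positivity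
        linarith
      · set V := T / 2 with hV
        have hVV : V0 ≤ V := by linarith
        have hTV : T = 2 * V := by rw [hV]; ring
        have hlog : Real.log V ≤ Real.log T := Real.log_le_log (by linarith) (by linarith)
        have hlV1 : 1 ≤ Real.log V := by
          rw [Real.le_log_iff_exp_le (by linarith)]
          linarith [Real.exp_one_lt_d9]
        have h1 := ih V hVV (by
          rw [pow_succ] at hT2
          linarith) Λ (hlog.trans hΛ)
        have h2 := PP1_Zt_step (V := V) (by linarith) (Λ := Λ) (by linarith)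
        have h3 := (PP1_anti (x := fun s : ℂ => s.im) (Zb V (2 * V)) mz_nonneg (by linarith)
          (hlog.trans hΛ)).trans (hblk V hVV)
        have h4 := hN V ((le_max_left _ _).trans hVV)
        rw [← hTV] at h2 h3
        have h5 : V ≤ V * Real.log V := by nlinarith
        have h6 : (C1 + 1) * (V * Real.log V) ≤ (C1 + 1) * (V * Real.log T) := by
          have : 0 ≤ V := by linarith
          gcongr
        have h7 : (C1 + 1) * (T * Real.log T) = 2 * ((C1 + 1) * (V * Real.log T)) := by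
          rw [hTV]
          ring_nf
        linarith
  refine ⟨C1 + 1, B0, V0, by positivity, by positivity, hV020, fun V hV => ?_, fun T hT Λ hΛ => ?_⟩
  · refine (hblk V hV).trans ?_
    have h2 : 0 ≤ Real.log V := Real.log_nonneg (by linarith)
    have : 0 ≤ V * Real.log V := mul_nonneg (by linarith) h2
    linarith
  · obtain ⟨n, hn⟩ := pow_unbounded_of_one_lt (T / (2 * V0)) (one_lt_two)
    refine hmain n T hT ?_ Λ hΛ
    rw [div_lt_iff₀ (by linarith)] at hn
    exact hn.le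


/-- growth of the counting function -/
theorem Aa_bnd : ∃ C0 T0 : ℝ, 20 ≤ T0 ∧ ∀ T : ℝ, T0 ≤ T → ∀ y,
    |Aa T y| ≤ C0 * (1 + y ^ 2) := by
  obtain ⟨C, B0, V0, hC, hB0, hV0, hblk, hloc⟩ := PP_bnd
  have hpi := Real.pi_pos
  refine ⟨3200 * (B0 + C) * (2 * π), V0, hV0, fun T hT y => ?_⟩
  have hT20 : 20 ≤ T := hV0.trans hT
  have hX := Xf_pos (V := T) (by linarith)
  have hL1 : 1 ≤ Real.log T := by
    rw [Real.le_log_iff_exp_le (by linarith)]
    linarith [Real.exp_one_lt_d9]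
  rcases lt_or_ge y 0 with hy | hy
  · rw [Aa_neg T y hy, abs_zero]
    positivity
  · unfold Aa
    rw [abs_of_nonneg (mul_nonneg (inv_nonneg.2 hX.le) (PC_nonneg _ _)), inv_mul_le_iff₀ hX]
    have h1 : PC T {x | |x| ≤ y} ≤ (1 + y ^ 2) * ∑ s ∈ Zt T, ∑ s' ∈ Zt T, mz s * mz s' *
        |(fun x : ℝ => 1 / (1 + x ^ 2)) ((s.im - s'.im) * Real.log T / (2 * π))| := by
      unfold PC
      rw [Finset.mul_sum]
      refine Finset.sum_le_sum fun s _ => ?_
      rw [Finset.mul_sum]
      refine Finset.sum_le_sum fun s' _ => ?_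
      have hm : 0 ≤ mz s * mz s' := mul_nonneg (mz_nonneg _) (mz_nonneg _)
      show mz s * mz s' * Set.indicator {x | |x| ≤ y} (fun _ => (1 : ℝ)) (dd T s s') ≤
        (1 + y ^ 2) * (mz s * mz s' * |1 / (1 + (dd T s s') ^ 2)|)
      set x := dd T s s'
      have h2 : Set.indicator {x | |x| ≤ y} (fun _ => (1 : ℝ)) x ≤
          (1 + y ^ 2) * (1 / (1 + x ^ 2)) := by
        by_cases hx : |x| ≤ y
        · rw [Set.indicator_of_mem (show x ∈ {x | |x| ≤ y} from hx), mul_one_div,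
            le_div_iff₀ (by positivity), one_mul]
          have : x ^ 2 ≤ y ^ 2 := by
            rw [← sq_abs x]
            exact pow_le_pow_left₀ (abs_nonneg _) hx 2
          linarith
        · rw [Set.indicator_of_notMem (show x ∉ {x | |x| ≤ y} from hx)]
          positivity
      rw [abs_of_nonneg (by positivity)]
      have h3 := mul_le_mul_of_nonneg_left h2 hm
      linarith
    have h2 := QS_abs_bound (x := fun s : ℂ => s.im) (Zt T) (Zt T) mz_nonneg
      (f := fun x : ℝ => 1 / (1 + x ^ 2)) (K := 1) (fun x => by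
        rw [abs_of_nonneg (by positivity)]) (Λ := Real.log T) (by linarith) one_pos
    have h3 := hloc T hT (Real.log T) le_rfl
    have h4 : B0 ≤ B0 * (T * Real.log T) := by
      have : 1 ≤ T * Real.log T := by nlinarith
      nlinarith
    calc PC T {x | |x| ≤ y} ≤ _ := h1
      _ ≤ (1 + y ^ 2) * (3200 * ((B0 + C) * (T * Real.log T))) := by
          refine mul_le_mul_of_nonneg_left (h2.trans ?_) (by positivity)
          linarith
      _ = Xf T * (3200 * (B0 + C) * (2 * π) * (1 + y ^ 2)) := by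
          unfold Xf
          field_simp


theorem cross_sm {f : ℝ → ℝ} {K : ℝ} (hK : 0 ≤ K) (hf : ∀ y, |f y| ≤ K / (1 + y ^ 2)) {η : ℝ}
    (hη : 0 < η) :
    ∃ V1 : ℝ, 20 ≤ V1 ∧ ∀ V : ℝ, V1 ≤ V → ∀ Λ : ℝ, Real.log V ≤ Λ →
      |QS (Zt V) (Zb V (2 * V)) mz (fun s => s.im) f Λ| ≤ η * (V * Real.log V) := by
  classical
  obtain ⟨C, B0, V0, hC, hB0, hV0, hblk, hloc⟩ := PP_bnd
  obtain ⟨V2, hV2, hnear⟩ := near_bound
  set lam : ℝ := 4800 * (K + 1) * (C + 1) / η with hlam
  have hlam0 : 0 < lam := by positivity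
  have ev1 : ∀ᶠ V : ℝ in atTop, 4800 * (K + 1) * lam / η ≤ Real.log V :=
    Real.tendsto_log_atTop.eventually_ge_atTop _
  have ev2 : ∀ᶠ V : ℝ in atTop, (9600 * (K + 1) * (2 * C + 1) / η) ^ 2 ≤ Real.log V :=
    Real.tendsto_log_atTop.eventually_ge_atTop _
  have ev3 : ∀ᶠ V : ℝ in atTop, B0 ≤ V := eventually_ge_atTop _
  obtain ⟨V3, hV3⟩ := (ev1.and (ev2.and ev3)).exists_forall_of_atTop
  refine ⟨max (max V0 V2) V3, hV0.trans ((le_max_left _ _).trans (le_max_left _ _)),
    fun V hV Λ hΛ => ?_⟩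
  have hVV0 : V0 ≤ V := ((le_max_left _ _).trans (le_max_left _ _)).trans hV
  have hVV2 : V2 ≤ V := ((le_max_right _ _).trans (le_max_left _ _)).trans hV
  obtain ⟨e1, e2, e3⟩ := hV3 V ((le_max_right _ _).trans hV)
  have hV20 : 20 ≤ V := hV0.trans hVV0
  have hlV1 : 1 ≤ Real.log V := by
    rw [Real.le_log_iff_exp_le (by linarith)]
    linarith [Real.exp_one_lt_d9]
  have hΛ1 : 1 ≤ Λ := hlV1.trans hΛ
  set Y := V * Real.log V with hY
  have hVY : V ≤ Y := by rw [hY]; nlinarith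
  have hY0 : 0 < Y := by linarith
  have hPblk : PP1 (Zb V (2 * V)) mz (fun s => s.im) Λ ≤ C * Y :=
    (PP1_anti (x := fun s : ℂ => s.im) (Zb V (2 * V)) mz_nonneg (by linarith) hΛ).trans
      (hblk V hVV0)
  have hPt := hloc V hVV0 Λ hΛ
  set A := (Zt V).filter (fun s => V - 1 < s.im) with hA
  set B := (Zt V).filter (fun s => ¬ V - 1 < s.im) with hB
  have hAsum : 2 * (∑ s ∈ A, mz s) ^ 2 ≤ V := by
    refine le_trans ?_ (hnear V hVV2)
    have : ∑ s ∈ A, mz s ≤ ∑ s ∈ Zb (V - 1) (V - 1 + 3), mz s := by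
      refine Finset.sum_le_sum_of_subset_of_nonneg (fun s hs => ?_) fun s _ _ => mz_nonneg s
      obtain ⟨h1, h2⟩ := Finset.mem_filter.1 hs
      rw [mem_Zt] at h1
      rw [mem_Zb (by linarith)]
      exact ⟨h1.1, h1.2.1, h2, by linarith [h1.2.2.2.1], h1.2.2.2.2⟩
    have h0 : 0 ≤ ∑ s ∈ A, mz s := Finset.sum_nonneg fun s _ => mz_nonneg s
    have := pow_le_pow_left₀ h0 this 2
    linarith
  have hPA : PP1 A mz (fun s => s.im) Λ ≤ V / 2 := by
    have := PP1_le_sq A mz_nonneg (x := fun s : ℂ => s.im) Λ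
    linarith
  have hPB : PP1 B mz (fun s => s.im) Λ ≤ B0 + C * Y :=
    (PP1_mono (Finset.filter_subset _ _) mz_nonneg Λ).trans hPt
  have n1 := QS_abs_bound (x := fun s : ℂ => s.im) A (Zb V (2 * V)) mz_nonneg hf
    (Λ := Λ) (lam := lam) (by linarith) hlam0
  have n2 := QS_far_bound (x := fun s : ℂ => s.im) B (Zb V (2 * V)) mz_nonneg hf hΛ1 (by
    intro s hs s' hs'
    obtain ⟨h1, h2⟩ := Finset.mem_filter.1 hs
    rw [mem_Zb (by linarith)] at hs'
    have h3 := hs'.2.2.1
    push Not at h2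
    rw [abs_sub_comm]
    refine le_trans ?_ (le_abs_self _)
    linarith)
  have n0 := QS_le_abs (x := fun s : ℂ => s.im) (Zt V) (Zb V (2 * V)) mz_nonneg f Λ
  rw [← Finset.sum_filter_add_sum_filter_not (Zt V) (fun s => V - 1 < s.im)] at n0
  -- the near part
  have b1 : 1600 * K * (lam * PP1 A mz (fun s => s.im) Λ +
      1 / lam * PP1 (Zb V (2 * V)) mz (fun s => s.im) Λ) ≤ 2 * η / 3 * Y := by
    have c1 : lam * PP1 A mz (fun s => s.im) Λ ≤ lam * V :=
      mul_le_mul_of_nonneg_left (by linarith) hlam0.le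
    have c2 : 1600 * K * (lam * V) ≤ η / 3 * Y := by
      rw [div_le_iff₀ hη] at e1
      have : 1600 * K * (lam * V) ≤ 1600 * (K + 1) * (lam * V) := by
        have : 0 ≤ lam * V := by positivity
        nlinarith
      refine this.trans ?_
      have h3 : 4800 * (K + 1) * lam * V ≤ Real.log V * η * V :=
        mul_le_mul_of_nonneg_right e1 (by linarith)
      rw [hY]
      linarith
    have c3 : 1 / lam * PP1 (Zb V (2 * V)) mz (fun s => s.im) Λ ≤ 1 / lam * (C * Y) :=
      mul_le_mul_of_nonneg_left hPblk (by positivity)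
    have c4 : 1600 * K * (1 / lam * (C * Y)) ≤ η / 3 * Y := by
      have h4 : 1600 * K * (1 / lam * (C * Y)) = (1600 * K * C / lam) * Y := by
        field_simp
      rw [h4]
      refine mul_le_mul_of_nonneg_right ?_ hY0.le
      rw [div_le_iff₀ hlam0, hlam]
      have h5 : η / 3 * (4800 * (K + 1) * (C + 1) / η) = 1600 * ((K + 1) * (C + 1)) := by
        field_simp
        ring
      rw [h5]
      nlinarith
    have hK0 : 0 ≤ 1600 * K := by positivity
    calc 1600 * K * (lam * PP1 A mz (fun s => s.im) Λ +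
        1 / lam * PP1 (Zb V (2 * V)) mz (fun s => s.im) Λ) ≤
          1600 * K * (lam * V + 1 / lam * (C * Y)) := by gcongr
      _ = 1600 * K * (lam * V) + 1600 * K * (1 / lam * (C * Y)) := by ring
      _ ≤ _ := by linarith
  -- the far part
  have b2 : 3200 * K / Real.sqrt Λ * (PP1 B mz (fun s => s.im) Λ +
      PP1 (Zb V (2 * V)) mz (fun s => s.im) Λ) ≤ η / 3 * Y := by
    have hs : 9600 * (K + 1) * (2 * C + 1) / η ≤ Real.sqrt Λ :=
      Real.le_sqrt_of_sq_le (e2.trans hΛ)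
    have hs0 : 0 < Real.sqrt Λ := Real.sqrt_pos.2 (by linarith)
    have c1 : PP1 B mz (fun s => s.im) Λ + PP1 (Zb V (2 * V)) mz (fun s => s.im) Λ ≤
        (2 * C + 1) * Y := by nlinarith
    calc 3200 * K / Real.sqrt Λ * (PP1 B mz (fun s => s.im) Λ +
        PP1 (Zb V (2 * V)) mz (fun s => s.im) Λ) ≤ 3200 * K / Real.sqrt Λ * ((2 * C + 1) * Y) :=
          mul_le_mul_of_nonneg_left c1 (by positivity)
      _ = (3200 * K * (2 * C + 1) / Real.sqrt Λ) * Y := by ring
      _ ≤ η / 3 * Y := by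
          refine mul_le_mul_of_nonneg_right ?_ hY0.le
          rw [div_le_iff₀ hs0]
          rw [div_le_iff₀ hη] at hs
          nlinarith
  calc |QS (Zt V) (Zb V (2 * V)) mz (fun s => s.im) f Λ| ≤ _ := n0
    _ ≤ 2 * η / 3 * Y + η / 3 * Y := add_le_add (n1.trans b1) (n2.trans b2)
    _ = η * Y := by ring


end Pool.Agent.W2helper24.FP
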