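import Pool.Agent.W2helper24.FP.Mom

set_option autoImplicit false

/-! # Second moments of the weighted local counts of the zeros off the critical line -/

open Filter Topology MeasureTheory Set
open scoped ENNReal

namespace Pool.Agent.W2helper24.FP

open Pool.Agent.Y744 (mz Zb Zt mz_nonneg mem_Zb)

/-- the number of the zeros off the critical line with ordinate in `(A, B]` -/
noncomputable def Nof (A B : ℝ) : ℝ := ∑ s ∈ (Zb A B).filter (fun s => s.re ≠ 1 / 2), mz s

lemma Nof_nonneg (A B : ℝ) : 0 ≤ Nof A B := Finset.sum_nonneg fun s _ => mz_nonneg s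

/-- the weight of the zeros off the critical line -/
noncomputable def bw (p L : ℝ) (s : ℂ) : ℝ :=
  mz s * (((s.re - 1 / 2) * L) ^ 2 * Real.exp (p * |(s.re - 1 / 2) * L|))

lemma bw_nonneg (p L : ℝ) (s : ℂ) : 0 ≤ bw p L s :=
  mul_nonneg (mz_nonneg s) (by positivity)

lemma sq_exp_le {κ : ℝ} (hκ : 0 < κ) : ∃ D : ℝ, 0 < D ∧ ∀ y : ℝ,
    y ^ 2 * Real.exp (κ / 2 * |y|) ≤ D * Real.exp (κ * |y|) := by
  obtain ⟨D, hD, h⟩ := pow_le_exp 2 (c := κ / 2) (by positivity)
  refine ⟨D + 1, by positivity, fun y => ?_⟩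
  have h1 := h |y| (abs_nonneg y)
  rw [sq_abs] at h1
  have h2 : Real.exp (κ * |y|) = Real.exp (κ / 2 * |y|) * Real.exp (κ / 2 * |y|) := by
    rw [← Real.exp_add]
    congr 1
    ring
  rw [h2]
  have h3 := Real.exp_pos (κ / 2 * |y|)
  calc y ^ 2 * Real.exp (κ / 2 * |y|) ≤ D * Real.exp (κ / 2 * |y|) * Real.exp (κ / 2 * |y|) :=
        mul_le_mul_of_nonneg_right h1 h3.le
    _ ≤ (D + 1) * (Real.exp (κ / 2 * |y|) * Real.exp (κ / 2 * |y|)) := by
        have : 0 ≤ Real.exp (κ / 2 * |y|) * Real.exp (κ / 2 * |y|) := by positivity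
        nlinarith

lemma mz_one {s : ℂ} (h : mz s ≠ 0) : 1 ≤ mz s := by
  unfold mz at h ⊢
  have h1 : H370.mult riemannZeta s ≠ 0 := by
    intro h2
    apply h
    rw [h2]
    simp
  exact_mod_cast Nat.one_le_iff_ne_zero.2 h1

lemma amgm {x θ : ℝ} (hθ : 0 < θ) : x ^ 2 ≤ θ * x ^ 4 + 1 / (4 * θ) := by
  have h : θ * x ^ 4 + 1 / (4 * θ) - x ^ 2 = (2 * θ * x ^ 2 - 1) ^ 2 / (4 * θ) := by
    field_simp
    ring
  have h2 : 0 ≤ (2 * θ * x ^ 2 - 1) ^ 2 / (4 * θ) := by positivity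
  linarith

/-- **second moment of the weighted local counts off the line** -/
theorem win_mom : ∃ κ1 C V0 : ℝ, 0 < κ1 ∧ 0 ≤ C ∧ 20 ≤ V0 ∧ ∀ V : ℝ, V0 ≤ V →
    ∀ p : ℝ, 0 ≤ p → p ≤ κ1 → ∀ θ : ℝ, 0 < θ →
    ∫⁻ t : ℝ, ENNReal.ofReal ((∑ s ∈ (Zb (V + 1) (2 * V - 1)).filter
      (fun s => |s.im - t| ≤ 1 / Real.log V), bw p (Real.log V) s) ^ 2) ≤
      ENNReal.ofReal (θ * (C * V) + Nof V (2 * V) / (2 * θ * Real.log V)) := by
  classical
  obtain ⟨κ0, C, V0, hκ, hC, hV0, h⟩ := mom 4 (by norm_num)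
  obtain ⟨D, hD, hDy⟩ := sq_exp_le hκ
  refine ⟨κ0 / 2, D ^ 4 * C, V0, by positivity, by positivity, hV0, fun V hV p hp0 hp θ hθ => ?_⟩
  have hV20 : 20 ≤ V := hV0.trans hV
  have hlV : 1 ≤ Real.log V := by
    rw [Real.le_log_iff_exp_le (by linarith)]
    linarith [Real.exp_one_lt_d9]
  set L := Real.log V with hL
  have h1 := h V hV L le_rfl (by linarith)
  set r := 1 / L with hr
  have hr0 : 0 < r := by positivity
  set O := (Zb V (2 * V)).filter (fun s => s.re ≠ 1 / 2) with hO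
  set X : ℝ → ℝ := fun t => ∑ s ∈ (Zb (V + 1) (2 * V - 1)).filter (fun s => |s.im - t| ≤ r), bw p L s
    with hX
  have hX0 : ∀ t, 0 ≤ X t := fun t => Finset.sum_nonneg fun s _ => bw_nonneg p L s
  have hbw : ∀ s, bw p L s ≤ D * (mz s * Real.exp (κ0 * |s.re - 1 / 2| * L)) := by
    intro s
    unfold bw
    have h2 := hDy ((s.re - 1 / 2) * L)
    have h3 : Real.exp (p * |(s.re - 1 / 2) * L|) ≤ Real.exp (κ0 / 2 * |(s.re - 1 / 2) * L|) :=
      Real.exp_le_exp.2 (mul_le_mul_of_nonneg_right hp (abs_nonneg _))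
    have h4 : ((s.re - 1 / 2) * L) ^ 2 * Real.exp (p * |(s.re - 1 / 2) * L|) ≤
        D * Real.exp (κ0 * |(s.re - 1 / 2) * L|) :=
      (mul_le_mul_of_nonneg_left h3 (sq_nonneg _)).trans h2
    have h5 : κ0 * |(s.re - 1 / 2) * L| = κ0 * |s.re - 1 / 2| * L := by
      rw [abs_mul, abs_of_pos (by linarith : 0 < L)]
      ring
    rw [h5] at h4
    have := mul_le_mul_of_nonneg_left h4 (mz_nonneg s)
    linarith
  have hXF : ∀ t, X t ≤ D * Fw κ0 V L t := by
    intro t
    unfold Fw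
    rw [Finset.mul_sum]
    refine (Finset.sum_le_sum fun s _ => hbw s).trans ?_
    refine Finset.sum_le_sum_of_subset_of_nonneg (fun s hs => ?_) fun s _ _ =>
      mul_nonneg hD.le (mul_nonneg (mz_nonneg s) (Real.exp_pos _).le)
    obtain ⟨h2, h3⟩ := Finset.mem_filter.1 hs
    rw [mem_Zb (by linarith)] at h2
    rw [Finset.mem_filter, mem_Zb (by linarith)]
    exact ⟨⟨h2.1, h2.2.1, by linarith [h2.2.2.1], by linarith [h2.2.2.2.1], h2.2.2.2.2⟩, h3⟩
  have hpt : ∀ t, ENNReal.ofReal (X t ^ 2) ≤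
      ENNReal.ofReal (θ * D ^ 4) * ENNReal.ofReal (Fw κ0 V L t ^ 4) +
      ∑ s ∈ O, {t : ℝ | |s.im - t| ≤ r}.indicator
        (fun _ => ENNReal.ofReal (1 / (4 * θ) * mz s)) t := by
    intro t
    rcases eq_or_ne (X t) 0 with h0 | h0
    · rw [h0, zero_pow (by norm_num), ENNReal.ofReal_zero]
      exact zero_le
    · obtain ⟨s, hs, hs0⟩ := Finset.exists_ne_zero_of_sum_ne_zero h0
      obtain ⟨h2, h3⟩ := Finset.mem_filter.1 hs
      rw [mem_Zb (by linarith)] at h2
      have hm : mz s ≠ 0 := by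
        intro h4
        apply hs0
        unfold bw
        rw [h4, zero_mul]
      have hre : s.re ≠ 1 / 2 := by
        intro h4
        apply hs0
        unfold bw
        rw [h4]
        simp
      have hsO : s ∈ O := by
        rw [hO, Finset.mem_filter, mem_Zb (by linarith)]
        exact ⟨⟨h2.1, h2.2.1, by linarith [h2.2.2.1], by linarith [h2.2.2.2.1], h2.2.2.2.2⟩, hre⟩
      have h5 : ENNReal.ofReal (1 / (4 * θ)) ≤ ∑ s ∈ O, {t : ℝ | |s.im - t| ≤ r}.indicator
          (fun _ => ENNReal.ofReal (1 / (4 * θ) * mz s)) t := by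
        refine le_trans ?_ (Finset.single_le_sum (f := fun s : ℂ => {t : ℝ | |s.im - t| ≤ r}.indicator
          (fun _ => ENNReal.ofReal (1 / (4 * θ) * mz s)) t) (fun _ _ => zero_le) hsO)
        show ENNReal.ofReal (1 / (4 * θ)) ≤ {t : ℝ | |s.im - t| ≤ r}.indicator
          (fun _ => ENNReal.ofReal (1 / (4 * θ) * mz s)) t
        rw [indicator_of_mem (show t ∈ {t : ℝ | |s.im - t| ≤ r} from h3)]
        apply ENNReal.ofReal_le_ofReal
        have := mz_one hm
        have h6 : 0 ≤ 1 / (4 * θ) := by positivity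
        nlinarith
      have h6 : X t ^ 2 ≤ θ * D ^ 4 * Fw κ0 V L t ^ 4 + 1 / (4 * θ) := by
        have h7 := amgm (x := X t) hθ
        have h8 := pow_le_pow_left₀ (hX0 t) (hXF t) 4
        rw [mul_pow] at h8
        have h9 := mul_le_mul_of_nonneg_left h8 hθ.le
        linarith
      have h10 : 0 ≤ Fw κ0 V L t ^ 4 := pow_nonneg (Fw_nonneg _ _ _ _) 4
      calc ENNReal.ofReal (X t ^ 2) ≤
            ENNReal.ofReal (θ * D ^ 4 * Fw κ0 V L t ^ 4 + 1 / (4 * θ)) :=
            ENNReal.ofReal_le_ofReal h6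
        _ = ENNReal.ofReal (θ * D ^ 4) * ENNReal.ofReal (Fw κ0 V L t ^ 4) +
              ENNReal.ofReal (1 / (4 * θ)) := by
            rw [ENNReal.ofReal_add (by positivity) (by positivity),
              ENNReal.ofReal_mul (by positivity)]
        _ ≤ _ := by gcongr
  have hms : ∀ s : ℂ, MeasurableSet {t : ℝ | |s.im - t| ≤ r} := fun s =>
    measurableSet_le (by fun_prop) measurable_const
  calc ∫⁻ t : ℝ, ENNReal.ofReal (X t ^ 2) ≤
        ∫⁻ t : ℝ, (ENNReal.ofReal (θ * D ^ 4) * ENNReal.ofReal (Fw κ0 V L t ^ 4) +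
      ∑ s ∈ O, {t : ℝ | |s.im - t| ≤ r}.indicator
        (fun _ => ENNReal.ofReal (1 / (4 * θ) * mz s)) t) := lintegral_mono hpt
    _ = (∫⁻ t : ℝ, ENNReal.ofReal (θ * D ^ 4) * ENNReal.ofReal (Fw κ0 V L t ^ 4)) +
        ∫⁻ t : ℝ, ∑ s ∈ O, {t : ℝ | |s.im - t| ≤ r}.indicator
        (fun _ => ENNReal.ofReal (1 / (4 * θ) * mz s)) t := by
        rw [lintegral_add_right]
        exact Finset.measurable_fun_sum _ fun s _ => measurable_const.indicator (hms s)
    _ ≤ ENNReal.ofReal (θ * D ^ 4) * ENNReal.ofReal (C * V) +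
        ∑ s ∈ O, ENNReal.ofReal (1 / (4 * θ) * mz s) * ENNReal.ofReal (2 * r) := by
        refine add_le_add ?_ ?_
        · rw [lintegral_const_mul' _ _ ENNReal.ofReal_ne_top]
          gcongr
        · rw [lintegral_finsetSum _ fun s _ => measurable_const.indicator (hms s)]
          refine Finset.sum_le_sum fun s _ => ?_
          rw [lintegral_indicator_const (hms s)]
          gcongr
          have : {t : ℝ | |s.im - t| ≤ r} ⊆ Icc (s.im - r) (s.im + r) := by
            intro t (ht : |s.im - t| ≤ r)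
            obtain ⟨h2, h3⟩ := abs_le.1 ht
            exact ⟨by linarith, by linarith⟩
          refine (measure_mono this).trans ?_
          rw [Real.volume_Icc]
          apply ENNReal.ofReal_le_ofReal
          linarith
    _ = ENNReal.ofReal (θ * (D ^ 4 * C * V) + Nof V (2 * V) / (2 * θ * L)) := by
        have h2 : ∀ s ∈ O, ENNReal.ofReal (1 / (4 * θ) * mz s) * ENNReal.ofReal (2 * r) =
            ENNReal.ofReal (1 / (4 * θ) * mz s * (2 * r)) := fun s _ =>
          (ENNReal.ofReal_mul (mul_nonneg (by positivity) (mz_nonneg s))).symm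
        rw [Finset.sum_congr rfl h2, ← ENNReal.ofReal_sum_of_nonneg fun s _ =>
          mul_nonneg (mul_nonneg (by positivity) (mz_nonneg s)) (by positivity),
          ← ENNReal.ofReal_mul (by positivity), ← ENNReal.ofReal_add (by positivity)
          (Finset.sum_nonneg fun s _ =>
            mul_nonneg (mul_nonneg (by positivity) (mz_nonneg s)) (by positivity))]
        congr 1
        have h3 : ∑ s ∈ O, 1 / (4 * θ) * mz s * (2 * r) = Nof V (2 * V) / (2 * θ * L) := by
          rw [← Finset.sum_mul, ← Finset.mul_sum]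
          show 1 / (4 * θ) * Nof V (2 * V) * (2 * r) = _
          rw [hr]
          field_simp
          ring
        rw [h3]
        ring

end Pool.Agent.W2helper24.FP
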