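import Pool.Agent.Y750.OM.Pair
import Pool.Agent.Y750.OM.Cells
import Pool.Agent.Y750.OM.GSum
import Pool.Agent.Y750.OM.Sq
import Pool.Agent.W2helper24.FP.WinM
import Pool.Agent.W2helper24.FP.Ppu

set_option autoImplicit false

/-! # Pair sums over a dyadic block: the parts of the estimate -/

open Filter Topology Complex MeasureTheory Set
open scoped ENNReal Real

namespace Pool.Agent.W2helper24.FP

open H370 H370.A2 TH803TW Pool.Agent.Y744 Pool.Agent.Y750.OM

/-- the off-line part -/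
theorem jd_lint {g0 : ℝ → ℝ} (hg : ContDiff ℝ (⊤ : ℕ∞) g0) {rr : ℝ} (hrr : 0 < rr)
    (hs : ∀ β, rr < |β| → g0 β = 0) : ∃ C : ℝ, 0 < C ∧ ∀ δ L : ℝ, 0 < δ → δ ≤ 1 → 1 ≤ δ * L →
    ∀ A B : ℝ, 1 ≤ A → ∀ M : ℝ, 0 ≤ M →
    (∫⁻ t : ℝ, ENNReal.ofReal ((∑ s ∈ (Zb A B).filter (fun s => |s.im - t| ≤ 1 / L),
      bw (rr * δ) L s) ^ 2) ≤ ENNReal.ofReal M) →
    ∀ ψ : ℝ → ℝ, (∀ α, |ψ α| ≤ g0 (α / δ) ^ 2) →
    ∫⁻ α : ℝ, ENNReal.ofReal (|ψ α| * JD (Zb A B) mz L α) ≤
      ENNReal.ofReal (C * δ ^ 4 * (L * M)) := by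
  obtain ⟨C, hC, h⟩ := planch hg hrr hs
  refine ⟨C * (2 * (9 * π)), by positivity, fun δ L hδ hδ1 hδL A B hA M hM hmom ψ hψ => ?_⟩
  have hL : 0 < L := by
    by_contra hcon
    push Not at hcon
    nlinarith
  have hS : ∀ s ∈ Zb A B, |s.re - 1 / 2| ≤ 1 / 2 := by
    intro s hs
    rw [mem_Zb hA] at hs
    exact abs_le.2 ⟨by linarith [hs.1], by linarith [hs.2.1]⟩
  have h1 := h δ L hδ hδL (Zb A B) mz mz_nonneg hS
  have h2 := cell_moment 0 L δ hL hδ hδ1 (Zb A B) (bw (rr * δ) L) (bw_nonneg _ _) M hM hmom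
  have h3 : ∀ α, ENNReal.ofReal (|ψ α| * JD (Zb A B) mz L α) ≤
      ∫⁻ t : ℝ, ENNReal.ofReal (‖(g0 (α / δ) : ℂ) * DD (Zb A B) mz L α t‖ ^ 2) := by
    intro α
    have hi : Integrable (fun t : ℝ => ‖DD (Zb A B) mz L α t‖ ^ 2) := DD_int (B := B) hA L α
    have e1 : ENNReal.ofReal (g0 (α / δ) ^ 2 * JD (Zb A B) mz L α) =
        ∫⁻ t, ENNReal.ofReal (‖(g0 (α / δ) : ℂ) * DD (Zb A B) mz L α t‖ ^ 2) := by
      unfold JD
      rw [← integral_const_mul, ofReal_integral_eq_lintegral_ofReal (hi.const_mul _)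
        (Eventually.of_forall fun t => by
          show 0 ≤ g0 (α / δ) ^ 2 * ‖DD (Zb A B) mz L α t‖ ^ 2
          positivity)]
      refine lintegral_congr fun t => ?_
      rw [norm_mul, Complex.norm_real, mul_pow, Real.norm_eq_abs, sq_abs]
    rw [← e1]
    apply ENNReal.ofReal_le_ofReal
    exact mul_le_mul_of_nonneg_right (hψ α) (JD_nonneg _ _ _ _)
  refine (lintegral_mono h3).trans (h1.trans (ENNReal.ofReal_le_ofReal ?_))
  have e2 : δ * ∑ s ∈ Zb A B, ∑ s' ∈ Zb A B, (mz s * (((s.re - 1 / 2) * L) ^ 2 *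
        Real.exp (rr * δ * |(s.re - 1 / 2) * L|))) * (mz s' * (((s'.re - 1 / 2) * L) ^ 2 *
        Real.exp (rr * δ * |(s'.re - 1 / 2) * L|))) *
        (1 / (1 + (δ * (L * (s.im - s'.im))) ^ 2)) =
      ∑ s ∈ Zb A B, bw (rr * δ) L s * (δ * ∑ s' ∈ Zb A B, bw (rr * δ) L s' *
        (1 / (1 + (δ * (L * (s.im - s'.im))) ^ 2))) ^ (0 + 1) := by
    rw [Finset.mul_sum]
    refine Finset.sum_congr rfl fun s _ => ?_
    rw [zero_add, pow_one, Finset.mul_sum, Finset.mul_sum, Finset.mul_sum]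
    refine Finset.sum_congr rfl fun s' _ => ?_
    unfold bw
    ring
  rw [← e2, zero_add, pow_one] at h2
  have h4 : C * δ ^ 4 * (δ * ∑ s ∈ Zb A B, ∑ s' ∈ Zb A B, (mz s * (((s.re - 1 / 2) * L) ^ 2 *
        Real.exp (rr * δ * |(s.re - 1 / 2) * L|))) * (mz s' * (((s'.re - 1 / 2) * L) ^ 2 *
        Real.exp (rr * δ * |(s'.re - 1 / 2) * L|))) *
        (1 / (1 + (δ * (L * (s.im - s'.im))) ^ 2))) ≤ C * δ ^ 4 * (2 * (9 * π) * (L * M)) :=
    mul_le_mul_of_nonneg_left h2 (by positivity)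
  refine le_trans (le_of_eq ?_) (h4.trans (le_of_eq ?_))
  · ring
  · ring

/-- comparison of the two mean squares -/
theorem cmp_int {A B : ℝ} (hA : 1 ≤ A) {L c μ : ℝ} (hc : 0 < c) (hμ : 0 < μ) {ψ : ℝ → ℝ}
    (hψ : Continuous ψ) {K : ℝ} (hK : 0 ≤ K)
    (h : ∫⁻ α : ℝ, ENNReal.ofReal (|ψ α| * JD (Zb A B) mz L α) ≤ ENNReal.ofReal K) :
    |∫ α in (-μ)..μ, ψ α * (JJ riemannZeta A B (α * L) - JB (Zb A B) mz (α * L))| ≤
      c * (∫ α in (-μ)..μ, |ψ α| * JJ riemannZeta A B (α * L)) + (1 + 1 / c) * K := by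
  have hJJ : Continuous fun α : ℝ => JJ riemannZeta A B (α * L) :=
    (JJ_cont good_zeta (U2 := B) hA).comp (by fun_prop)
  have hJB : Continuous fun α : ℝ => JB (Zb A B) mz (α * L) :=
    (JB_cont (Zb A B) mz).comp (by fun_prop)
  have hJJ0 : ∀ u, 0 ≤ JJ riemannZeta A B u := fun u => integral_nonneg fun t => by positivity
  have hle : -μ ≤ μ := by linarith
  have h1 : |∫ α in (-μ)..μ, ψ α * (JJ riemannZeta A B (α * L) - JB (Zb A B) mz (α * L))| ≤
      ∫ α in (-μ)..μ, |ψ α * (JJ riemannZeta A B (α * L) - JB (Zb A B) mz (α * L))| :=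
    intervalIntegral.abs_integral_le_integral_abs hle
  refine h1.trans ?_
  have i1 : IntegrableOn (fun α => |ψ α * (JJ riemannZeta A B (α * L) -
      JB (Zb A B) mz (α * L))|) (Ioc (-μ) μ) :=
    (((hψ.mul (hJJ.sub hJB)).abs).integrableOn_Icc).mono_set Ioc_subset_Icc_self
  have i2 : IntegrableOn (fun α => c * (|ψ α| * JJ riemannZeta A B (α * L))) (Ioc (-μ) μ) :=
    ((continuous_const.mul ((hψ.abs).mul hJJ)).integrableOn_Icc).mono_set Ioc_subset_Icc_self
  have hI0 : 0 ≤ ∫ α in (-μ)..μ, |ψ α| * JJ riemannZeta A B (α * L) :=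
    intervalIntegral.integral_nonneg hle fun α _ => mul_nonneg (abs_nonneg _) (hJJ0 _)
  rw [intervalIntegral.integral_of_le hle]
  have key : ENNReal.ofReal (∫ α in Ioc (-μ) μ, |ψ α * (JJ riemannZeta A B (α * L) -
      JB (Zb A B) mz (α * L))|) ≤ ENNReal.ofReal (c * (∫ α in (-μ)..μ, |ψ α| *
        JJ riemannZeta A B (α * L)) + (1 + 1 / c) * K) := by
    rw [ofReal_integral_eq_lintegral_ofReal i1 (Eventually.of_forall fun α => abs_nonneg _)]
    have hpt : ∀ α, ENNReal.ofReal |ψ α * (JJ riemannZeta A B (α * L) -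
        JB (Zb A B) mz (α * L))| ≤ ENNReal.ofReal (c * (|ψ α| * JJ riemannZeta A B (α * L))) +
        ENNReal.ofReal (1 + 1 / c) * ENNReal.ofReal (|ψ α| * JD (Zb A B) mz L α) := by
      intro α
      have h2 : |JJ riemannZeta A B (α * L) - JB (Zb A B) mz (α * L)| ≤
          c * JJ riemannZeta A B (α * L) + (1 + 1 / c) * JD (Zb A B) mz L α :=
        diff_le hA L α c hc
      have hJD := JD_nonneg (Zb A B) mz L α
      rw [← ENNReal.ofReal_mul (by positivity), ← ENNReal.ofReal_add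
        (mul_nonneg hc.le (mul_nonneg (abs_nonneg _) (hJJ0 _)))
        (mul_nonneg (by positivity) (mul_nonneg (abs_nonneg _) hJD))]
      apply ENNReal.ofReal_le_ofReal
      rw [abs_mul]
      refine (mul_le_mul_of_nonneg_left h2 (abs_nonneg _)).trans (le_of_eq ?_)
      ring
    calc ∫⁻ α in Ioc (-μ) μ, ENNReal.ofReal |ψ α * (JJ riemannZeta A B (α * L) -
          JB (Zb A B) mz (α * L))| ≤
          ∫⁻ α in Ioc (-μ) μ, (ENNReal.ofReal (c * (|ψ α| * JJ riemannZeta A B (α * L))) +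
            ENNReal.ofReal (1 + 1 / c) * ENNReal.ofReal (|ψ α| * JD (Zb A B) mz L α)) :=
          lintegral_mono hpt
      _ = (∫⁻ α in Ioc (-μ) μ, ENNReal.ofReal (c * (|ψ α| * JJ riemannZeta A B (α * L)))) +
            ∫⁻ α in Ioc (-μ) μ, ENNReal.ofReal (1 + 1 / c) *
              ENNReal.ofReal (|ψ α| * JD (Zb A B) mz L α) :=
          lintegral_add_left (by
            exact (continuous_const.mul ((hψ.abs).mul hJJ)).measurable.ennreal_ofReal) _
      _ ≤ ENNReal.ofReal (c * ∫ α in (-μ)..μ, |ψ α| * JJ riemannZeta A B (α * L)) +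
            ENNReal.ofReal (1 + 1 / c) * ENNReal.ofReal K := by
          refine add_le_add (le_of_eq ?_) ?_
          · rw [← ofReal_integral_eq_lintegral_ofReal i2 (Eventually.of_forall fun α =>
              mul_nonneg hc.le (mul_nonneg (abs_nonneg _) (hJJ0 _))), integral_const_mul,
              intervalIntegral.integral_of_le hle]
          · rw [lintegral_const_mul' _ _ ENNReal.ofReal_ne_top]
            gcongr
            exact (setLIntegral_le_lintegral _ _).trans h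
      _ = _ := by
          rw [← ENNReal.ofReal_mul (by positivity), ← ENNReal.ofReal_add
            (mul_nonneg hc.le hI0) (by positivity)]
  rwa [ENNReal.ofReal_le_ofReal_iff (by positivity)] at key

/-- the pair sum of the ordinates as an integral -/
theorem jb_int (S : Finset ℂ) {L μ : ℝ} (hμ : 0 < μ) {ψ : ℝ → ℝ} (hψ : Continuous ψ)
    (hz : ∀ x, μ ≤ |x| → ψ x = 0) :
    (∫ α in (-μ)..μ, ψ α * JB S mz (α * L)) / Real.sqrt Real.pi =
      ∑ s ∈ S, ∑ s' ∈ S, mz s * mz s' * (Real.exp (-(s.im - s'.im) ^ 2 / 4) *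
        ct ψ ((s.im - s'.im) * L / (2 * π))) := by
  have hpi := Real.pi_pos
  have e1 : ∀ d : ℝ, ∫ α in (-μ)..μ, ψ α * Real.cos (α * L * d) = ct ψ (d * L / (2 * π)) := by
    intro d
    unfold ct
    rw [← intervalIntegral.integral_eq_integral_of_support_subset (a := -μ) (b := μ)]
    · refine intervalIntegral.integral_congr fun α _ => ?_
      show ψ α * Real.cos (α * L * d) = ψ α * Real.cos (2 * π * (d * L / (2 * π)) * α)
      congr 2
      field_simp
    · intro α hα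
      rw [Function.mem_support] at hα
      have h1 : |α| < μ := by
        by_contra hcon
        push Not at hcon
        exact hα (by rw [hz α hcon, zero_mul])
      obtain ⟨h2, h3⟩ := abs_lt.1 h1
      exact ⟨h2, h3.le⟩
  have e2 : ∀ α, ψ α * JB S mz (α * L) = Real.sqrt Real.pi * ∑ s ∈ S, ∑ s' ∈ S,
      mz s * mz s' * Real.exp (-(s.im - s'.im) ^ 2 / 4) *
        (ψ α * Real.cos (α * L * (s.im - s'.im))) := by
    intro α
    rw [JB_eq, mul_left_comm, Finset.mul_sum]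
    congr 1
    refine Finset.sum_congr rfl fun s _ => ?_
    rw [Finset.mul_sum]
    refine Finset.sum_congr rfl fun s' _ => ?_
    ring
  simp_rw [e2]
  have hc : ∀ d : ℝ, Continuous fun α : ℝ => ψ α * Real.cos (α * L * d) := fun d => by fun_prop
  rw [intervalIntegral.integral_const_mul, mul_div_assoc, mul_comm, div_mul_cancel₀ _
    (Real.sqrt_pos.2 hpi).ne', intervalIntegral.integral_finsetSum]
  · refine Finset.sum_congr rfl fun s _ => ?_
    rw [intervalIntegral.integral_finsetSum]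
    · refine Finset.sum_congr rfl fun s' _ => ?_
      rw [intervalIntegral.integral_const_mul, e1]
      ring
    · exact fun s' _ => (continuous_const.mul (hc _)).intervalIntegrable _ _
  · exact fun s _ => (continuous_finsetSum _ fun s' _ =>
      continuous_const.mul (hc _)).intervalIntegrable _ _

/-- removing the Gaussian factor -/
theorem gauss_rm (S : Finset ℂ) {f : ℝ → ℝ} {D : ℝ} (hD : 0 ≤ D)
    (hf : ∀ y, |f y| ≤ D / (1 + y ^ 2) ^ 2) {L : ℝ} (hL : 0 < L) :
    |(∑ s ∈ S, ∑ s' ∈ S, mz s * mz s' * (Real.exp (-(s.im - s'.im) ^ 2 / 4) *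
        f ((s.im - s'.im) * L / (2 * π)))) - QS S S mz (fun s => s.im) f L| ≤
      3200 * (π ^ 2 * D / L ^ 2) * PP1 S mz (fun s => s.im) L := by
  have hpi := Real.pi_pos
  have hK : 0 ≤ π ^ 2 * D / L ^ 2 := by positivity
  have h1 := QS_abs_bound (x := fun s : ℂ => s.im) S S mz_nonneg
    (f := fun y => π ^ 2 * D / L ^ 2 / (1 + y ^ 2)) (K := π ^ 2 * D / L ^ 2)
    (fun y => by rw [abs_of_nonneg (by positivity)]) hL one_pos
  have e : (∑ s ∈ S, ∑ s' ∈ S, mz s * mz s' * (Real.exp (-(s.im - s'.im) ^ 2 / 4) *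
        f ((s.im - s'.im) * L / (2 * π)))) - QS S S mz (fun s => s.im) f L =
      ∑ s ∈ S, ∑ s' ∈ S, mz s * mz s' * ((Real.exp (-(s.im - s'.im) ^ 2 / 4) - 1) *
        f ((s.im - s'.im) * L / (2 * π))) := by
    unfold QS
    rw [← Finset.sum_sub_distrib]
    refine Finset.sum_congr rfl fun s _ => ?_
    rw [← Finset.sum_sub_distrib]
    refine Finset.sum_congr rfl fun s' _ => ?_
    ring
  rw [e]
  refine le_trans ?_ (h1.trans (le_of_eq (by ring)))
  refine (Finset.abs_sum_le_sum_abs _ _).trans (Finset.sum_le_sum fun s _ =>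
    (Finset.abs_sum_le_sum_abs _ _).trans (Finset.sum_le_sum fun s' _ => ?_))
  rw [abs_mul, abs_of_nonneg (mul_nonneg (mz_nonneg s) (mz_nonneg s'))]
  refine mul_le_mul_of_nonneg_left ?_ (mul_nonneg (mz_nonneg s) (mz_nonneg s'))
  rw [abs_of_nonneg (show 0 ≤ π ^ 2 * D / L ^ 2 / (1 + ((s.im - s'.im) * L / (2 * π)) ^ 2) by
    positivity), abs_mul]
  set d := s.im - s'.im with hd
  set x := d * L / (2 * π) with hx
  have hdx : d ^ 2 / 4 = π ^ 2 * x ^ 2 / L ^ 2 := by
    rw [hx]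
    field_simp
    ring
  have h2 : |Real.exp (-d ^ 2 / 4) - 1| ≤ d ^ 2 / 4 := by
    have h3 : Real.exp (-d ^ 2 / 4) ≤ 1 := Real.exp_le_one_iff.2 (by
      have := sq_nonneg d
      linarith)
    have h4 := Real.add_one_le_exp (-d ^ 2 / 4)
    rw [abs_of_nonpos (by linarith)]
    linarith
  calc |Real.exp (-d ^ 2 / 4) - 1| * |f x| ≤ d ^ 2 / 4 * (D / (1 + x ^ 2) ^ 2) :=
        mul_le_mul h2 (hf x) (abs_nonneg _) (by positivity)
    _ = π ^ 2 * D / L ^ 2 * (x ^ 2 / (1 + x ^ 2) ^ 2) := by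
        rw [hdx]
        ring
    _ ≤ π ^ 2 * D / L ^ 2 * (1 / (1 + x ^ 2)) := by
        refine mul_le_mul_of_nonneg_left ?_ hK
        rw [div_le_div_iff₀ (by positivity) (by positivity)]
        nlinarith [sq_nonneg x, sq_nonneg (x ^ 2)]
    _ = _ := by ring

/-- removing the edges of the block -/
theorem edge_sm {f : ℝ → ℝ} (hfe : ∀ x, f (-x) = f x) {K : ℝ} (hK : 0 ≤ K)
    (hf : ∀ y, |f y| ≤ K / (1 + y ^ 2)) {η : ℝ} (hη : 0 < η) :
    ∃ V1 : ℝ, 20 ≤ V1 ∧ ∀ V : ℝ, V1 ≤ V →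
      |QS (Zb V (2 * V)) (Zb V (2 * V)) mz (fun s => s.im) f (Real.log V) -
        QS (Zb (V + 1) (2 * V - 1)) (Zb (V + 1) (2 * V - 1)) mz (fun s => s.im) f
          (Real.log V)| ≤ η * (V * Real.log V) := by
  classical
  obtain ⟨C, B0, V0, hC, hB0, hV0, hblk, hloc⟩ := PP_bnd
  obtain ⟨V2, hV2, hnear⟩ := near_bound
  obtain ⟨lam, hlamd⟩ : ∃ lam : ℝ, lam = η / (2 * (3200 * (K + 1) * (C + 1))) := ⟨_, rfl⟩
  have hlam : 0 < lam := by rw [hlamd]; positivity
  obtain ⟨W, hWd⟩ : ∃ W : ℝ, W = 3200 * K * 3 + 3200 * K * (3 / lam) := ⟨_, rfl⟩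
  have hW : 0 ≤ W := by rw [hWd]; positivity
  have ev1 : ∀ᶠ V : ℝ in atTop, W * 2 / η ≤ Real.log V :=
    Real.tendsto_log_atTop.eventually_ge_atTop _
  obtain ⟨V3, hV3⟩ := ev1.exists_forall_of_atTop
  refine ⟨max (max V0 V2) V3, hV0.trans ((le_max_left _ _).trans (le_max_left _ _)),
    fun V hV => ?_⟩
  have hVV0 : V0 ≤ V := ((le_max_left _ _).trans (le_max_left _ _)).trans hV
  have hVV2 : V2 ≤ V := ((le_max_right _ _).trans (le_max_left _ _)).trans hV
  have e1 := hV3 V ((le_max_right _ _).trans hV)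
  have hV20 : 20 ≤ V := hV0.trans hVV0
  have hlV1 : 1 ≤ Real.log V := by
    rw [Real.le_log_iff_exp_le (by linarith)]
    linarith [Real.exp_one_lt_d9]
  set L := Real.log V with hL
  set S := Zb V (2 * V) with hS
  set S' := Zb (V + 1) (2 * V - 1) with hS'
  have hsub : S' ⊆ S := by
    intro s hs
    rw [hS', mem_Zb (by linarith)] at hs
    rw [hS, mem_Zb (by linarith)]
    exact ⟨hs.1, hs.2.1, by linarith [hs.2.2.1], by linarith [hs.2.2.2.1], hs.2.2.2.2⟩
  set E := S \ S' with hE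
  have hun : S = S' ∪ E := by rw [hE, Finset.union_sdiff_of_subset hsub]
  have hdis : Disjoint S' E := Finset.disjoint_sdiff
  have hsp := split_pairs hun hdis
    (fun s s' : ℂ => mz s * mz s' * f ((s.im - s'.im) * L / (2 * Real.pi))) (fun s s' => by
      show mz s * mz s' * f ((s.im - s'.im) * L / (2 * Real.pi)) =
        mz s' * mz s * f ((s'.im - s.im) * L / (2 * Real.pi))
      rw [← hfe, mul_comm (mz s)]
      congr 2
      ring)
  have hdiff : QS S S mz (fun s => s.im) f L - QS S' S' mz (fun s => s.im) f L =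
      QS E E mz (fun s => s.im) f L + 2 * QS S' E mz (fun s => s.im) f L := by
    unfold QS
    linarith
  have hEsum : (∑ s ∈ E, mz s) ^ 2 ≤ 3 * V := by
    have h1 := hnear V hVV2
    have h2 := hnear (2 * V) (by linarith)
    have h3 : ∑ s ∈ E, mz s ≤ ∑ s ∈ Zb (V - 1) (V - 1 + 3), mz s +
        ∑ s ∈ Zb (2 * V - 1) (2 * V - 1 + 3), mz s := by
      have h4 : E ⊆ Zb (V - 1) (V - 1 + 3) ∪ Zb (2 * V - 1) (2 * V - 1 + 3) := by
        intro s hs
        rw [hE, Finset.mem_sdiff, hS, hS', mem_Zb (by linarith), mem_Zb (by linarith)] at hs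
        obtain ⟨⟨a1, a2, a3, a4, a5⟩, hn⟩ := hs
        rw [Finset.mem_union, mem_Zb (by linarith), mem_Zb (by linarith)]
        rcases le_or_gt s.im (V + 1) with h | h
        · exact Or.inl ⟨a1, a2, by linarith, by linarith, a5⟩
        · rcases le_or_gt s.im (2 * V - 1) with h' | h'
          · exact absurd ⟨a1, a2, h, h', a5⟩ hn
          · exact Or.inr ⟨a1, a2, by linarith, by linarith, a5⟩
      refine (Finset.sum_le_sum_of_subset_of_nonneg h4 fun s _ _ => mz_nonneg s).trans ?_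
      have := Finset.sum_union_inter (s₁ := Zb (V - 1) (V - 1 + 3))
        (s₂ := Zb (2 * V - 1) (2 * V - 1 + 3)) (f := mz)
      have h5 : 0 ≤ ∑ s ∈ Zb (V - 1) (V - 1 + 3) ∩ Zb (2 * V - 1) (2 * V - 1 + 3), mz s :=
        Finset.sum_nonneg fun s _ => mz_nonneg s
      linarith
    have h0 : 0 ≤ ∑ s ∈ E, mz s := Finset.sum_nonneg fun s _ => mz_nonneg s
    have h4 := pow_le_pow_left₀ h0 h3 2
    nlinarith [sq_nonneg (∑ s ∈ Zb (V - 1) (V - 1 + 3), mz s -
      ∑ s ∈ Zb (2 * V - 1) (2 * V - 1 + 3), mz s)]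
  have hPE : PP1 E mz (fun s => s.im) L ≤ 3 * V :=
    (PP1_le_sq E mz_nonneg (x := fun s : ℂ => s.im) L).trans hEsum
  have hPS' : PP1 S' mz (fun s => s.im) L ≤ C * (V * L) :=
    (PP1_mono hsub mz_nonneg L).trans (hblk V hVV0)
  have n1 := (QS_le_abs (x := fun s : ℂ => s.im) E E mz_nonneg f L).trans
    (QS_abs_bound (x := fun s : ℂ => s.im) E E mz_nonneg hf (by linarith) one_pos)
  have n2 := (QS_le_abs (x := fun s : ℂ => s.im) S' E mz_nonneg f L).trans
    (QS_abs_bound (x := fun s : ℂ => s.im) S' E mz_nonneg hf (lam := lam) (by linarith) hlam)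
  have hVL : V ≤ V * L := by nlinarith
  rw [hdiff]
  have b1 : |QS E E mz (fun s => s.im) f L| ≤ 3200 * K * (3 * V) := by
    refine n1.trans ?_
    have : (1 : ℝ) * PP1 E mz (fun s => s.im) L + 1 / 1 * PP1 E mz (fun s => s.im) L ≤
        2 * (3 * V) := by
      rw [one_mul, div_one, one_mul]
      linarith
    have h5 := mul_le_mul_of_nonneg_left this (show (0 : ℝ) ≤ 1600 * K by positivity)
    linarith
  have b2 : |QS S' E mz (fun s => s.im) f L| ≤
      1600 * K * (lam * (C * (V * L)) + 1 / lam * (3 * V)) := by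
    refine n2.trans ?_
    have h6 : 0 ≤ 1 / lam := by positivity
    gcongr
  have b3 : 3200 * K * (lam * (C * (V * L))) ≤ η / 2 * (V * L) := by
    have h7 : 3200 * K * (lam * (C * (V * L))) = (3200 * K * C * lam) * (V * L) := by ring
    rw [h7]
    refine mul_le_mul_of_nonneg_right ?_ (by positivity)
    rw [hlamd, mul_div_assoc', div_le_iff₀ (by positivity)]
    have h8 : K * C ≤ (K + 1) * (C + 1) := by nlinarith
    have h9 : 3200 * K * C * η ≤ 3200 * ((K + 1) * (C + 1)) * η := by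
      have := mul_le_mul_of_nonneg_right h8 hη.le
      nlinarith
    linarith
  have b4 : W * V ≤ η / 2 * (V * L) := by
    rw [div_le_iff₀ hη] at e1
    have : W * 2 * V ≤ L * η * V := mul_le_mul_of_nonneg_right e1 (by linarith)
    linarith
  have b5 : W * V = 3200 * K * (3 * V) + 3200 * K * (1 / lam * (3 * V)) := by
    rw [hWd]
    ring
  calc |QS E E mz (fun s => s.im) f L + 2 * QS S' E mz (fun s => s.im) f L| ≤
        |QS E E mz (fun s => s.im) f L| + |2 * QS S' E mz (fun s => s.im) f L| := abs_add_le _ _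
    _ = |QS E E mz (fun s => s.im) f L| + 2 * |QS S' E mz (fun s => s.im) f L| := by
        rw [abs_mul, abs_of_pos (by norm_num : (0 : ℝ) < 2)]
    _ ≤ η * (V * L) := by
        linarith

end Pool.Agent.W2helper24.FP
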