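import Pool.Agent.Y744.PCR.Test

set_option autoImplicit false

/-! # The profile whose cosine transform has derivative `-u · ct K u` -/

open Filter Topology MeasureTheory Set Real
open scoped ENNReal ContDiff FourierTransform

namespace Pool.Agent.W2helper24.FP

open Pool.Agent.Y744

/-- `- K'(α) / (4 π² α)` -/
noncomputable def Hd (K : ℝ → ℝ) (α : ℝ) : ℝ :=
  -(1 / (4 * π ^ 2)) * ∫ t in (0 : ℝ)..1, deriv (deriv K) (t * α)

variable {κ : ℝ} {K : ℝ → ℝ}

lemma dK_zero (h : TK κ K) : deriv K 0 = 0 := by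
  have h1 : (fun x => K (-x)) = K := funext h.even
  have h3 := deriv_comp_neg K 0
  rw [h1, neg_zero] at h3
  linarith

lemma ddK_cont (h : TK κ K) : Continuous (deriv (deriv K)) :=
  (TK.deriv_smooth (TK.deriv_smooth h.smooth)).continuous

lemma hd_mul (h : TK κ K) (α : ℝ) : α * Hd K α = -(deriv K α) / (4 * π ^ 2) := by
  have hs1 := TK.deriv_smooth h.smooth
  have hd2 : Differentiable ℝ (deriv K) := hs1.differentiable (by simp)
  have hc := ddK_cont h
  have h1 : ∀ t ∈ uIcc (0 : ℝ) 1, HasDerivAt (fun t => deriv K (t * α))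
      (deriv (deriv K) (t * α) * α) t := by
    intro t _
    have h2 : HasDerivAt (fun t : ℝ => t * α) α t := by
      simpa using (hasDerivAt_id t).mul_const α
    exact (hd2 (t * α)).hasDerivAt.comp t h2
  have h2 := intervalIntegral.integral_eq_sub_of_hasDerivAt h1
    ((by fun_prop : Continuous fun t : ℝ => deriv (deriv K) (t * α) * α).intervalIntegrable _ _)
  rw [intervalIntegral.integral_mul_const, one_mul, zero_mul, dK_zero h, sub_zero] at h2
  unfold Hd
  rw [← h2]
  ring

lemma ddK_lip (h : TK κ K) : ∃ C : ℝ, 0 ≤ C ∧ ∀ x y,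
    |deriv (deriv K) x - deriv (deriv K) y| ≤ C * |x - y| := by
  have hs2 := TK.deriv_smooth (TK.deriv_smooth h.smooth)
  have hcs : HasCompactSupport (deriv (deriv K)) := h.hcs.deriv.deriv
  obtain ⟨C, hC⟩ := hs2.lipschitzWith_of_hasCompactSupport hcs (by simp)
  refine ⟨C, C.coe_nonneg, fun x y => ?_⟩
  have := hC.dist_le_mul x y
  rwa [Real.dist_eq, Real.dist_eq] at this

lemma hd_lip (h : TK κ K) : ∃ A : ℝ, 0 ≤ A ∧ ∀ x y, |Hd K x - Hd K y| ≤ A * |x - y| := by
  obtain ⟨C, hC, hl⟩ := ddK_lip h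
  have hc := ddK_cont h
  refine ⟨1 / (4 * π ^ 2) * C, by positivity, fun x y => ?_⟩
  have i1 : ∀ x : ℝ, IntervalIntegrable (fun t : ℝ => deriv (deriv K) (t * x)) volume 0 1 :=
    fun x => (by fun_prop : Continuous fun t : ℝ => deriv (deriv K) (t * x)).intervalIntegrable _ _
  have e : Hd K x - Hd K y = -(1 / (4 * π ^ 2)) * ∫ t in (0 : ℝ)..1,
      (deriv (deriv K) (t * x) - deriv (deriv K) (t * y)) := by
    unfold Hd
    rw [intervalIntegral.integral_sub (i1 x) (i1 y)]
    ring
  rw [e, abs_mul, abs_neg, abs_of_pos (by positivity : (0 : ℝ) < 1 / (4 * π ^ 2)), mul_assoc]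
  refine mul_le_mul_of_nonneg_left ?_ (by positivity)
  have h1 := intervalIntegral.norm_integral_le_of_norm_le_const (a := (0 : ℝ)) (b := 1)
    (f := fun t => deriv (deriv K) (t * x) - deriv (deriv K) (t * y)) (C := C * |x - y|) (by
      intro t ht
      rw [uIoc_of_le zero_le_one] at ht
      rw [Real.norm_eq_abs]
      refine (hl _ _).trans (mul_le_mul_of_nonneg_left ?_ hC)
      rw [← mul_sub, abs_mul, abs_of_pos ht.1]
      exact mul_le_of_le_one_left (abs_nonneg _) ht.2)
  rw [Real.norm_eq_abs] at h1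
  simpa using h1

lemma hd_supp (h : TK κ K) {κ' : ℝ} (hκ : κ < κ') (hκ' : 0 < κ') (x : ℝ) (hx : κ' ≤ |x|) :
    Hd K x = 0 := by
  have hx0 : x ≠ 0 := by
    intro h0
    rw [h0, abs_zero] at hx
    linarith
  have h1 := hd_mul h x
  rw [TK.deriv_supp h.supp x (hκ.trans_le hx), neg_zero, zero_div] at h1
  exact (mul_eq_zero.1 h1).resolve_left hx0

lemma hd_cont (h : TK κ K) : Continuous (Hd K) := by
  obtain ⟨A, hA, hl⟩ := hd_lip h
  have : LipschitzWith A.toNNReal (Hd K) := by
    refine LipschitzWith.of_dist_le_mul fun x y => ?_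
    rw [Real.dist_eq, Real.dist_eq, Real.coe_toNNReal _ hA]
    exact hl x y
  exact this.continuous

lemma hd_hcs (h : TK κ K) : HasCompactSupport (Hd K) := by
  refine HasCompactSupport.intro (isCompact_Icc (a := -(|κ| + 1)) (b := |κ| + 1)) fun x hx =>
    hd_supp h (κ' := |κ| + 1) (by linarith [le_abs_self κ]) (by positivity) x ?_
  by_contra hc
  exact hx (abs_le.1 (not_le.1 hc).le)

lemma dK_sin (h : TK κ K) (x : ℝ) :
    ∫ α, deriv K α * Real.sin (2 * π * x * α) = -(2 * π * x * ct K x) := by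
  have hd1 : Differentiable ℝ K := h.smooth.differentiable (by simp)
  have hs1 := TK.deriv_smooth h.smooth
  have hc1 : HasCompactSupport (deriv K) := h.hcs.deriv
  have hk1 : Continuous (deriv K) := hs1.continuous
  set c : ℝ := 2 * π * x with hc
  have i1 : ∀ f : ℝ → ℝ, Continuous f → Integrable (fun α => K α * f α) := fun f hf => h.mul_int hf
  have i2 : ∀ f : ℝ → ℝ, Continuous f → Integrable (fun α => deriv K α * f α) := fun f hf =>
    (hk1.mul hf).integrable_of_hasCompactSupport hc1.mul_right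
  have e1 : ∫ α, K α * (c * Real.cos (c * α)) = -∫ α, deriv K α * Real.sin (c * α) := by
    refine integral_mul_deriv_eq_deriv_mul_of_integrable (u := K)
      (v := fun α => Real.sin (c * α)) (fun α _ => (hd1 α).hasDerivAt) (fun α _ => ?_)
      (i1 _ (by fun_prop)) (i2 _ (by fun_prop)) (i1 _ (by fun_prop))
    have := ((hasDerivAt_id α).const_mul c).sin
    simp only [id, mul_one] at this
    rw [mul_comm c]
    exact this
  have e2 : c * ct K x = ∫ α, K α * (c * Real.cos (c * α)) := by
    unfold ct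
    rw [← integral_const_mul]
    refine integral_congr_ae (Eventually.of_forall fun α => ?_)
    show c * (K α * Real.cos (2 * π * x * α)) = K α * (c * Real.cos (c * α))
    ring
  rw [e2, e1, neg_neg]

lemma hd_der (h : TK κ K) (u : ℝ) : HasDerivAt (ct (Hd K)) (-(u * ct K u)) u := by
  have hc := hd_cont h
  have hcs := hd_hcs h
  have i0 : ∀ f : ℝ → ℝ, Continuous f → Integrable (fun α => Hd K α * f α) := fun f hf =>
    (hc.mul hf).integrable_of_hasCompactSupport hcs.mul_right
  have h1 := hasDerivAt_integral_of_dominated_loc_of_deriv_le (μ := volume) (x₀ := u)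
    (s := Set.univ) (F := fun x α => Hd K α * Real.cos (2 * π * x * α))
    (F' := fun x α => Hd K α * (-Real.sin (2 * π * x * α) * (2 * π * α)))
    (bound := fun α => |Hd K α * (2 * π * α)|) Filter.univ_mem
    (Eventually.of_forall fun x => (i0 _ (by fun_prop)).aestronglyMeasurable)
    (i0 _ (by fun_prop)) (i0 _ (by fun_prop)).aestronglyMeasurable
    (Eventually.of_forall fun α x _ => by
      rw [Real.norm_eq_abs, ← mul_assoc, mul_right_comm, abs_mul, abs_neg]
      exact mul_le_of_le_one_right (abs_nonneg _) (Real.abs_sin_le_one _))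
    (i0 _ (by fun_prop)).abs
    (Eventually.of_forall fun α x _ => by
      have h2 : HasDerivAt (fun x : ℝ => 2 * π * x * α) (2 * π * α) x := by
        have := ((hasDerivAt_id x).const_mul (2 * π)).mul_const α
        simpa using this
      exact h2.cos.const_mul _)
  have h3 := h1.2
  have e : ∫ α, Hd K α * (-Real.sin (2 * π * u * α) * (2 * π * α)) = -(u * ct K u) := by
    have e1 : ∀ α, Hd K α * (-Real.sin (2 * π * u * α) * (2 * π * α)) =
        1 / (2 * π) * (deriv K α * Real.sin (2 * π * u * α)) := by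
      intro α
      have h4 := hd_mul h α
      have hpi := Real.pi_pos
      calc Hd K α * (-Real.sin (2 * π * u * α) * (2 * π * α)) =
            -(2 * π) * (α * Hd K α) * Real.sin (2 * π * u * α) := by ring
        _ = _ := by
            rw [h4]
            field_simp
            ring
    simp_rw [e1]
    rw [integral_const_mul, dK_sin h]
    have hpi := Real.pi_pos
    field_simp
  rw [e] at h3
  exact h3

lemma hd_tendsto (h : TK κ K) : Tendsto (ct (Hd K)) atTop (𝓝 0) := by
  have h1 := Real.zero_at_infty_fourier (fun α => (Hd K α : ℂ))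
  have h2 : Tendsto (fun x : ℝ => (𝓕 (fun α => (Hd K α : ℂ)) x).re) atTop (𝓝 0) := by
    have h3 : Tendsto (𝓕 (fun α => (Hd K α : ℂ))) atTop (𝓝 0) :=
      h1.mono_left atTop_le_cocompact
    have h4 := (Complex.continuous_re.tendsto (0 : ℂ)).comp h3
    rw [Complex.zero_re] at h4
    exact h4
  refine h2.congr fun x => ?_
  rw [Real.fourier_real_eq_integral_exp_smul]
  have hc := hd_cont h
  have hi : Integrable fun v : ℝ => Complex.exp (((-2 * π * v * x : ℝ) : ℂ) * Complex.I) •
      ((Hd K v : ℝ) : ℂ) := by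
    refine Continuous.integrable_of_hasCompactSupport (by fun_prop) ?_
    refine HasCompactSupport.intro (isCompact_Icc (a := -(|κ| + 1)) (b := |κ| + 1)) fun y hy => ?_
    rw [hd_supp h (κ' := |κ| + 1) (by linarith [le_abs_self κ]) (by positivity) y (by
      by_contra hcon
      exact hy (abs_le.1 (not_le.1 hcon).le))]
    simp
  have e1 : (∫ v : ℝ, Complex.exp (((-2 * π * v * x : ℝ) : ℂ) * Complex.I) •
      ((Hd K v : ℝ) : ℂ)).re = ∫ v : ℝ, (Complex.exp (((-2 * π * v * x : ℝ) : ℂ) * Complex.I) •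
      ((Hd K v : ℝ) : ℂ)).re := by
    have := integral_re hi
    simpa using this.symm
  rw [e1]
  unfold ct
  refine integral_congr_ae (Eventually.of_forall fun v => ?_)
  show (Complex.exp (((-2 * π * v * x : ℝ) : ℂ) * Complex.I) • ((Hd K v : ℝ) : ℂ)).re =
    Hd K v * Real.cos (2 * π * x * v)
  rw [smul_eq_mul, mul_comm, Complex.re_ofReal_mul, Complex.exp_ofReal_mul_I_re]
  congr 1
  rw [← Real.cos_neg]
  congr 1
  ring

lemma hw_bound (h : TK κ K) : ∃ D : ℝ, 0 ≤ D ∧ ∀ y, |-(y * ct K y)| ≤ D / (1 + y ^ 2) ^ 2 := by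
  obtain ⟨D, hD0, hD⟩ := h.decay 3
  refine ⟨D, hD0, fun y => ?_⟩
  rw [abs_neg, abs_mul]
  have h1 : |y| ≤ 1 + y ^ 2 := by
    nlinarith [sq_abs y, sq_nonneg (|y| - 1), abs_nonneg y]
  calc |y| * |ct K y| ≤ (1 + y ^ 2) * (D / (1 + y ^ 2) ^ 3) :=
        mul_le_mul h1 (hD y) (abs_nonneg _) (by positivity)
    _ = D / (1 + y ^ 2) ^ 2 := by field_simp

lemma hd_dec (h : TK κ K) : ∃ D : ℝ, 0 ≤ D ∧ ∀ y, |ct (Hd K) y| ≤ D / (1 + y ^ 2) ^ 2 := by
  obtain ⟨D, hD0, hD⟩ := h.decay 3
  obtain ⟨D2, hD20, hD2⟩ := hw_bound h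
  have hwc : Continuous fun y => -(y * ct K y) := (continuous_id.mul h.ct_cont).neg
  have hwi : Integrable fun y => -(y * ct K y) := by
    refine (integrable_inv_one_add_sq.const_mul D2).mono' hwc.aestronglyMeasurable
      (Eventually.of_forall fun x => ?_)
    rw [Real.norm_eq_abs, ← div_eq_mul_inv]
    refine (hD2 x).trans (div_le_div_of_nonneg_left hD20 (by positivity) ?_)
    nlinarith [sq_nonneg x]
  have hpos : ∀ t, 0 ≤ t → |ct (Hd K) t| ≤ D / (1 + t ^ 2) ^ 2 := by
    intro t ht
    have h1 := integral_Ioi_of_hasDerivAt_of_tendsto' (a := t) (fun y _ => hd_der h y)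
      hwi.integrableOn (hd_tendsto h)
    rw [zero_sub] at h1
    have hG : ∀ y, HasDerivAt (fun y : ℝ => -(D / 4) * ((1 + y ^ 2) ^ 2)⁻¹)
        (D * y / (1 + y ^ 2) ^ 3) y := by
      intro y
      have a1 : HasDerivAt (fun y : ℝ => (1 + y ^ 2) ^ 2) (2 * (1 + y ^ 2) * (2 * y)) y := by
        have a2 : HasDerivAt (fun y : ℝ => 1 + y ^ 2) (2 * y) y := by
          simpa using (hasDerivAt_pow 2 y).const_add 1
        have a4 := a2.pow 2
        simp only [Nat.add_one_sub_one, pow_one, Nat.cast_ofNat] at a4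
        exact a4
      have a3 := (a1.inv (by positivity)).const_mul (-(D / 4))
      have e : -(D / 4) * (-(2 * (1 + y ^ 2) * (2 * y)) / ((1 + y ^ 2) ^ 2) ^ 2) =
          D * y / (1 + y ^ 2) ^ 3 := by
        field_simp
        ring
      rw [e] at a3
      exact a3
    have hGt : Tendsto (fun y : ℝ => -(D / 4) * ((1 + y ^ 2) ^ 2)⁻¹) atTop (𝓝 0) := by
      have a1 : Tendsto (fun y : ℝ => (1 + y ^ 2) ^ 2) atTop atTop := by
        refine tendsto_atTop_mono (f := fun y : ℝ => y) (fun y => ?_) tendsto_id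
        nlinarith [sq_nonneg (y - 1), sq_nonneg y, sq_nonneg (y ^ 2)]
      have a2 := (tendsto_inv_atTop_zero.comp a1).const_mul (-(D / 4))
      rw [mul_zero] at a2
      exact a2
    have hGi : IntegrableOn (fun y : ℝ => D * y / (1 + y ^ 2) ^ 3) (Ioi t) :=
      integrableOn_Ioi_deriv_of_nonneg' (fun y _ => hG y) (fun y hy => by
        have : 0 < y := lt_of_le_of_lt ht hy
        positivity) hGt
    have h2 := integral_Ioi_of_hasDerivAt_of_nonneg' (a := t) (fun y _ => hG y) (fun y hy => by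
        have : 0 < y := lt_of_le_of_lt ht hy
        positivity) hGt
    have h3 : |ct (Hd K) t| ≤ ∫ y in Ioi t, D * y / (1 + y ^ 2) ^ 3 := by
      have e : |ct (Hd K) t| = |∫ y in Ioi t, -(y * ct K y)| := by rw [h1, abs_neg]
      rw [e]
      refine (abs_integral_le_integral_abs).trans ?_
      refine setIntegral_mono_on hwi.abs.integrableOn hGi measurableSet_Ioi fun y hy => ?_
      have hy0 : 0 < y := lt_of_le_of_lt ht hy
      rw [abs_neg, abs_mul, abs_of_pos hy0]
      have := mul_le_mul_of_nonneg_left (hD y) hy0.le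
      refine this.trans (le_of_eq ?_)
      ring
    refine h3.trans ?_
    rw [h2]
    have : 0 ≤ D * ((1 + t ^ 2) ^ 2)⁻¹ := by positivity
    have e9 : D / (1 + t ^ 2) ^ 2 = D * ((1 + t ^ 2) ^ 2)⁻¹ := div_eq_mul_inv _ _
    rw [e9]
    linarith
  refine ⟨D, hD0, fun y => ?_⟩
  rcases le_total 0 y with hy | hy
  · exact hpos y hy
  · have := hpos (-y) (by linarith)
    rwa [TK.ct_neg, neg_sq] at this

end Pool.Agent.W2helper24.FP
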