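import Pool.Agent.W2helper24.FP.Lims
import Pool.Agent.W2helper24.FP.Hd

set_option autoImplicit false

/-! # A one-sided bound at large distances forces simple zeros on the line -/

open Filter Topology MeasureTheory Set
open scoped ENNReal Real

namespace Pool.Agent.W2helper24.FP

open Pool.Agent.Y744

theorem tst_hd {κ κ' : ℝ} {K : ℝ → ℝ} (hK : TK κ K) (hκ : κ < κ') (hκ' : 0 < κ') :
    Tst κ' (Hd K) (ct (Hd K)) (fun y => -(y * ct K y)) where
  lip := hd_lip hK
  supp := hd_supp hK hκ hκ'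
  eq := fun _ => rfl
  dec := hd_dec hK
  der := hd_der hK
  wc := (continuous_id.mul hK.ct_cont).neg
  wd := hw_bound hK

section

variable {u : Filter ℝ} {A' : ℝ → ℝ} {C0 κ : ℝ} {φ g w : ℝ → ℝ}

lemma Tst.prof1 (h : Tst 1 φ g w) : Prof φ g := by
  have := h.prof one_pos le_rfl
  simpa using this

/-- the estimate for narrow test functions, in the limit -/
theorem narrow [NeBot u] : ∃ κ1 : ℝ, 0 < κ1 ∧ κ1 < 1 ∧ ∀ φ g w : ℝ → ℝ, Tst 1 φ g w →
    ∃ C2 : ℝ, 0 ≤ C2 ∧ ∀ (A' : ℝ → ℝ) (C0 : ℝ), Lm u A' C0 → ∀ δ : ℝ, 0 < δ → δ ≤ κ1 →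
      |∫ y, (A' y - AG y) * (δ ^ 2 * w (δ * y))| ≤ C2 * δ ^ 2 := by
  obtain ⟨κ1, hκ0, hκ1, hall⟩ := mont_off
  refine ⟨κ1, hκ0, hκ1, fun φ g w ht => ?_⟩
  obtain ⟨C1, hC1, hm⟩ := hall φ g ht.prof1
  refine ⟨1 + 4 * C1, by positivity, fun A' C0 h δ hδ hδκ => ?_⟩
  have hδ1 : δ ≤ 1 := hδκ.trans hκ1.le
  have htd := ht.dil hδ hδ1
  have l1 := h.tst htd
  have h1 := hm δ (δ ^ 2) 1 (δ ^ 2) hδ hδκ (by positivity) (pow_le_one₀ hδ.le hδ1) one_pos
    (by positivity)
  have hb : |-(∫ y, A' y * (δ ^ 2 * w (δ * y))) - mn φ δ| ≤ (1 + 4 * C1) * δ ^ 2 := by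
    refine le_of_tendsto (l1.sub_const (mn φ δ)).abs ?_
    filter_upwards [h.top h1, h.top N_le, h.top (eventually_gt_atTop (1 : ℝ))] with T a1 a2 a3
    refine a1.trans ?_
    have hX := Xf_pos a3
    have a4 : NofT T / Xf T ≤ 2 := by
      rw [div_le_iff₀ hX]
      exact (NofT_le T).trans a2
    have a5 : δ ^ 4 / δ ^ 2 * 1 = δ ^ 2 := by
      field_simp
    have a6 : δ ^ 4 / (δ ^ 2 * 1) = δ ^ 2 := by
      field_simp
    rw [a5, a6]
    have a7 : C1 * δ ^ 2 * (NofT T / Xf T) ≤ C1 * δ ^ 2 * 2 :=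
      mul_le_mul_of_nonneg_left a4 (by positivity)
    linarith
  have hAG : ∫ y, AG y * (δ ^ 2 * w (δ * y)) = -mn φ δ := by
    rw [htd.AG_main (by linarith)]
    congr 1
    have := mn_prof htd (by linarith) (by linarith)
    rw [← this, mul_one]
    congr 1
    funext β
    show φ (δ * β / δ) = φ β
    rw [mul_div_cancel_left₀ _ hδ.ne']
  have i1 : Integrable fun y => A' y * (δ ^ 2 * w (δ * y)) :=
    poly_int htd h.mono.measurable h.bd
  have i2 : Integrable fun y => AG y * (δ ^ 2 * w (δ * y)) := poly_int htd AG_meas AG_bound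
  have e1 : ∫ y, (A' y - AG y) * (δ ^ 2 * w (δ * y)) =
      (∫ y, A' y * (δ ^ 2 * w (δ * y))) - ∫ y, AG y * (δ ^ 2 * w (δ * y)) := by
    rw [← integral_sub i1 i2]
    refine integral_congr_ae (Eventually.of_forall fun y => ?_)
    ring
  rw [e1, hAG, ← abs_neg]
  refine le_trans (le_of_eq ?_) hb
  congr 1
  ring

/-- **a one-sided bound at large distances determines the diagonal** -/
theorem one_of_low [NeBot u] (h : Lm u A' C0)
    (hlow : ∀ ε : ℝ, 0 < ε → ∃ Y : ℝ, ∀ y, Y ≤ y → A' 0 + 2 * gp y - ε ≤ A' y) : A' 0 = 1 := by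
  obtain ⟨κ1, hκ0, hκ1, hnar⟩ := narrow (u := u)
  obtain ⟨K, hK, hpos, h0, hle⟩ := exists_pos (κ := 1 / 2) (by norm_num)
  have ht := tst_hd hK (κ' := 1) (by norm_num) one_pos
  obtain ⟨C2, hC2, hδb⟩ := hnar _ _ _ ht
  refine le_antisymm ?_ h.one
  refine le_of_forall_pos_le_add fun ε hε => ?_
  obtain ⟨Y0, hY0⟩ := hlow ε hε
  obtain ⟨Y, hYd⟩ : ∃ Y : ℝ, Y = max Y0 1 := ⟨_, rfl⟩
  have hY1 : 1 ≤ Y := by rw [hYd]; exact le_max_right _ _
  have hY : ∀ y, Y ≤ y → A' 0 + 2 * gp y - ε ≤ A' y := fun y hy =>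
    hY0 y ((le_max_left _ _).trans (by rw [← hYd]; exact hy))
  by_contra hcon
  push Not at hcon
  set a0 : ℝ := A' 0 - 1 with ha0
  have ha : 0 < a0 - ε := by linarith
  have hC0 : 0 ≤ C0 := by
    have := (abs_nonneg _).trans (h.bd 0)
    simpa using this
  -- the first moment of the kernel
  have hwi : Integrable fun y => y * ct K y := by
    have := ht.wint.neg
    refine this.congr (Eventually.of_forall fun y => ?_)
    show - -(y * ct K y) = y * ct K y
    ring
  set m1 : ℝ := ∫ v in Ioi (0 : ℝ), v * ct K v with hm1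
  have hm1p : 0 < m1 := by
    rw [hm1, setIntegral_pos_iff_support_of_nonneg_ae]
    · have hc : ContinuousAt (fun v => ct K v) 0 := hK.ct_cont.continuousAt
      have h1 : ∀ᶠ v in 𝓝 (0 : ℝ), 0 < ct K v := hc.eventually_const_lt h0
      obtain ⟨d, hd, h2⟩ := Metric.eventually_nhds_iff.1 h1
      have h3 : Ioo (0 : ℝ) d ⊆ Function.support (fun v => v * ct K v) ∩ Ioi 0 := by
        rintro v ⟨hv1, hv2⟩
        refine ⟨?_, hv1⟩
        rw [Function.mem_support]
        have := h2 (show dist v 0 < d by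
          rw [Real.dist_eq, sub_zero, abs_of_pos hv1]
          exact hv2)
        positivity
      refine lt_of_lt_of_le ?_ (measure_mono h3)
      rw [Real.volume_Ioo, sub_zero]
      exact ENNReal.ofReal_pos.2 hd
    · rw [EventuallyLE, ae_restrict_iff' measurableSet_Ioi]
      refine Eventually.of_forall fun v hv => ?_
      have hv' : (0 : ℝ) < v := hv
      exact mul_nonneg hv'.le (hpos v)
    · exact hwi.integrableOn
  obtain ⟨M, hMd⟩ : ∃ M : ℝ, M = (C0 + 2) * (1 + Y ^ 2) + (a0 - ε) := ⟨_, rfl⟩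
  have hM : 0 ≤ M := by rw [hMd]; positivity
  obtain ⟨W, hWd⟩ : ∃ W : ℝ, W = C2 + M * Y ^ 2 * ct K 0 := ⟨_, rfl⟩
  have hW : 0 ≤ W := by rw [hWd]; positivity
  have key : ∀ δ : ℝ, 0 < δ → δ ≤ κ1 → (a0 - ε) * m1 ≤ δ * W := by
    intro δ hδ hδκ
    have hδ1 : δ ≤ 1 := hδκ.trans hκ1.le
    have htd := ht.dil hδ hδ1
    have hb := hδb A' C0 h δ hδ hδκ
    -- pointwise lower bound
    set G : ℝ → ℝ := fun y => (Ioi (0 : ℝ)).indicator (fun y => (a0 - ε) * δ ^ 2 *
        ((δ * y) * ct K (δ * y))) y - (Ioc (0 : ℝ) Y).indicator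
          (fun _ => M * δ ^ 3 * Y * ct K 0) y with hG
    have hpt : ∀ y, G y ≤ -((A' y - AG y) * (δ ^ 2 * -(δ * y * ct K (δ * y)))) := by
      intro y
      simp only [hG]
      rcases le_or_gt y 0 with hy | hy
      · rw [indicator_of_notMem (by simp [hy]), indicator_of_notMem (by simp [hy])]
        rcases hy.lt_or_eq with hy | hy
        · have hAG : AG y = 0 := by
            unfold AG
            rw [if_pos hy]
          rw [h.neg y hy, hAG]
          simp
        · rw [hy]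
          simp
      · rw [indicator_of_mem (show y ∈ Ioi (0 : ℝ) from hy)]
        have hAG : AG y = 1 + 2 * gp y := by
          unfold AG
          rw [if_neg (by linarith)]
        have hk := hpos (δ * y)
        have hky : 0 ≤ δ * y * ct K (δ * y) := mul_nonneg (by positivity) hk
        rcases le_or_gt y Y with hyY | hyY
        · rw [indicator_of_mem (show y ∈ Ioc (0 : ℝ) Y from ⟨hy, hyY⟩)]
          have hlow1 : -((C0 + 2) * (1 + Y ^ 2)) ≤ A' y - AG y := by
            have a1 := (abs_le.1 (h.bd y)).1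
            have a2 := (abs_le.1 (AG_bound y)).2
            have a3 : y ^ 2 ≤ Y ^ 2 := pow_le_pow_left₀ hy.le hyY 2
            have a4 : C0 * (1 + y ^ 2) ≤ C0 * (1 + Y ^ 2) :=
              mul_le_mul_of_nonneg_left (by linarith) hC0
            linarith
          have a5 : δ * y * ct K (δ * y) ≤ δ * Y * ct K 0 :=
            mul_le_mul (mul_le_mul_of_nonneg_left hyY hδ.le) (hle _) hk (by positivity)
          have a6 : (A' y - AG y + M - (a0 - ε)) * (δ * y * ct K (δ * y)) ≥ 0 := by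
            refine mul_nonneg ?_ hky
            rw [hMd]
            linarith
          have a7 : M * (δ * y * ct K (δ * y)) ≤ M * (δ * Y * ct K 0) :=
            mul_le_mul_of_nonneg_left a5 hM
          have a8 : (a0 - ε) * (δ * y * ct K (δ * y)) - M * (δ * Y * ct K 0) ≤
              (A' y - AG y) * (δ * y * ct K (δ * y)) := by linarith
          have a9 := mul_le_mul_of_nonneg_left a8 (sq_nonneg δ)
          linarith
        · rw [indicator_of_notMem (by
            rintro ⟨_, h2⟩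
            linarith), sub_zero]
          have a1 := hY y hyY.le
          have a2 : a0 - ε ≤ A' y - AG y := by
            rw [hAG]
            linarith
          have a3 := mul_le_mul_of_nonneg_right a2 hky
          have a4 := mul_le_mul_of_nonneg_left a3 (sq_nonneg δ)
          linarith
    have iR : Integrable fun y => -((A' y - AG y) * (δ ^ 2 * -(δ * y * ct K (δ * y)))) := by
      have j1 := poly_int htd h.mono.measurable h.bd
      have j2 := poly_int htd AG_meas AG_bound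
      refine (j1.sub j2).neg.congr (Eventually.of_forall fun y => ?_)
      show -(A' y * (δ ^ 2 * -(δ * y * ct K (δ * y))) - AG y * (δ ^ 2 * -(δ * y * ct K (δ * y)))) = _
      ring
    have iw : Integrable fun y => δ * y * ct K (δ * y) := hwi.comp_mul_left' hδ.ne'
    have iG1 : Integrable fun y => (Ioi (0 : ℝ)).indicator (fun y => (a0 - ε) * δ ^ 2 *
        ((δ * y) * ct K (δ * y))) y := (iw.const_mul _).indicator measurableSet_Ioi
    have iG2 : Integrable fun y => (Ioc (0 : ℝ) Y).indicator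
          (fun _ => M * δ ^ 3 * Y * ct K 0) y := by
      rw [integrable_indicator_iff measurableSet_Ioc]
      exact integrableOn_const (by rw [Real.volume_Ioc]; exact ENNReal.ofReal_ne_top)
    have hint := integral_mono (iG1.sub iG2) iR hpt
    have hval : ∫ y, G y = (a0 - ε) * δ * m1 - M * δ ^ 3 * Y * ct K 0 * Y := by
      simp only [hG]
      rw [integral_sub iG1 iG2, integral_indicator measurableSet_Ioi,
        integral_indicator measurableSet_Ioc, integral_const_mul, setIntegral_const]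
      have e1 := integral_comp_mul_left_Ioi (fun v => v * ct K v) 0 hδ
      rw [mul_zero, smul_eq_mul] at e1
      have e2 : volume.real (Ioc (0 : ℝ) Y) = Y := by
        rw [Real.volume_real_Ioc_of_le (by linarith), sub_zero]
      rw [e2, smul_eq_mul]
      have e3 : ∫ y in Ioi (0 : ℝ), δ * y * ct K (δ * y) = δ⁻¹ * m1 := e1
      rw [e3]
      field_simp
    have hint' : ∫ y, G y ≤ ∫ y, -((A' y - AG y) * (δ ^ 2 * -(δ * y * ct K (δ * y)))) := hint
    rw [hval, integral_neg] at hint'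
    have hb' := neg_le_abs (∫ y, (A' y - AG y) * (δ ^ 2 * -(δ * y * ct K (δ * y))))
    have hfin : (a0 - ε) * δ * m1 - M * δ ^ 3 * Y * ct K 0 * Y ≤ C2 * δ ^ 2 :=
      hint'.trans (hb'.trans hb)
    have h1 : (a0 - ε) * m1 * δ ≤ (δ * (C2 + M * δ * Y ^ 2 * ct K 0)) * δ := by
      have : (δ * (C2 + M * δ * Y ^ 2 * ct K 0)) * δ = C2 * δ ^ 2 + M * δ ^ 3 * Y * ct K 0 * Y := by
        ring
      linarith
    have h2 := le_of_mul_le_mul_right h1 hδ
    refine h2.trans (mul_le_mul_of_nonneg_left ?_ hδ.le)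
    rw [hWd]
    have h3 : 0 ≤ M * Y ^ 2 * ct K 0 := by positivity
    have h4 : M * δ * Y ^ 2 * ct K 0 = δ * (M * Y ^ 2 * ct K 0) := by ring
    rw [h4]
    have h5 : δ * (M * Y ^ 2 * ct K 0) ≤ 1 * (M * Y ^ 2 * ct K 0) :=
      mul_le_mul_of_nonneg_right hδ1 h3
    linarith
  have hpm : 0 < (a0 - ε) * m1 := mul_pos ha hm1p
  obtain ⟨δ, hδd⟩ : ∃ δ : ℝ, δ = min κ1 ((a0 - ε) * m1 / (2 * (W + 1))) := ⟨_, rfl⟩
  have hδ : 0 < δ := by
    rw [hδd]
    exact lt_min hκ0 (by positivity)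
  have h1 := key δ hδ (by rw [hδd]; exact min_le_left _ _)
  have h2 : δ ≤ (a0 - ε) * m1 / (2 * (W + 1)) := by rw [hδd]; exact min_le_right _ _
  rw [le_div_iff₀ (by positivity)] at h2
  nlinarith

end

end Pool.Agent.W2helper24.FP
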