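import Pool.Agent.W2helper24.FP.Tst
import Pool.Agent.W2helper24.FP.Asm

set_option autoImplicit false

/-! # Limits of the counting functions along ultrafilters, without hypotheses -/

open Filter Topology MeasureTheory Set
open scoped ENNReal Real

namespace Pool.Agent.W2helper24.FP

open Pool.Agent.Y744

/-- passage to the limit in the integrals, along any filter -/
theorem lim_int' {A : ℝ → ℝ → ℝ} {T0 C : ℝ} (hmono : ∀ T, T0 ≤ T → Monotone (A T))
    (hb : ∀ T, T0 ≤ T → ∀ y, |A T y| ≤ C * (1 + y ^ 2)) {w : ℝ → ℝ} (hw : Measurable w) {D : ℝ}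
    (hwd : ∀ y, |w y| ≤ D / (1 + y ^ 2) ^ 2) {u : Filter ℝ}
    (hu : u ≤ atTop) {A' : ℝ → ℝ} (hA' : Monotone A')
    (hlim : ∀ y, Tendsto (fun T => A T y) u (𝓝 (A' y))) :
    Tendsto (fun T => ∫ y, A T y * w y) u (𝓝 (∫ y, A' y * w y)) := by
  have hC : 0 ≤ C := by
    have := (abs_nonneg _).trans (hb T0 le_rfl 0)
    simpa using this
  rw [Metric.tendsto_nhds]
  intro e he
  by_contra hcon
  have hfr : ∃ᶠ T in u, e ≤ dist (∫ y, A T y * w y) (∫ y, A' y * w y) := by
    rw [Filter.Frequently]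
    intro h
    apply hcon
    filter_upwards [h] with T hT
    exact not_le.1 hT
  set q : ℕ → ℝ := TopologicalSpace.denseSeq ℝ with hq
  have hqd : DenseRange q := TopologicalSpace.denseRange_denseSeq ℝ
  have hex : ∀ n : ℕ, ∃ T : ℝ, (max (n : ℝ) T0 ≤ T ∧
      ∀ j ∈ Finset.range (n + 1), |A T (q j) - A' (q j)| < 1 / ((n : ℝ) + 1)) ∧
      e ≤ dist (∫ y, A T y * w y) (∫ y, A' y * w y) := by
    intro n
    have h1 : ∀ᶠ T in u, max (n : ℝ) T0 ≤ T := hu (eventually_ge_atTop _)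
    have h2 : ∀ᶠ T in u, ∀ j ∈ Finset.range (n + 1), |A T (q j) - A' (q j)| < 1 / ((n : ℝ) + 1) := by
      rw [Filter.eventually_all_finset]
      intro j _
      have := (Metric.tendsto_nhds.1 (hlim (q j))) (1 / ((n : ℝ) + 1)) (by positivity)
      simpa [Real.dist_eq] using this
    exact ((h1.and h2).and_frequently hfr).exists
  choose t ht12 ht3 using hex
  have htn : ∀ n : ℕ, (n : ℝ) ≤ t n := fun n => (le_max_left _ _).trans (ht12 n).1
  have htT : ∀ n : ℕ, T0 ≤ t n := fun n => (le_max_right _ _).trans (ht12 n).1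
  have htt : Tendsto t atTop atTop := tendsto_atTop_mono htn tendsto_natCast_atTop_atTop
  have hj : ∀ j, Tendsto (fun n => A (t n) (q j)) atTop (𝓝 (A' (q j))) := by
    intro j
    rw [Metric.tendsto_nhds]
    intro ε hε
    have h1 : ∀ᶠ n : ℕ in atTop, 1 / ((n : ℝ) + 1) < ε :=
      (tendsto_order.1 tendsto_one_div_add_atTop_nhds_zero_nat).2 ε hε
    filter_upwards [h1, eventually_ge_atTop j] with n hn hnj
    rw [Real.dist_eq]
    exact ((ht12 n).2 j (Finset.mem_range.2 (by omega))).trans hn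
  have hcont : ∀ x, ContinuousAt A' x → Tendsto (fun n => A (t n) x) atTop (𝓝 (A' x)) := by
    intro x hx
    rw [tendsto_order]
    constructor
    · intro a ha
      have h1 : ∀ᶠ y in 𝓝 x, a < A' y := hx.eventually_const_lt ha
      obtain ⟨δ, hδ, h2⟩ := Metric.eventually_nhds_iff.1 h1
      obtain ⟨_, ⟨j, rfl⟩, hj1, hj2⟩ := hqd.exists_between (show x - δ < x by linarith)
      have h3 : a < A' (q j) := h2 (by rw [Real.dist_eq, abs_lt]; constructor <;> linarith)
      filter_upwards [(tendsto_order.1 (hj j)).1 a h3] with n hn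
      exact hn.trans_le (hmono _ (htT n) hj2.le)
    · intro a ha
      have h1 : ∀ᶠ y in 𝓝 x, A' y < a := hx.eventually_lt_const ha
      obtain ⟨δ, hδ, h2⟩ := Metric.eventually_nhds_iff.1 h1
      obtain ⟨_, ⟨j, rfl⟩, hj1, hj2⟩ := hqd.exists_between (show x < x + δ by linarith)
      have h3 : A' (q j) < a := h2 (by rw [Real.dist_eq, abs_lt]; constructor <;> linarith)
      filter_upwards [(tendsto_order.1 (hj j)).2 a h3] with n hn
      exact (hmono _ (htT n) hj1.le).trans_lt hn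
  have hae : ∀ᵐ x, ContinuousAt A' x := by
    have := hA'.countable_not_continuousAt
    exact this.ae_notMem volume |>.mono fun x hx => by
      by_contra hc
      exact hx hc
  have hD : Integrable fun y : ℝ => C * D * (1 + y ^ 2)⁻¹ :=
    integrable_inv_one_add_sq.const_mul _
  have h1 : Tendsto (fun n => ∫ y, A (t n) y * w y) atTop (𝓝 (∫ y, A' y * w y)) := by
    refine tendsto_integral_of_dominated_convergence _ (fun n => ?_) hD (fun n => ?_) ?_
    · exact ((hmono _ (htT n)).measurable.mul hw).aestronglyMeasurable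
    · refine Eventually.of_forall fun y => ?_
      rw [Real.norm_eq_abs, abs_mul]
      have h1 : 0 < 1 + y ^ 2 := by positivity
      calc |A (t n) y| * |w y| ≤ (C * (1 + y ^ 2)) * (D / (1 + y ^ 2) ^ 2) := by
            gcongr
            · exact hb _ (htT n) y
            · exact hwd y
        _ = C * D * (1 + y ^ 2)⁻¹ := by field_simp
    · filter_upwards [hae] with x hx
      exact (hcont x hx).mul_const _
  obtain ⟨n, hn⟩ := ((Metric.tendsto_nhds.1 h1) e he).exists
  exact absurd (ht3 n) (not_le.2 hn)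

/-- the limits of the counting functions -/
structure Lm (u : Filter ℝ) (A' : ℝ → ℝ) (C0 : ℝ) : Prop where
  top : u ≤ atTop
  mono : Monotone A'
  neg : ∀ y, y < 0 → A' y = 0
  bd : ∀ y, |A' y| ≤ C0 * (1 + y ^ 2)
  one : 1 ≤ A' 0
  lim : ∀ y, Tendsto (fun T => Aa T y) u (𝓝 (A' y))

theorem ex_lim (g : Ultrafilter ℝ) (hgt : (g : Filter ℝ) ≤ atTop) :
    ∃ (A' : ℝ → ℝ) (C0 : ℝ), Lm (g : Filter ℝ) A' C0 := by
  obtain ⟨C0, T0, hT0, hb⟩ := Aa_bnd
  have hmono : ∀ T, T0 ≤ T → Monotone (Aa T) := fun T hT => Aa_mono (by linarith)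
  have hT : ∀ᶠ T in (g : Filter ℝ), T0 ≤ T := hgt (eventually_ge_atTop _)
  have hex : ∀ y, ∃ L, Tendsto (fun T => Aa T y) (g : Filter ℝ) (𝓝 L) := by
    intro y
    have h1 : ((g.map fun T => Aa T y : Ultrafilter ℝ) : Filter ℝ) ≤
        𝓟 (Set.Icc (-(C0 * (1 + y ^ 2))) (C0 * (1 + y ^ 2))) := by
      rw [le_principal_iff]
      have h2 : ∀ᶠ T in (g : Filter ℝ), Aa T y ∈
          Set.Icc (-(C0 * (1 + y ^ 2))) (C0 * (1 + y ^ 2)) := by
        filter_upwards [hT] with T hT1
        exact abs_le.1 (hb T hT1 y)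
      exact h2
    obtain ⟨L, _, hL⟩ := isCompact_Icc.ultrafilter_le_nhds _ h1
    exact ⟨L, hL⟩
  choose A' hlim using hex
  refine ⟨A', C0, ⟨hgt, ?_, fun y hy => ?_, fun y => ?_, ?_, hlim⟩⟩
  · intro a b hab
    refine le_of_tendsto_of_tendsto (hlim a) (hlim b) ?_
    filter_upwards [hT] with T hT1 using hmono T hT1 hab
  · refine tendsto_nhds_unique (hlim y) ?_
    have : (fun T => Aa T y) = fun _ => 0 := funext fun T => Aa_neg T y hy
    rw [this]
    exact tendsto_const_nhds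
  · refine le_of_tendsto (hlim y).abs ?_
    filter_upwards [hT] with T hT1 using hb T hT1 y
  · refine le_of_forall_pos_le_add fun ε hε => ?_
    have h1 : ∀ᶠ T in (g : Filter ℝ), 1 - ε ≤ Aa T 0 := hgt (Aa_diag hε)
    have := ge_of_tendsto (hlim 0) h1
    linarith

section

variable {u : Filter ℝ} {A' : ℝ → ℝ} {C0 κ : ℝ} {φ g w : ℝ → ℝ}

/-- the pair sums along the filter -/
theorem Lm.tst (h : Lm u A' C0) (ht : Tst κ φ g w) :
    Tendsto (fun T => Q2 g T (Real.log T) / Xf T) u (𝓝 (-∫ y, A' y * w y)) := by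
  obtain ⟨C1, T0, hT0, hb⟩ := Aa_bnd
  have hmono : ∀ T, T0 ≤ T → Monotone (Aa T) := fun T hT => Aa_mono (by linarith)
  obtain ⟨D, hD0, hD⟩ := ht.wd
  have h1 := (lim_int' hmono hb ht.wc.measurable hD h.top h.mono h.lim).neg
  refine h1.congr fun T => ?_
  rw [ht.Aa_int]
  rw [div_eq_inv_mul, neg_neg]

/-- the number of the zeros -/
theorem N_le : ∀ᶠ T in atTop, ∑ s ∈ Zt T, mz s ≤ 2 * Xf T := by
  obtain ⟨T0, hT0, h⟩ := Pool.Agent.W54.TCF.NT_asymp' 1 one_pos
  filter_upwards [eventually_ge_atTop T0] with T hT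
  have h1 := (h T hT).2
  rw [sum_Zt]
  refine h1.trans (le_of_eq ?_)
  unfold Xf
  ring

lemma NofT_le (T : ℝ) : NofT T ≤ ∑ s ∈ Zt T, mz s :=
  Finset.sum_le_sum_of_subset_of_nonneg (Finset.filter_subset _ _) fun s _ _ => mz_nonneg s

end

end Pool.Agent.W2helper24.FP
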