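import Pool.Agent.W2helper24.FP.Rig
import Pool.Agent.W2helper22.PC.LogEx
import Pool.Agent.W2helper22.PC.Fin
import Pool.Agent.Y744.PCR.Fin2

set_option autoImplicit false

/-! # Pair correlation from one-sided bounds at large distances, without hypotheses -/

open Filter Topology MeasureTheory Set
open scoped ENNReal Real

namespace Pool.Agent.W2helper24.FP

open Pool.Agent.Y744 Pool.Agent.W2helper22.PC

noncomputable def zmult (s : ℂ) : ℕ := analyticOrderNatAt riemannZeta s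

def ZZ : Set ℂ := {s : ℂ | riemannZeta s = 0 ∧ 0 < s.re ∧ s.re < 1}

noncomputable def Nstar (T a : ℝ) : ℕ :=
  ∑ᶠ p ∈ {p : ℂ × ℂ | p.1 ∈ ZZ ∧ p.2 ∈ ZZ ∧ 0 < p.1.im ∧ p.1.im ≤ T ∧
    0 < p.1.im - p.2.im ∧ p.1.im - p.2.im ≤ 2 * Real.pi * a / Real.log T}, zmult p.1 * zmult p.2

noncomputable def Nbad (T : ℝ) : ℕ :=
  ∑ᶠ s ∈ {s : ℂ | s ∈ ZZ ∧ 0 < s.im ∧ s.im ≤ T ∧ (s.re ≠ 1 / 2 ∨ zmult s ≠ 1)}, zmult s

noncomputable def E (T a : ℝ) : ℝ :=
  (Nstar T a : ℝ) / (T * Real.log T) - 1 / (2 * Real.pi) * ∫ u in (0 : ℝ)..a,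
    (1 - (Real.sin (Real.pi * u) / (Real.pi * u)) ^ 2)

def Slow (β : ℕ → ℝ) : Prop := Monotone β ∧ 0 < β 0 ∧ ¬ Summable fun i => (β i)⁻¹

def OneSided (F : Filter ℝ) (s : ℝ) : Prop :=
  ∃ (β : ℕ → ℝ) (B A : ℝ) (Q : Set ℝ), Slow β ∧ Set.Ici A ⊆ closure Q ∧
    ∀ a ∈ Q, 0 < a → ∀ k : ℕ, ∀ ε : ℝ, 0 < ε → ∀ᶠ T in F,
      -(B * ∏ i ∈ Finset.range k, (β i / a) ^ 2) - ε ≤ s * E T a

lemma zero_gap : ∃ γ0 : ℝ, 0 < γ0 ∧ ∀ s ∈ ZZ, 0 < s.im → γ0 ≤ s.im := by
  classical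
  rcases (Zt 1).eq_empty_or_nonempty with h | h
  · refine ⟨1, one_pos, fun s hs hp => ?_⟩
    by_contra hcon
    push Not at hcon
    have : s ∈ Zt 1 := mem_Zt.2 ⟨hs.2.1, hs.2.2, hp, hcon.le, hs.1⟩
    rw [h] at this
    exact absurd this (Finset.notMem_empty s)
  · obtain ⟨s0, hs0, hmin⟩ := Finset.exists_min_image (Zt 1) (fun s => s.im) h
    have h0 := mem_Zt.1 hs0
    refine ⟨s0.im, h0.2.2.1, fun s hs hp => ?_⟩
    by_contra hcon
    push Not at hcon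
    have h1 : s ∈ Zt 1 := mem_Zt.2 ⟨hs.2.1, hs.2.2, hp, by linarith [h0.2.2.2.1], hs.1⟩
    linarith [hmin s h1]

lemma Nstar_eq (a : ℝ) : ∀ᶠ T in atTop, (Nstar T a : ℝ) = PC T (Set.Ioc 0 a) := by
  classical
  obtain ⟨γ0, hγ, hgap⟩ := zero_gap
  have ev : ∀ᶠ T : ℝ in atTop, 2 * Real.pi * a / Real.log T < γ0 := by
    have h1 : Tendsto (fun T : ℝ => 2 * Real.pi * a / Real.log T) atTop (𝓝 0) :=
      Real.tendsto_log_atTop.const_div_atTop _
    exact h1.eventually_lt_const hγ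
  filter_upwards [ev, eventually_gt_atTop (1 : ℝ)] with T hT hT1
  have hlog : 0 < Real.log T := Real.log_pos hT1
  have hpi := Real.pi_pos
  set P : Set (ℂ × ℂ) := {p : ℂ × ℂ | p.1 ∈ ZZ ∧ p.2 ∈ ZZ ∧ 0 < p.1.im ∧ p.1.im ≤ T ∧
    0 < p.1.im - p.2.im ∧ p.1.im - p.2.im ≤ 2 * Real.pi * a / Real.log T} with hP
  have hPe : P = ↑((Zt T ×ˢ Zt T).filter (fun p : ℂ × ℂ => dd T p.1 p.2 ∈ Set.Ioc 0 a)) := by
    ext p
    rw [Finset.mem_coe, Finset.mem_filter, Finset.mem_product, mem_Zt, mem_Zt]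
    have e1 : dd T p.1 p.2 ∈ Set.Ioc 0 a ↔ (0 < p.1.im - p.2.im ∧
        p.1.im - p.2.im ≤ 2 * Real.pi * a / Real.log T) := by
      unfold dd
      rw [Set.mem_Ioc, le_div_iff₀ hlog, div_le_iff₀ (by positivity)]
      constructor
      · rintro ⟨h1, h2⟩
        refine ⟨?_, by linarith⟩
        by_contra hcon
        push Not at hcon
        have : (p.1.im - p.2.im) * Real.log T / (2 * π) ≤ 0 :=
          div_nonpos_of_nonpos_of_nonneg (mul_nonpos_of_nonpos_of_nonneg hcon hlog.le)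
            (by positivity)
        linarith
      · rintro ⟨h1, h2⟩
        exact ⟨by positivity, by linarith⟩
    rw [e1]
    constructor
    · rintro ⟨h1, h2, h3, h4, h5, h6⟩
      have h7 := hgap _ h1 h3
      exact ⟨⟨⟨h1.2.1, h1.2.2, h3, h4, h1.1⟩, ⟨h2.2.1, h2.2.2, by linarith, by linarith, h2.1⟩⟩,
        h5, h6⟩
    · rintro ⟨⟨h1, h2⟩, h5, h6⟩
      exact ⟨⟨h1.2.2.2.2, h1.1, h1.2.1⟩, ⟨h2.2.2.2.2, h2.1, h2.2.1⟩, h1.2.2.1, h1.2.2.2.1, h5, h6⟩
  unfold Nstar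
  rw [← hP, hPe, finsum_mem_coe_finset]
  push_cast
  rw [Finset.sum_filter, Finset.sum_product]
  unfold PC
  refine Finset.sum_congr rfl fun s _ => Finset.sum_congr rfl fun s' _ => ?_
  by_cases h : dd T s s' ∈ Set.Ioc 0 a
  · rw [if_pos h, Set.indicator_of_mem h, mul_one]
    rfl
  · rw [if_neg h, Set.indicator_of_notMem h, mul_zero]

lemma Nbad_eq (T : ℝ) : (Nbad T : ℝ) = NbT T := by
  classical
  have hPe : {s : ℂ | s ∈ ZZ ∧ 0 < s.im ∧ s.im ≤ T ∧ (s.re ≠ 1 / 2 ∨ zmult s ≠ 1)} =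
      ↑((Zt T).filter (fun s : ℂ => s.re ≠ 1 / 2 ∨ mz s ≠ 1)) := by
    ext s
    rw [Finset.mem_coe, Finset.mem_filter, mem_Zt]
    have e1 : mz s ≠ 1 ↔ zmult s ≠ 1 := by
      have : mz s = (zmult s : ℝ) := rfl
      rw [this, Ne, Nat.cast_eq_one]
    rw [e1]
    constructor
    · rintro ⟨h1, h2, h3, h4⟩
      exact ⟨⟨h1.2.1, h1.2.2, h2, h3, h1.1⟩, h4⟩
    · rintro ⟨h1, h4⟩
      exact ⟨⟨h1.2.2.2.2, h1.1, h1.2.1⟩, h1.2.2.1, h1.2.2.2.1, h4⟩
  unfold Nbad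
  rw [hPe, finsum_mem_coe_finset]
  push_cast
  rfl

lemma int_gp (a : ℝ) : ∫ u in (0 : ℝ)..a, (1 - (Real.sin (Real.pi * u) / (Real.pi * u)) ^ 2) =
    gp a := by
  unfold gp
  refine intervalIntegral.integral_congr_ae ?_
  have h0 : ∀ᵐ x : ℝ, x ≠ 0 := by
    rw [ae_iff]
    simp
  filter_upwards [h0] with x hx _
  unfold gd
  have hpi := Real.pi_pos
  rw [Real.sinc_of_ne_zero (by positivity)]

section

variable {u : Filter ℝ} {A' : ℝ → ℝ} {C0 : ℝ}

lemma Lm.E_lim (h : Lm u A' C0) {a : ℝ} (ha : 0 < a) :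
    Tendsto (fun T => E T a) u (𝓝 (1 / (4 * π) * (A' a - A' 0 - 2 * gp a))) := by
  have hpi := Real.pi_pos
  have h1 := (((h.lim a).sub (h.lim 0)).div_const (2 * (2 * π))).sub_const (1 / (2 * π) * gp a)
  have e : (A' a - A' 0) / (2 * (2 * π)) - 1 / (2 * π) * gp a =
      1 / (4 * π) * (A' a - A' 0 - 2 * gp a) := by
    field_simp
    ring
  rw [e] at h1
  refine h1.congr' ?_
  filter_upwards [h.top (Nstar_eq a), h.top (eventually_gt_atTop (1 : ℝ))] with T hT hT1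
  have hX := Xf_pos hT1
  have hlog : 0 < Real.log T := Real.log_pos hT1
  unfold E
  rw [hT, int_gp]
  have e1 : Aa T a - Aa T 0 = 2 * PC T (Set.Ioc 0 a) / Xf T := by
    unfold Aa
    rw [PC_abs T ha.le]
    have e2 : PC T (Set.Icc 0 a) = PC T {x | |x| ≤ 0} + PC T (Set.Ioc 0 a) := by
      rw [← PC_union T]
      · congr 1
        ext x
        simp only [Set.mem_Icc, Set.mem_union, Set.mem_ofPred_eq, abs_nonpos_iff, Set.mem_Ioc]
        constructor
        · rintro ⟨h1, h2⟩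
          rcases h1.eq_or_lt with h | h
          · exact Or.inl h.symm
          · exact Or.inr ⟨h, h2⟩
        · rintro (rfl | ⟨h1, h2⟩)
          · exact ⟨le_rfl, ha.le⟩
          · exact ⟨h1.le, h2⟩
      · rw [Set.disjoint_left]
        rintro x (h1 : |x| ≤ 0) h2
        rw [abs_nonpos_iff] at h1
        rw [h1] at h2
        exact lt_irrefl _ h2.1
    rw [e2]
    field_simp
    ring
  rw [e1]
  congr 1
  unfold Xf
  have hT0 : 0 < T := by linarith
  field_simp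

/-- from a dense set to all distances -/
lemma dense_ext {A' Φ : ℝ → ℝ} (hm : Monotone A') {Q : Set ℝ} {A a s : ℝ}
    (hQ : Set.Ici A ⊆ closure Q) (ha : A < a) (hA : 0 ≤ A) (hs : s = 1 ∨ s = -1)
    (hΦ : ContinuousAt Φ a) (h : ∀ q ∈ Q, 0 < q → 0 ≤ s * (A' q - Φ q)) :
    0 ≤ s * (A' a - Φ a) := by
  by_contra hcon
  push Not at hcon
  have hpick : ∀ x y : ℝ, A ≤ x → x < y → ∃ q ∈ Q, x < q ∧ q < y := by
    intro x y hx hxy
    have hmid : (x + y) / 2 ∈ closure Q := hQ (by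
      show A ≤ (x + y) / 2
      linarith)
    obtain ⟨q, hq1, hq2⟩ := mem_closure_iff.1 hmid (Set.Ioo x y) isOpen_Ioo
      ⟨by linarith, by linarith⟩
    exact ⟨q, hq2, hq1.1, hq1.2⟩
  rcases hs with rfl | rfl
  · rw [one_mul] at hcon
    have h1 : ∀ᶠ x in 𝓝 a, A' a < Φ x := hΦ.eventually_const_lt (by linarith)
    obtain ⟨δ, hδ, h2⟩ := Metric.eventually_nhds_iff.1 h1
    obtain ⟨q, hq, hq1, hq2⟩ := hpick (max A (a - δ)) a (le_max_left _ _)
      (max_lt ha (by linarith))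
    have h3 : A < q := (le_max_left _ _).trans_lt hq1
    have h4 : a - δ < q := (le_max_right _ _).trans_lt hq1
    have h5 := h2 (show dist q a < δ by rw [Real.dist_eq, abs_lt]; constructor <;> linarith)
    have h6 := h q hq (by linarith)
    have h7 := hm hq2.le
    linarith
  · have h1 : ∀ᶠ x in 𝓝 a, Φ x < A' a := hΦ.eventually_lt_const (by linarith)
    obtain ⟨δ, hδ, h2⟩ := Metric.eventually_nhds_iff.1 h1
    obtain ⟨q, hq, hq1, hq2⟩ := hpick a (a + δ) ha.le (by linarith)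
    have h5 := h2 (show dist q a < δ by rw [Real.dist_eq, abs_lt]; constructor <;> linarith)
    have h6 := h q hq (by linarith)
    have h7 := hm hq1.le
    linarith

lemma Slow.qseq {β : ℕ → ℝ} (h : Slow β) : QSeq β := ⟨h.1, h.2.1, h.2.2⟩

/-- the one-sided bound in the limit -/
lemma OneSided.lim [NeBot u] {F : Filter ℝ} {s : ℝ} (hs : s = 1 ∨ s = -1) (hO : OneSided F s)
    (h : Lm u A' C0) (huF : u ≤ F) : ∃ (β : ℕ → ℝ) (B A : ℝ), QSeq β ∧ 0 ≤ B ∧ 0 < A ∧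
      ∀ a, A ≤ a → ∀ k : ℕ, -(B * ∏ i ∈ Finset.range k, (β i / a) ^ 2) ≤
        s * (A' a - A' 0 - 2 * gp a) := by
  obtain ⟨β, B, A, Q, hβ, hQ, hyp⟩ := hO
  have hpi := Real.pi_pos
  refine ⟨β, 4 * π * |B|, max A 0 + 1, hβ.qseq, by positivity, by positivity,
    fun a ha k => ?_⟩
  have hapos : 0 < a := by linarith [le_max_right A 0]
  have hQ' : Set.Ici (max A 0) ⊆ closure Q := fun x hx => hQ ((le_max_left A 0).trans hx)
  set Φ : ℝ → ℝ := fun x => A' 0 + 2 * gp x - s * (4 * π * |B| *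
    ∏ i ∈ Finset.range k, (β i / x) ^ 2) with hΦ
  have hΦc : ContinuousAt Φ a := by
    have h1 := w_cont (4 * π * |B|) β k hapos
    exact (continuousAt_const.add (continuousAt_const.mul gp_cont.continuousAt)).sub
      (continuousAt_const.mul h1)
  have hss : s * s = 1 := by rcases hs with rfl | rfl <;> norm_num
  have key := dense_ext (A' := A') (Φ := Φ) h.mono hQ' (a := a) (by linarith)
    (le_max_right _ _) hs hΦc (fun q hq hq0 => by
      have hP0 : 0 ≤ ∏ i ∈ Finset.range k, (β i / q) ^ 2 :=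
        Finset.prod_nonneg fun _ _ => sq_nonneg _
      have h1 : -(|B| * ∏ i ∈ Finset.range k, (β i / q) ^ 2) ≤
          s * (1 / (4 * π) * (A' q - A' 0 - 2 * gp q)) := by
        refine le_of_forall_pos_le_add fun ε hε => ?_
        have h2 := ge_of_tendsto ((h.E_lim hq0).const_mul s) (huF (hyp q hq hq0 k ε hε))
        have h3 : B * ∏ i ∈ Finset.range k, (β i / q) ^ 2 ≤
            |B| * ∏ i ∈ Finset.range k, (β i / q) ^ 2 :=
          mul_le_mul_of_nonneg_right (le_abs_self B) hP0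
        linarith
      have h4 := mul_le_mul_of_nonneg_left h1 (show 0 ≤ 4 * π by positivity)
      have e1 : 4 * π * (s * (1 / (4 * π) * (A' q - A' 0 - 2 * gp q))) =
          s * (A' q - A' 0 - 2 * gp q) := by
        field_simp
      rw [e1] at h4
      have e2 : s * (A' q - Φ q) = s * (A' q - A' 0 - 2 * gp q) +
          (s * s) * (4 * π * |B| * ∏ i ∈ Finset.range k, (β i / q) ^ 2) := by
        simp only [hΦ]
        ring
      rw [e2, hss]
      linarith)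
  have e2 : s * (A' a - Φ a) = s * (A' a - A' 0 - 2 * gp a) +
      (s * s) * (4 * π * |B| * ∏ i ∈ Finset.range k, (β i / a) ^ 2) := by
    simp only [hΦ]
    ring
  rw [e2, hss] at key
  linarith

lemma conclude [NeBot u] {s : ℝ} (hs : s = 1 ∨ s = -1) (h : Lm u A' C0) (h1 : A' 0 = 1)
    (hl : ∃ (β : ℕ → ℝ) (B A : ℝ), QSeq β ∧ 0 ≤ B ∧ 0 < A ∧
      ∀ a, A ≤ a → ∀ k : ℕ, -(B * ∏ i ∈ Finset.range k, (β i / a) ^ 2) ≤
        s * (A' a - A' 0 - 2 * gp a)) {a : ℝ} (ha : 0 < a) :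
    Tendsto (fun T => E T a) u (𝓝 0) := by
  obtain ⟨β, B, A, hβ, hB, hA, hyp⟩ := hl
  have hr := rigid_all u A' C0 inferInstance h h1 s hs β hβ B A hB hA (fun a ha k => by
    have h2 := hyp a ha k
    have hAG : AG a = 1 + 2 * gp a := by
      unfold AG
      rw [if_neg (by linarith)]
    rw [hAG, ← h1]
    refine h2.trans (le_of_eq ?_)
    ring)
  have h2 := h.E_lim ha
  have hAG : AG a = 1 + 2 * gp a := by
    unfold AG
    rw [if_neg (by linarith)]
  rw [hr a, h1, hAG] at h2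
  have e : 1 / (4 * π) * (1 + 2 * gp a - 1 - 2 * gp a) = 0 := by ring
  rwa [e] at h2

lemma XT (T : ℝ) : T * Real.log T = 2 * π * Xf T := by
  have hpi := Real.pi_pos
  unfold Xf
  field_simp

lemma Nbad_tendsto {F : Filter ℝ} : Tendsto (fun T => (Nbad T : ℝ) / (T * Real.log T)) F (𝓝 0) ↔
    Tendsto (fun T => NbT T / Xf T) F (𝓝 0) := by
  have hpi := Real.pi_pos
  have e1 : ∀ T, (Nbad T : ℝ) / (T * Real.log T) = 1 / (2 * π) * (NbT T / Xf T) := by
    intro T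
    rw [Nbad_eq, XT, one_div_mul_eq_div, div_div]
    congr 1
    ring
  have e2 : ∀ T, NbT T / Xf T = (2 * π) * ((Nbad T : ℝ) / (T * Real.log T)) := by
    intro T
    rw [e1]
    field_simp
  constructor
  · intro h
    have := h.const_mul (2 * π)
    rw [mul_zero] at this
    exact this.congr fun T => (e2 T).symm
  · intro h
    have := h.const_mul (1 / (2 * π))
    rw [mul_zero] at this
    exact this.congr fun T => (e1 T).symm

end

/-- a sequence of the required kind -/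
lemma slow_ex : Slow fun i : ℕ => (i : ℝ) + 1 := by
  refine ⟨fun i j hij => ?_, by norm_num, ?_⟩
  · have : (i : ℝ) ≤ j := by exact_mod_cast hij
    linarith
  · intro h
    have h1 := (summable_nat_add_iff (f := fun n : ℕ => ((n : ℝ))⁻¹) 1).1 (by
      simpa using h)
    exact Real.not_summable_natCast_inv h1

theorem oneSided_of {F : Filter ℝ} (h : ∀ a, 0 < a → Tendsto (fun T => E T a) F (𝓝 0)) (s : ℝ) :
    OneSided F s := by
  refine ⟨fun i => (i : ℝ) + 1, 0, 0, Set.Ici 0, slow_ex, subset_closure, fun a _ ha k ε hε => ?_⟩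
  have h1 := (h a ha).const_mul s
  rw [mul_zero] at h1
  filter_upwards [h1.eventually_const_lt (show -ε < 0 by linarith)] with T hT
  rw [zero_mul]
  linarith

/-- a one-sided bound at large distances determines the diagonal -/
theorem bad_of_low {F : Filter ℝ} (hF : F ≤ atTop)
    (h : ∀ ε : ℝ, 0 < ε → ∃ A : ℝ, ∀ a, A ≤ a → ∀ᶠ T in F, -ε ≤ E T a) :
    Tendsto (fun T => (Nbad T : ℝ) / (T * Real.log T)) F (𝓝 0) := by
  rw [Nbad_tendsto, tendsto_iff_ultrafilter]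
  intro g hg
  obtain ⟨A', C0, hL⟩ := ex_lim g (hg.trans hF)
  refine hL.bad (one_of_low hL fun ε hε => ?_)
  have hpi := Real.pi_pos
  obtain ⟨A, hA⟩ := h (ε / (4 * π)) (by positivity)
  refine ⟨max A 1, fun y hy => ?_⟩
  have hy0 : 0 < y := by linarith [le_max_right A 1]
  have h1 := ge_of_tendsto (hL.E_lim hy0) (hg (hA y ((le_max_left _ _).trans hy)))
  have h2 := mul_le_mul_of_nonneg_left h1 (show 0 ≤ 4 * π by positivity)
  have e1 : 4 * π * (1 / (4 * π) * (A' y - A' 0 - 2 * gp y)) = A' y - A' 0 - 2 * gp y := by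
    field_simp
  have e2 : 4 * π * -(ε / (4 * π)) = -ε := by
    field_simp
  rw [e1, e2] at h2
  linarith

/-- **lower bounds** -/
theorem pcc_of_low {F : Filter ℝ} (hF : F ≤ atTop) (hO : OneSided F 1) {a : ℝ} (ha : 0 < a) :
    Tendsto (fun T => E T a) F (𝓝 0) := by
  rw [tendsto_iff_ultrafilter]
  intro g hg
  obtain ⟨A', C0, hL⟩ := ex_lim g (hg.trans hF)
  have hl := hO.lim (Or.inl rfl) hL hg
  refine conclude (Or.inl rfl) hL (one_of_low hL fun ε hε => ?_) hl ha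
  obtain ⟨β, B, A, hβ, hB, hA, hyp⟩ := hl
  have h1 : Tendsto (fun y : ℝ => B * (β 0 / y) ^ 2) atTop (𝓝 0) := by
    have h2 : Tendsto (fun y : ℝ => β 0 / y) atTop (𝓝 0) := tendsto_id.const_div_atTop _
    have h3 := (h2.pow 2).const_mul B
    simpa using h3
  obtain ⟨Y, hY⟩ := ((h1.eventually_lt_const hε).and (eventually_ge_atTop A)).exists_forall_of_atTop
  refine ⟨Y, fun y hy => ?_⟩
  obtain ⟨h2, h3⟩ := hY y hy
  have h4 := hyp y h3 1
  rw [Finset.prod_range_one] at h4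
  linarith

/-- **upper bounds** -/
theorem pcc_of_upp {F : Filter ℝ} (hF : F ≤ atTop)
    (hb : Tendsto (fun T => (Nbad T : ℝ) / (T * Real.log T)) F (𝓝 0)) (hO : OneSided F (-1))
    {a : ℝ} (ha : 0 < a) : Tendsto (fun T => E T a) F (𝓝 0) := by
  rw [tendsto_iff_ultrafilter]
  intro g hg
  obtain ⟨A', C0, hL⟩ := ex_lim g (hg.trans hF)
  have hb' := (Nbad_tendsto.1 hb).mono_left hg
  exact conclude (Or.inr rfl) hL (hL.good hb') (hO.lim (Or.inr rfl) hL hg) ha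

/-- the explicit rate -/
theorem oneSided_exp {F : Filter ℝ} {s C c A : ℝ} (hc : 0 < c)
    (h : ∀ a, A ≤ a → 0 < a → ∀ ε : ℝ, 0 < ε → ∀ᶠ T in F,
      -(C * Real.exp (-(c * a / Real.log (a + 2)))) - ε ≤ s * E T a) : OneSided F s := by
  obtain ⟨B, β, hB, hβ, hex⟩ := log_example hc
  refine ⟨β, |C| * B, A, Set.Ici A, ⟨hβ.mono, hβ.pos, hβ.div⟩, subset_closure,
    fun a ha ha0 k ε hε => ?_⟩
  filter_upwards [h a ha ha0 ε hε] with T hT
  have h1 := hex a ha0 k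
  have h2 := mul_le_mul_of_nonneg_left h1 (abs_nonneg C)
  have h3 : C * Real.exp (-(c * a / Real.log (a + 2))) ≤
      |C| * Real.exp (-(c * a / Real.log (a + 2))) :=
    mul_le_mul_of_nonneg_right (le_abs_self C) (Real.exp_pos _).le
  linarith

/-- **the main theorem** -/
theorem main (F : Filter ℝ) (hF : F ≤ atTop) :
    ((∀ a : ℝ, 0 < a → Tendsto (fun T => E T a) F (𝓝 0)) ↔ OneSided F 1) ∧
    ((∀ a : ℝ, 0 < a → Tendsto (fun T => E T a) F (𝓝 0)) ↔
      (Tendsto (fun T => (Nbad T : ℝ) / (T * Real.log T)) F (𝓝 0) ∧ OneSided F (-1))) ∧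
    (∀ s C c A : ℝ, 0 < c → (∀ a, A ≤ a → 0 < a → ∀ ε : ℝ, 0 < ε → ∀ᶠ T in F,
      -(C * Real.exp (-(c * a / Real.log (a + 2)))) - ε ≤ s * E T a) → OneSided F s) ∧
    ((∀ ε : ℝ, 0 < ε → ∃ A : ℝ, ∀ a, A ≤ a → ∀ᶠ T in F, -ε ≤ E T a) →
      Tendsto (fun T => (Nbad T : ℝ) / (T * Real.log T)) F (𝓝 0)) := by
  refine ⟨⟨fun h => oneSided_of h 1, fun h a ha => pcc_of_low hF h ha⟩,
    ⟨fun h => ⟨bad_of_low hF fun ε hε => ⟨1, fun a ha => ?_⟩, oneSided_of h (-1)⟩,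
      fun h a ha => pcc_of_upp hF h.1 h.2 ha⟩,
    fun s C c A hc h => oneSided_exp hc h, fun h => bad_of_low hF h⟩
  filter_upwards [(h a (by linarith)).eventually_const_lt (show -ε < 0 by linarith)] with T hT
  exact hT.le

end Pool.Agent.W2helper24.FP
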