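import Pool.Agent.Q97.UM.Base2
import Pool.Agent.Y744.PCR.NTb

set_option autoImplicit false

/-! # Moments of the weighted local counts of zeros, without hypotheses -/

open Filter Topology MeasureTheory Set
open scoped ENNReal

namespace Pool.Agent.W2helper24.FP

open Pool.Agent.Q97.UM (Zw nz dp N2 TailB b_TAIL)
open Pool.Agent.Y744 (mz Zb Zt mz_nonneg mem_Zb short_count)

lemma dp_one (t : ℝ) : dp 1 (fun _ => 1) t = 1 := by
  unfold dp
  rw [Finset.Icc_self, Finset.sum_singleton]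
  simp

lemma N2_one : N2 1 (fun _ => (1 : ℂ)) = 1 := by
  unfold N2
  rw [Finset.Icc_self, Finset.sum_singleton]
  simp

lemma vol_of {S : Set ℝ} {T B : ℝ} (hS : S ⊆ Icc T (2 * T))
    (h : ∫ t in S, ‖dp 1 (fun _ => 1) t‖ ^ 2 ≤ B * N2 1 (fun _ => (1 : ℂ))) :
    volume S ≤ ENNReal.ofReal B := by
  simp only [dp_one, norm_one, one_pow, N2_one, mul_one] at h
  rw [setIntegral_const, smul_eq_mul, mul_one] at h
  have hfin : volume S ≠ ⊤ := by
    refine ((measure_mono hS).trans_lt ?_).ne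
    rw [Real.volume_Icc]
    exact ENNReal.ofReal_lt_top
  rw [← ENNReal.ofReal_toReal hfin]
  exact ENNReal.ofReal_le_ofReal h

/-- exponential tails of the local counts and of the distances from the critical line -/
lemma tails : ∃ c C T0 : ℝ, 0 < c ∧ 0 ≤ C ∧ 10 ≤ T0 ∧ ∀ T : ℝ, T0 ≤ T →
    (∀ A : ℝ, 0 ≤ A → volume {t : ℝ | T ≤ t ∧ t ≤ 2 * T ∧ ∃ ρ ∈ Zw t (1 / Real.log T),
      A / Real.log T ≤ |ρ.re - 1 / 2|} ≤ ENNReal.ofReal (C * Real.exp (-(c * A)) * T)) ∧
    (∀ K : ℕ, volume {t : ℝ | T ≤ t ∧ t ≤ 2 * T ∧ K ≤ nz t (1 / Real.log T)} ≤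
      ENNReal.ofReal (C * Real.exp (-(c * K)) * T)) := by
  obtain ⟨θ, c, C, hθ, _, hc, hC, h⟩ := b_TAIL
  obtain ⟨T1, hT1⟩ := h.exists_forall_of_atTop
  refine ⟨c, C, max T1 10, hc, hC, le_max_right _ _, fun T hT => ?_⟩
  have hT10 : 10 ≤ T := (le_max_right _ _).trans hT
  have h1 := hT1 T ((le_max_left _ _).trans hT) 1 (by
    rw [Nat.cast_one]
    exact Real.one_le_rpow (by linarith) hθ.le) (fun _ => 1)
  refine ⟨fun A hA => vol_of (T := T) (fun t ht => ⟨ht.1, ht.2.1⟩) (h1.1 A hA),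
    fun K => vol_of (T := T) (fun t ht => ⟨ht.1, ht.2.1⟩) (h1.2 K)⟩

lemma zw_fin (t r : ℝ) : (Zw t r).Finite := Pool.Agent.Q178.UM.ZF2.t_ZF2.1 t r

lemma nz_eq (t r : ℝ) : (nz t r : ℝ) = ∑ s ∈ (zw_fin t r).toFinset, mz s := by
  unfold nz
  rw [finsum_mem_eq_finite_toFinset_sum _ (zw_fin t r)]
  push_cast
  rfl

/-- geometric series in `ℝ≥0∞` -/
lemma geo {c B : ℝ} (hc : 0 < c) (hB : 0 ≤ B) :
    ∑' k : ℕ, ENNReal.ofReal (B * Real.exp (-(c * k))) =
      ENNReal.ofReal (B * (1 - Real.exp (-c))⁻¹) := by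
  have h1 : ∀ k : ℕ, Real.exp (-(c * k)) = Real.exp (-c) ^ k := fun k => by
    rw [← Real.exp_nat_mul]
    ring_nf
  have h0 : Real.exp (-c) < 1 := Real.exp_lt_one_iff.2 (by linarith)
  rw [← ENNReal.ofReal_tsum_of_nonneg (fun k => by positivity)]
  · congr 1
    simp_rw [h1]
    rw [tsum_mul_left, tsum_geometric_of_lt_one (Real.exp_pos _).le h0]
  · simp_rw [h1]
    exact (summable_geometric_of_lt_one (Real.exp_pos _).le h0).mul_left B

/-- layers -/
lemma layers {S : ℕ → Set ℝ} (hS : ∀ k, MeasurableSet (S k)) {c C D a T : ℝ} (hc : 0 < c)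
    (hC : 0 ≤ C) (hD : 0 ≤ D) (hT : 0 ≤ T)
    (hv : ∀ k : ℕ, volume (Icc a (2 * a) ∩ S k) ≤ ENNReal.ofReal (C * Real.exp (-(c * k)) * T)) :
    ∫⁻ t in Icc a (2 * a), ∑' k : ℕ, (S k).indicator
      (fun _ => ENNReal.ofReal (D * Real.exp (c / 2 * k))) t ≤
      ENNReal.ofReal (D * C * (1 - Real.exp (-(c / 2)))⁻¹ * T) := by
  rw [lintegral_tsum fun k => (measurable_const.indicator (hS k)).aemeasurable]
  have h1 : ∀ k : ℕ, ∫⁻ t in Icc a (2 * a), (S k).indicator
      (fun _ => ENNReal.ofReal (D * Real.exp (c / 2 * k))) t ≤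
      ENNReal.ofReal (D * C * T * Real.exp (-(c / 2 * k))) := by
    intro k
    rw [lintegral_indicator_const (hS k), Measure.restrict_apply (hS k), inter_comm]
    calc ENNReal.ofReal (D * Real.exp (c / 2 * k)) * volume (Icc a (2 * a) ∩ S k) ≤
          ENNReal.ofReal (D * Real.exp (c / 2 * k)) *
            ENNReal.ofReal (C * Real.exp (-(c * k)) * T) := by gcongr; exact hv k
      _ = ENNReal.ofReal (D * C * T * Real.exp (-(c / 2 * k))) := by
          rw [← ENNReal.ofReal_mul (by positivity)]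
          congr 1
          have : Real.exp (-(c / 2 * k)) = Real.exp (c / 2 * k) * Real.exp (-(c * k)) := by
            rw [← Real.exp_add]
            congr 1
            ring
          rw [this]
          ring
  refine (ENNReal.tsum_le_tsum h1).trans ?_
  rw [geo (by positivity) (by positivity)]
  apply le_of_eq
  congr 1
  ring

lemma pow_le_exp (p : ℕ) {c : ℝ} (hc : 0 < c) : ∃ D : ℝ, 0 ≤ D ∧ ∀ x : ℝ, 0 ≤ x →
    x ^ p ≤ D * Real.exp (c * x) := by
  refine ⟨p.factorial / c ^ p, by positivity, fun x hx => ?_⟩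
  have h := Real.pow_div_factorial_le_exp (c * x) (by positivity) p
  rw [div_le_iff₀ (by positivity), mul_pow] at h
  rw [div_mul_eq_mul_div, le_div_iff₀ (by positivity)]
  linarith

/-- the weighted local count in a block -/
noncomputable def Fw (κ V L t : ℝ) : ℝ :=
  ∑ s ∈ (Zb V (2 * V)).filter (fun s => |s.im - t| ≤ 1 / L),
    mz s * Real.exp (κ * |s.re - 1 / 2| * L)

lemma Fw_nonneg (κ V L t : ℝ) : 0 ≤ Fw κ V L t :=
  Finset.sum_nonneg fun s _ => mul_nonneg (mz_nonneg s) (Real.exp_pos _).le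

/-- the crude bound near the end points -/
lemma Fw_edge {κ : ℝ} (hκ : 0 ≤ κ) : ∃ C V0 : ℝ, 0 ≤ C ∧ 20 ≤ V0 ∧ ∀ V : ℝ, V0 ≤ V → ∀ L : ℝ,
    Real.log V ≤ L → L ≤ 2 * Real.log V → ∀ t : ℝ, (t < V ∨ 2 * V < t) →
      Fw κ V L t ≤ C * Real.log V ^ 2 * Real.exp (κ * Real.log V) ∧
        (Fw κ V L t ≠ 0 → t ∈ Icc (V - 1) V ∪ Icc (2 * V) (2 * V + 1)) := by
  obtain ⟨C1, hC1, hsc⟩ := short_count
  refine ⟨4 * C1, 20, by positivity, le_rfl, fun V hV L hL1 hL2 t ht => ?_⟩
  have hlV : 1 ≤ Real.log V := by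
    rw [Real.le_log_iff_exp_le (by linarith)]
    linarith [Real.exp_one_lt_d9]
  have hL : 1 ≤ L := hlV.trans hL1
  have hr : 1 / L ≤ 1 := by rw [div_le_one (by linarith)]; exact hL
  have hw : ∀ s ∈ Zb V (2 * V), Real.exp (κ * |s.re - 1 / 2| * L) ≤
      Real.exp (κ * Real.log V) := by
    intro s hs
    rw [mem_Zb (by linarith)] at hs
    have h1 : |s.re - 1 / 2| ≤ 1 / 2 := abs_le.2 ⟨by linarith [hs.1], by linarith [hs.2.1]⟩
    apply Real.exp_le_exp.2
    have h2 : |s.re - 1 / 2| * L ≤ Real.log V := by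
      calc |s.re - 1 / 2| * L ≤ 1 / 2 * (2 * Real.log V) := by gcongr
        _ = Real.log V := by ring
    calc κ * |s.re - 1 / 2| * L = κ * (|s.re - 1 / 2| * L) := by ring
      _ ≤ κ * Real.log V := by gcongr
  have hgen : ∀ U : ℝ, 10 ≤ U → U ≤ 2 * V → (∀ s ∈ (Zb V (2 * V)).filter
      (fun s => |s.im - t| ≤ 1 / L), U < s.im ∧ s.im ≤ U + 3) →
      Fw κ V L t ≤ 4 * C1 * Real.log V ^ 2 * Real.exp (κ * Real.log V) := by
    intro U hU hUV hsub
    have h1 : Fw κ V L t ≤ ∑ s ∈ (Zb V (2 * V)).filter (fun s => |s.im - t| ≤ 1 / L),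
        mz s * Real.exp (κ * Real.log V) :=
      Finset.sum_le_sum fun s hs => mul_le_mul_of_nonneg_left (hw s (Finset.mem_filter.1 hs).1)
        (mz_nonneg s)
    rw [← Finset.sum_mul] at h1
    refine h1.trans (mul_le_mul_of_nonneg_right ?_ (Real.exp_pos _).le)
    have h2 : ∑ s ∈ (Zb V (2 * V)).filter (fun s => |s.im - t| ≤ 1 / L), mz s ≤
        ∑ s ∈ Zb U (U + 3), mz s := by
      refine Finset.sum_le_sum_of_subset_of_nonneg (fun s hs => ?_) fun s _ _ => mz_nonneg s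
      obtain ⟨h3, h4⟩ := hsub s hs
      have h5 := (Finset.mem_filter.1 hs).1
      rw [mem_Zb (by linarith)] at h5 ⊢
      exact ⟨h5.1, h5.2.1, h3, h4, h5.2.2.2.2⟩
    refine (h2.trans (hsc U hU)).trans ?_
    have h3 : Real.log U ≤ 2 * Real.log V := by
      calc Real.log U ≤ Real.log (2 * V) := Real.log_le_log (by linarith) hUV
        _ = Real.log 2 + Real.log V := Real.log_mul (by norm_num) (by linarith)
        _ ≤ 2 * Real.log V := by
          have : Real.log 2 ≤ 1 := by linarith [Real.log_two_lt_d9]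
          linarith
    have h4 : 0 ≤ Real.log U := Real.log_nonneg (by linarith)
    have h5 := pow_le_pow_left₀ h4 h3 2
    calc C1 * Real.log U ^ 2 ≤ C1 * (2 * Real.log V) ^ 2 := by gcongr
      _ = _ := by ring
  have hmem : ∀ s ∈ (Zb V (2 * V)).filter (fun s => |s.im - t| ≤ 1 / L),
      V < s.im ∧ s.im ≤ 2 * V ∧ |s.im - t| ≤ 1 := by
    intro s hs
    obtain ⟨h1, h2⟩ := Finset.mem_filter.1 hs
    rw [mem_Zb (by linarith)] at h1
    exact ⟨h1.2.2.1, h1.2.2.2.1, h2.trans hr⟩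
  constructor
  · rcases ht with ht | ht
    · refine hgen V (by linarith) (by linarith) fun s hs => ?_
      obtain ⟨h1, h2, h3⟩ := hmem s hs
      obtain ⟨h4, h5⟩ := abs_le.1 h3
      exact ⟨h1, by linarith⟩
    · refine hgen (2 * V - 2) (by linarith) (by linarith) fun s hs => ?_
      obtain ⟨h1, h2, h3⟩ := hmem s hs
      obtain ⟨h4, h5⟩ := abs_le.1 h3
      exact ⟨by linarith, by linarith⟩
  · intro hne
    obtain ⟨s, hs, _⟩ := Finset.exists_ne_zero_of_sum_ne_zero hne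
    obtain ⟨h1, h2, h3⟩ := hmem s hs
    obtain ⟨h4, h5⟩ := abs_le.1 h3
    rcases ht with ht | ht
    · exact Or.inl ⟨by linarith, ht.le⟩
    · exact Or.inr ⟨ht.le, by linarith⟩

/-- **moments of the weighted local counts** -/
theorem mom (q : ℕ) (hq : 1 ≤ q) : ∃ κ0 C V0 : ℝ, 0 < κ0 ∧ 0 ≤ C ∧ 20 ≤ V0 ∧ ∀ V : ℝ, V0 ≤ V →
    ∀ L : ℝ, Real.log V ≤ L → L ≤ 2 * Real.log V →
    ∫⁻ t : ℝ, ENNReal.ofReal (Fw κ0 V L t ^ q) ≤ ENNReal.ofReal (C * V) := by
  obtain ⟨c, C, T0, hc, hC, hT0, htail⟩ := tails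
  obtain ⟨D, hD, hpow⟩ := pow_le_exp (2 * q) (c := c / 2) (by positivity)
  have hq0 : (0 : ℝ) < q := by exact_mod_cast (by omega : 0 < q)
  obtain ⟨κ, hκ⟩ : ∃ κ : ℝ, κ = min (c / (8 * q)) (1 / (4 * q)) := ⟨_, rfl⟩
  have hκ0 : 0 < κ := by rw [hκ]; exact lt_min (by positivity) (by positivity)
  have hκ1 : 4 * q * κ ≤ c / 2 := by
    have : κ ≤ c / (8 * q) := by rw [hκ]; exact min_le_left _ _
    rw [le_div_iff₀ (by positivity)] at this
    linarith
  have hκ2 : q * κ ≤ 1 / 4 := by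
    have : κ ≤ 1 / (4 * q) := by rw [hκ]; exact min_le_right _ _
    rw [le_div_iff₀ (by positivity)] at this
    linarith
  obtain ⟨C1, V1, hC1, hV1, hedge⟩ := Fw_edge (κ := κ) hκ0.le
  have ev : ∀ᶠ V : ℝ in atTop, (C1 * Real.log V ^ 2) ^ q ≤ V ^ (1 / 2 : ℝ) := by
    have h1 := (isLittleO_log_rpow_rpow_atTop (s := (1 / 2 : ℝ)) ((2 * q : ℕ) : ℝ)
      (by norm_num)).bound (show (0 : ℝ) < 1 / (C1 ^ q + 1) by positivity)
    filter_upwards [h1, eventually_ge_atTop (1 : ℝ)] with V hV hV1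
    have hl : 0 ≤ Real.log V := Real.log_nonneg hV1
    rw [Real.rpow_natCast, Real.norm_of_nonneg (by positivity), Real.norm_of_nonneg (by positivity),
      one_div_mul_eq_div, le_div_iff₀ (by positivity)] at hV
    rw [mul_pow, ← pow_mul]
    have : 0 ≤ Real.log V ^ (2 * q) := by positivity
    nlinarith
  obtain ⟨V2, hV2⟩ := ev.exists_forall_of_atTop
  set G : ℝ := (1 - Real.exp (-(c / 2)))⁻¹ with hG
  have hG0 : 0 ≤ G := by
    have : Real.exp (-(c / 2)) < 1 := Real.exp_lt_one_iff.2 (by linarith)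
    rw [hG]
    exact inv_nonneg.2 (by linarith)
  refine ⟨κ, D * C * G + Real.exp (c / 2) * C * G + 2, max (max T0 V1) (max V2 20), hκ0,
    by positivity, (le_max_right _ _).trans (le_max_right _ _), fun V hV L hL1 hL2 => ?_⟩
  have hVT : T0 ≤ V := ((le_max_left _ _).trans (le_max_left _ _)).trans hV
  have hVV1 : V1 ≤ V := ((le_max_right _ _).trans (le_max_left _ _)).trans hV
  have hVV2 : V2 ≤ V := ((le_max_left _ _).trans (le_max_right _ _)).trans hV
  have hV20 : 20 ≤ V := ((le_max_right _ _).trans (le_max_right _ _)).trans hV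
  have hlV : 1 ≤ Real.log V := by
    rw [Real.le_log_iff_exp_le (by linarith)]
    linarith [Real.exp_one_lt_d9]
  have hL : 1 ≤ L := hlV.trans hL1
  obtain ⟨ht1, ht2⟩ := htail V hVT
  set r : ℝ := 1 / Real.log V with hr
  have hrL : 1 / L ≤ r := one_div_le_one_div_of_le (by linarith) hL1
  -- the two families of sets
  set S1 : ℕ → Set ℝ := fun k => {t : ℝ | k ≤ nz t r} with hS1
  set S2 : ℕ → Set ℝ := fun k => {t : ℝ | ∃ ρ ∈ Zw t r, (k : ℝ) / Real.log V ≤ |ρ.re - 1 / 2|}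
    with hS2
  have mS1 : ∀ k, MeasurableSet (S1 k) := fun k => Pool.Agent.Q178.UM.ZF2.t_ZF2.2.1 r k
  have mS2 : ∀ k, MeasurableSet (S2 k) := fun k => Pool.Agent.Q178.UM.ZF2.t_ZF2.2.2 r _
  have v1 : ∀ k : ℕ, volume (Icc V (2 * V) ∩ S1 k) ≤
      ENNReal.ofReal (C * Real.exp (-(c * k)) * V) := fun k =>
    (measure_mono (fun t (ht : t ∈ Icc V (2 * V) ∩ S1 k) => ⟨ht.1.1, ht.1.2, ht.2⟩ :
      Icc V (2 * V) ∩ S1 k ⊆ {t : ℝ | V ≤ t ∧ t ≤ 2 * V ∧ k ≤ nz t (1 / Real.log V)})).trans (ht2 k)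
  have v2 : ∀ k : ℕ, volume (Icc V (2 * V) ∩ S2 k) ≤
      ENNReal.ofReal (C * Real.exp (-(c * k)) * V) := fun k =>
    (measure_mono (fun t (ht : t ∈ Icc V (2 * V) ∩ S2 k) => ⟨ht.1.1, ht.1.2, ht.2⟩ :
      Icc V (2 * V) ∩ S2 k ⊆ {t : ℝ | V ≤ t ∧ t ≤ 2 * V ∧ ∃ ρ ∈ Zw t (1 / Real.log V),
      (k : ℝ) / Real.log V ≤ |ρ.re - 1 / 2|})).trans (ht1 k (Nat.cast_nonneg _))
  have l1 := layers mS1 hc hC hD (show (0 : ℝ) ≤ V by linarith) v1
  have l2 := layers mS2 hc hC (Real.exp_pos (c / 2)).le (show (0 : ℝ) ≤ V by linarith) v2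
  set X1 : ℝ → ℝ≥0∞ := fun t => ∑' k : ℕ, (S1 k).indicator
      (fun _ => ENNReal.ofReal (D * Real.exp (c / 2 * k))) t with hX1
  set X2 : ℝ → ℝ≥0∞ := fun t => ∑' k : ℕ, (S2 k).indicator
      (fun _ => ENNReal.ofReal (Real.exp (c / 2) * Real.exp (c / 2 * k))) t with hX2
  -- pointwise bound
  have hpt : ∀ t, ENNReal.ofReal (Fw κ V L t ^ q) ≤ X1 t + X2 t := by
    intro t
    set N := (Zb V (2 * V)).filter (fun s => |s.im - t| ≤ 1 / L) with hN
    rcases N.eq_empty_or_nonempty with hN0 | hN0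
    · have : Fw κ V L t = 0 := by
        unfold Fw
        rw [← hN, hN0, Finset.sum_empty]
      rw [this, zero_pow (by omega), ENNReal.ofReal_zero]
      exact zero_le
    obtain ⟨s0, hs0, hmax⟩ := Finset.exists_max_image N
      (fun s => Real.exp (κ * |s.re - 1 / 2| * L)) hN0
    set g0 := Real.exp (κ * |s0.re - 1 / 2| * L) with hg0
    have hmem : ∀ s ∈ N, s ∈ Zw t r := by
      intro s hs
      obtain ⟨h1, h2⟩ := Finset.mem_filter.1 hs
      rw [mem_Zb (by linarith)] at h1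
      exact ⟨h1.2.2.2.2, h1.1, h1.2.1, h2.trans hrL⟩
    have hn : ∑ s ∈ N, mz s ≤ nz t r := by
      rw [nz_eq]
      refine Finset.sum_le_sum_of_subset_of_nonneg (fun s hs => ?_) fun s _ _ => mz_nonneg s
      rw [Set.Finite.mem_toFinset]
      exact hmem s hs
    have hF : Fw κ V L t ≤ nz t r * g0 := by
      calc Fw κ V L t ≤ ∑ s ∈ N, mz s * g0 :=
            Finset.sum_le_sum fun s hs => mul_le_mul_of_nonneg_left (hmax s hs) (mz_nonneg s)
        _ = (∑ s ∈ N, mz s) * g0 := by rw [Finset.sum_mul]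
        _ ≤ nz t r * g0 := mul_le_mul_of_nonneg_right hn (Real.exp_pos _).le
    have hFq : Fw κ V L t ^ q ≤ (nz t r : ℝ) ^ (2 * q) + g0 ^ (2 * q) := by
      have h1 := pow_le_pow_left₀ (Fw_nonneg κ V L t) hF q
      rw [mul_pow] at h1
      have h2 : (nz t r : ℝ) ^ (2 * q) = ((nz t r : ℝ) ^ q) ^ 2 := by rw [← pow_mul, mul_comm]
      have h3 : g0 ^ (2 * q) = (g0 ^ q) ^ 2 := by rw [← pow_mul, mul_comm]
      rw [h2, h3]
      nlinarith [sq_nonneg ((nz t r : ℝ) ^ q - g0 ^ q), sq_nonneg ((nz t r : ℝ) ^ q),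
        sq_nonneg (g0 ^ q)]
    refine (ENNReal.ofReal_le_ofReal hFq).trans ?_
    rw [ENNReal.ofReal_add (by positivity) (by positivity)]
    refine add_le_add ?_ ?_
    · calc ENNReal.ofReal ((nz t r : ℝ) ^ (2 * q)) ≤
            ENNReal.ofReal (D * Real.exp (c / 2 * (nz t r : ℕ))) :=
            ENNReal.ofReal_le_ofReal (hpow _ (Nat.cast_nonneg _))
        _ = (S1 (nz t r)).indicator
              (fun _ => ENNReal.ofReal (D * Real.exp (c / 2 * (nz t r : ℕ)))) t := by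
            rw [indicator_of_mem]
            show nz t r ≤ nz t r
            exact le_rfl
        _ ≤ X1 t := ENNReal.le_tsum (f := fun k : ℕ => (S1 k).indicator
              (fun _ => ENNReal.ofReal (D * Real.exp (c / 2 * k))) t) (nz t r)
    · set y : ℝ := |s0.re - 1 / 2| * Real.log V with hy
      have hy0 : 0 ≤ y := by positivity
      set j : ℕ := ⌊y⌋₊ with hj
      have hj1 : (j : ℝ) ≤ y := Nat.floor_le hy0
      have hj2 : y < j + 1 := Nat.lt_floor_add_one y
      have hg : g0 ^ (2 * q) ≤ Real.exp (c / 2) * Real.exp (c / 2 * j) := by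
        rw [hg0, ← Real.exp_nat_mul, ← Real.exp_add]
        apply Real.exp_le_exp.2
        push_cast
        have h1 : |s0.re - 1 / 2| * L ≤ 2 * y := by
          rw [hy]
          have := mul_le_mul_of_nonneg_left hL2 (abs_nonneg (s0.re - 1 / 2))
          linarith
        calc 2 * (q : ℝ) * (κ * |s0.re - 1 / 2| * L) = 2 * q * κ * (|s0.re - 1 / 2| * L) := by ring
          _ ≤ 2 * q * κ * (2 * y) := by gcongr
          _ = 4 * q * κ * y := by ring
          _ ≤ c / 2 * y := by gcongr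
          _ ≤ c / 2 * (j + 1) := by gcongr
          _ = _ := by ring
      calc ENNReal.ofReal (g0 ^ (2 * q)) ≤
            ENNReal.ofReal (Real.exp (c / 2) * Real.exp (c / 2 * j)) :=
            ENNReal.ofReal_le_ofReal hg
        _ = (S2 j).indicator
              (fun _ => ENNReal.ofReal (Real.exp (c / 2) * Real.exp (c / 2 * j))) t := by
            rw [indicator_of_mem]
            refine ⟨s0, hmem s0 hs0, ?_⟩
            rw [div_le_iff₀ (by linarith)]
            exact hj1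
        _ ≤ X2 t := ENNReal.le_tsum (f := fun k : ℕ => (S2 k).indicator
              (fun _ => ENNReal.ofReal (Real.exp (c / 2) * Real.exp (c / 2 * k))) t) j
  -- the edges
  set E : Set ℝ := Icc (V - 1) V ∪ Icc (2 * V) (2 * V + 1) with hE
  have hEm : MeasurableSet E := measurableSet_Icc.union measurableSet_Icc
  have hpt2 : ∀ t, t ∉ Icc V (2 * V) → ENNReal.ofReal (Fw κ V L t ^ q) ≤
      E.indicator (fun _ => ENNReal.ofReal V) t := by
    intro t ht
    have ht' : t < V ∨ 2 * V < t := by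
      by_contra hcon
      push Not at hcon
      exact ht ⟨hcon.1, hcon.2⟩
    obtain ⟨h1, h2⟩ := hedge V hVV1 L hL1 hL2 t ht'
    by_cases h0 : Fw κ V L t = 0
    · rw [h0, zero_pow (by omega), ENNReal.ofReal_zero]
      exact zero_le
    · rw [indicator_of_mem (h2 h0)]
      apply ENNReal.ofReal_le_ofReal
      have h3 := pow_le_pow_left₀ (Fw_nonneg κ V L t) h1 q
      refine h3.trans ?_
      rw [mul_pow]
      have h4 := hV2 V hVV2
      have h5 : Real.exp (κ * Real.log V) ^ q ≤ V ^ (1 / 4 : ℝ) := by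
        rw [← Real.exp_nat_mul, Real.rpow_def_of_pos (by linarith)]
        apply Real.exp_le_exp.2
        nlinarith
      calc (C1 * Real.log V ^ 2) ^ q * Real.exp (κ * Real.log V) ^ q ≤
            V ^ (1 / 2 : ℝ) * V ^ (1 / 4 : ℝ) := by gcongr
        _ = V ^ (3 / 4 : ℝ) := by rw [← Real.rpow_add (by linarith)]; norm_num
        _ ≤ V ^ (1 : ℝ) := Real.rpow_le_rpow_of_exponent_le (by linarith) (by norm_num)
        _ = V := Real.rpow_one V
  calc ∫⁻ t : ℝ, ENNReal.ofReal (Fw κ V L t ^ q) =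
        (∫⁻ t in Icc V (2 * V), ENNReal.ofReal (Fw κ V L t ^ q)) +
          ∫⁻ t in (Icc V (2 * V))ᶜ, ENNReal.ofReal (Fw κ V L t ^ q) :=
        (lintegral_add_compl _ measurableSet_Icc).symm
    _ ≤ (∫⁻ t in Icc V (2 * V), (X1 t + X2 t)) +
          ∫⁻ t in (Icc V (2 * V))ᶜ, E.indicator (fun _ => ENNReal.ofReal V) t := by
        refine add_le_add (lintegral_mono fun t => hpt t) ?_
        refine setLIntegral_mono (measurable_const.indicator hEm) fun t ht => hpt2 t ht
    _ ≤ (ENNReal.ofReal (D * C * G * V) + ENNReal.ofReal (Real.exp (c / 2) * C * G * V)) +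
          ENNReal.ofReal (2 * V) := by
        refine add_le_add ?_ ?_
        · rw [lintegral_add_left]
          · exact add_le_add l1 l2
          · exact Measurable.tsum fun k => measurable_const.indicator (mS1 k)
        · refine (setLIntegral_le_lintegral _ _).trans ?_
          rw [lintegral_indicator_const hEm]
          have h1 : volume E ≤ ENNReal.ofReal 2 := by
            refine (measure_union_le _ _).trans ?_
            rw [Real.volume_Icc, Real.volume_Icc, ← ENNReal.ofReal_add (by linarith) (by linarith)]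
            apply ENNReal.ofReal_le_ofReal
            linarith
          calc ENNReal.ofReal V * volume E ≤ ENNReal.ofReal V * ENNReal.ofReal 2 := by gcongr
            _ = ENNReal.ofReal (2 * V) := by
              rw [← ENNReal.ofReal_mul (by linarith)]
              congr 1
              ring
    _ = ENNReal.ofReal ((D * C * G + Real.exp (c / 2) * C * G + 2) * V) := by
        rw [← ENNReal.ofReal_add (by positivity) (by positivity),
          ← ENNReal.ofReal_add (by positivity) (by positivity)]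
        congr 1
        ring

end Pool.Agent.W2helper24.FP
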