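import Pool.Agent.W2helper24.FP.K5
import Pool.Agent.W2helper24.FP.Bad
import Pool.Agent.W2helper22.PC.MainQ

set_option autoImplicit false

/-! # Rigidity of the limits -/

open Filter Topology MeasureTheory Set
open scoped ENNReal Real

namespace Pool.Agent.W2helper24.FP

open Pool.Agent.Y744 Pool.Agent.W2helper22.PC

section

variable {κ : ℝ} {K : ℝ → ℝ} {h : ℝ}

lemma tk_lip (hK : TK κ K) : ∃ A : ℝ, 0 ≤ A ∧ ∀ x y, |K x - K y| ≤ A * |x - y| := by
  obtain ⟨C, hC⟩ := hK.smooth.lipschitzWith_of_hasCompactSupport hK.hcs (by simp)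
  refine ⟨C, C.coe_nonneg, fun x y => ?_⟩
  have := hC.dist_le_mul x y
  rwa [Real.dist_eq, Real.dist_eq] at this

lemma tk_bdd (hK : TK κ K) : ∃ A : ℝ, 0 ≤ A ∧ ∀ x, |K x| ≤ A := by
  obtain ⟨C, hC⟩ := hK.hcs.exists_bound_of_continuous hK.cont
  refine ⟨|C|, abs_nonneg _, fun x => ?_⟩
  have := hC x
  rw [Real.norm_eq_abs] at this
  exact this.trans (le_abs_self C)

lemma kav_lip (hK : TK κ K) (hh : 0 < h) :
    ∃ A : ℝ, 0 ≤ A ∧ ∀ x y, |Kav K h x - Kav K h y| ≤ A * |x - y| := by
  obtain ⟨A1, hA1, hl⟩ := tk_lip hK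
  obtain ⟨A2, hA2, hb⟩ := tk_bdd hK
  have hpi := Real.pi_pos
  have e0 : ∀ α, 2 * h * Real.sinc (2 * π * h * α) = ∫ u in (-h)..h, Real.cos (2 * π * u * α) := by
    intro α
    have := inner_cos h 0 α
    rw [zero_sub, zero_add, mul_zero, zero_mul, Real.cos_zero, mul_one] at this
    exact this.symm
  have hS : ∀ α, |2 * h * Real.sinc (2 * π * h * α)| ≤ 2 * h := by
    intro α
    rw [abs_mul, abs_of_pos (by positivity : 0 < 2 * h)]
    exact mul_le_of_le_one_right (by positivity) (Real.abs_sinc_le_one _)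
  have hSl : ∀ x y, |2 * h * Real.sinc (2 * π * h * x) - 2 * h * Real.sinc (2 * π * h * y)| ≤
      2 * π * h * (2 * h) * |x - y| := by
    intro x y
    rw [e0, e0, ← intervalIntegral.integral_sub
      ((by fun_prop : Continuous fun u : ℝ => Real.cos (2 * π * u * x)).intervalIntegrable _ _)
      ((by fun_prop : Continuous fun u : ℝ => Real.cos (2 * π * u * y)).intervalIntegrable _ _)]
    have h1 := intervalIntegral.norm_integral_le_of_norm_le_const (a := -h) (b := h)
      (f := fun u => Real.cos (2 * π * u * x) - Real.cos (2 * π * u * y))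
      (C := 2 * π * h * |x - y|) (by
        intro t ht
        rw [uIoc_of_le (by linarith)] at ht
        rw [Real.norm_eq_abs]
        have h2 : |Real.cos (2 * π * t * x) - Real.cos (2 * π * t * y)| ≤
            |2 * π * t * x - 2 * π * t * y| := by
          have := Real.lipschitzWith_cos.dist_le_mul (2 * π * t * x) (2 * π * t * y)
          rw [Real.dist_eq, Real.dist_eq, NNReal.coe_one, one_mul] at this
          exact this
        refine h2.trans ?_
        rw [← mul_sub, abs_mul, abs_mul, abs_of_pos (by positivity : 0 < 2 * π)]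
        have h3 : |t| ≤ h := abs_le.2 ⟨ht.1.le, ht.2⟩
        gcongr)
    rw [Real.norm_eq_abs] at h1
    refine h1.trans (le_of_eq ?_)
    rw [sub_neg_eq_add, abs_of_pos (by linarith : 0 < h + h)]
    ring
  refine ⟨A1 * (2 * h) + A2 * (2 * π * h * (2 * h)), by positivity, fun x y => ?_⟩
  unfold Kav
  have e : K x * (2 * h * Real.sinc (2 * π * h * x)) - K y * (2 * h * Real.sinc (2 * π * h * y)) =
      (K x - K y) * (2 * h * Real.sinc (2 * π * h * x)) +
      K y * (2 * h * Real.sinc (2 * π * h * x) - 2 * h * Real.sinc (2 * π * h * y)) := by ring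
  rw [e]
  refine (abs_add_le _ _).trans ?_
  rw [abs_mul (K x - K y), abs_mul (K y)]
  have h1 : |K x - K y| * |2 * h * Real.sinc (2 * π * h * x)| ≤ A1 * |x - y| * (2 * h) :=
    mul_le_mul (hl x y) (hS x) (abs_nonneg _) (by positivity)
  have h2 : |K y| * |2 * h * Real.sinc (2 * π * h * x) - 2 * h * Real.sinc (2 * π * h * y)| ≤
      A2 * (2 * π * h * (2 * h) * |x - y|) :=
    mul_le_mul (hb y) (hSl x y) (abs_nonneg _) hA2
  refine (add_le_add h1 h2).trans (le_of_eq ?_)
  ring

theorem tst_fav {κ' : ℝ} (hK : TK κ K) (hκ : κ < κ') (hh : 0 < h) :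
    Tst κ' (Kav K h) (fav K h) (fun y => ct K (y + h) - ct K (y - h)) where
  lip := kav_lip hK hh
  supp := fun x hx => Kav_supp hK x (hκ.trans_le hx)
  eq := fun x => (fav_eq hK hh x).symm
  dec := fav_decay hK hh
  der := fav_deriv hK h
  wc := (hK.ct_cont.comp (by fun_prop)).sub (hK.ct_cont.comp (by fun_prop))
  wd := by
    obtain ⟨D, hD⟩ := test_decay hK h
    refine ⟨D, ?_, hD⟩
    have := (abs_nonneg _).trans (hD 0)
    simpa using this

end

/-- **Montgomery's theorem for the limits, small band** -/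
theorem exact_small : ∃ κ1 : ℝ, 0 < κ1 ∧ κ1 < 1 ∧ ∀ (u : Filter ℝ) (A' : ℝ → ℝ) (C0 : ℝ),
    NeBot u → Lm u A' C0 → Tendsto (fun T => NofT T / Xf T) u (𝓝 0) →
    ∀ φ g w : ℝ → ℝ, Tst κ1 φ g w → ∫ y, A' y * w y = ∫ y, AG y * w y := by
  obtain ⟨κ1, hκ0, hκ1, hall⟩ := mont_off
  refine ⟨κ1, hκ0, hκ1, fun u A' C0 hne h hoff φ g w ht => ?_⟩
  obtain ⟨C1, hC1, hm⟩ := hall _ _ (ht.prof hκ0 hκ1.le)
  have l1 := h.tst ht
  have key : ∀ e : ℝ, 0 < e → |-(∫ y, A' y * w y) - mn φ 1| ≤ e := by
    intro e he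
    obtain ⟨c, hcd⟩ : ∃ c : ℝ, c = min 1 (e / (2 * (2 * C1 + 1))) := ⟨_, rfl⟩
    have hc : 0 < c := by
      rw [hcd]
      exact lt_min one_pos (by positivity)
    have hc1 : c ≤ 1 := by rw [hcd]; exact min_le_left _ _
    have hc2 : c * (2 * (2 * C1 + 1)) ≤ e := by
      have : c ≤ e / (2 * (2 * C1 + 1)) := by rw [hcd]; exact min_le_right _ _
      rwa [le_div_iff₀ (by positivity)] at this
    have h1 := hm κ1 c (c ^ 2) (e / 2) hκ0 le_rfl hc hc1 (by positivity) (by positivity)
    rw [dil_prof hκ0, mn_prof ht hκ0 hκ1.le] at h1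
    have l2 := (l1.sub_const (mn φ 1)).abs
    have l3 := (hoff.const_mul (C1 * (κ1 ^ 4 / (c * c ^ 2)))).const_add
      (e / 2 + C1 * (c + κ1 ^ 4 / c * c ^ 2))
    rw [mul_zero, add_zero] at l3
    have h2 := le_of_tendsto_of_tendsto l2 l3 (h.top h1)
    refine h2.trans ?_
    have h3 : κ1 ^ 4 / c * c ^ 2 ≤ c := by
      have e1 : κ1 ^ 4 / c * c ^ 2 = κ1 ^ 4 * c := by
        field_simp
      rw [e1]
      have : κ1 ^ 4 ≤ 1 := pow_le_one₀ hκ0.le hκ1.le
      nlinarith
    have h4 : C1 * (c + κ1 ^ 4 / c * c ^ 2) ≤ C1 * (c + c) :=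
      mul_le_mul_of_nonneg_left (by linarith) hC1
    linarith
  have h1 : -(∫ y, A' y * w y) - mn φ 1 = 0 := by
    rw [← abs_eq_zero]
    refine le_antisymm (le_of_forall_pos_le_add fun e he => ?_) (abs_nonneg _)
    rw [zero_add]
    exact key e he
  rw [ht.AG_main hκ1.le]
  linarith

lemma QSeq.tail {β : ℕ → ℝ} (hβ : QSeq β) : QSeq fun i => β (i + 1) where
  mono := fun _ _ hij => hβ.mono (Nat.succ_le_succ hij)
  pos := hβ.pos' _
  div := fun hs => hβ.div ((summable_nat_add_iff 1).1 hs)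

/-- **rigidity** -/
theorem rigid_all : ∀ (u : Filter ℝ) (A' : ℝ → ℝ) (C0 : ℝ), NeBot u → Lm u A' C0 → A' 0 = 1 →
    ∀ s : ℝ, (s = 1 ∨ s = -1) → ∀ β : ℕ → ℝ, QSeq β → ∀ B A : ℝ, 0 ≤ B → 0 < A →
    (∀ a, A ≤ a → ∀ k : ℕ, -(B * ∏ i ∈ Finset.range k, (β i / a) ^ 2) ≤ s * (A' a - AG a)) →
    ∀ x, A' x = AG x := by
  obtain ⟨κ1, hκ0, hκ1, hex⟩ := exact_small
  intro u A' C0 hne h h1 s hs β hβ B A hB hA hyp
  have hbad := h.bad h1
  have hoff : Tendsto (fun T => NofT T / Xf T) u (𝓝 0) := by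
    refine squeeze_zero' ?_ ?_ hbad
    · filter_upwards [h.top (eventually_gt_atTop (1 : ℝ))] with T hT
      exact div_nonneg (NofT_nonneg T) (Xf_pos hT).le
    · filter_upwards [h.top (eventually_gt_atTop (1 : ℝ))] with T hT
      exact div_le_div_of_nonneg_right (NofT_le_NbT T) (Xf_pos hT).le
  have hE := hex u A' C0 hne h hoff
  have hκ2 : 0 < κ1 / 2 := by positivity
  have hL : Lim (κ1 / 2) A' C0 := ⟨h.mono, h.neg, h.bd, h.one, fun K hK t ht =>
    hE _ _ _ (tst_fav hK (by linarith) ht)⟩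
  obtain ⟨C, hC, hCb⟩ := hL.bounded hκ2
  have hs1 : |s| = 1 := by rcases hs with rfl | rfl <;> simp
  set H : ℝ → ℝ := fun x => s * (x * dE A' x) with hH
  have hHm : Measurable H := measurable_const.mul (measurable_id.mul hL.meas)
  have hHe : ∀ x, H (-x) = H x := by
    intro x
    simp only [hH]
    rw [dE_odd]
    ring
  have hHb : ∀ x, |H x| ≤ C * (1 + x ^ 2) := by
    intro x
    simp only [hH]
    rw [abs_mul, hs1, one_mul, abs_mul, mul_comm]
    have h2 : |x| ≤ 1 + x ^ 2 := by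
      nlinarith [sq_abs x, sq_nonneg (|x| - 1), abs_nonneg x]
    exact mul_le_mul (hCb x) h2 (abs_nonneg _) hC
  have hHb2 : ∀ x, |H x| ≤ C * |x| := by
    intro x
    simp only [hH]
    rw [abs_mul, hs1, one_mul, abs_mul, mul_comm]
    exact mul_le_mul_of_nonneg_right (hCb x) (abs_nonneg _)
  obtain ⟨R, hRd⟩ : ∃ R : ℝ, R = A + 1 := ⟨_, rfl⟩
  have hR1 : 1 ≤ R := by linarith
  set η : ℝ → ℝ := fun x => max (-H x) 0 with hη
  have hη0 : ∀ x, 0 ≤ η x := fun x => le_max_right _ _
  have hηm : Measurable η := hHm.neg.max measurable_const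
  have hηJ : ∀ x, η x ≤ C * |x| := fun x =>
    max_le ((neg_le_abs _).trans (hHb2 x)) (by positivity)
  have hηe : ∀ x, η (-x) = η x := fun x => by
    simp only [hη]
    rw [hHe]
  have hP0 : ∀ k x, 0 ≤ ∏ i ∈ Finset.range k, (β i / x) ^ 2 := fun k x =>
    Finset.prod_nonneg fun m _ => sq_nonneg _
  have hfar0 : ∀ x, R ≤ x → ∀ k, η x ≤ x * (B * ∏ i ∈ Finset.range k, (β i / x) ^ 2) := by
    intro x hx k
    have hx0 : 0 < x := by linarith
    refine max_le ?_ (mul_nonneg hx0.le (mul_nonneg hB (hP0 k x)))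
    have h2 := hyp x (by linarith) k
    have h3 := mul_le_mul_of_nonneg_left h2 hx0.le
    simp only [hH]
    rw [dE_pos h.neg hx0]
    linarith
  have hfar : ∀ x, R ≤ |x| → ∀ k,
      η x ≤ |x| * (B * ∏ i ∈ Finset.range k, (β i / |x|) ^ 2) := by
    intro x hx k
    rcases abs_cases x with ⟨h1, _⟩ | ⟨h1, _⟩
    · rw [h1] at hx ⊢
      exact hfar0 x hx k
    · rw [h1] at hx ⊢
      rw [← hηe]
      exact hfar0 (-x) hx k
  have hβ' := (QSeq.tail hβ).shift (R := R) (by linarith)
  set β' : ℕ → ℝ := fun i => 2 * β (i + 1 + 1) + R with hβ'd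
  set Q : ℕ → ℝ := fun k => ∏ i ∈ Finset.range k, β' i ^ 2 with hQ
  have hQR : ∀ k, R ^ (2 * k) ≤ Q k := by
    intro k
    have e : R ^ (2 * k) = ∏ _i ∈ Finset.range k, R ^ 2 := by
      rw [Finset.prod_const, Finset.card_range, pow_mul]
    rw [e]
    refine Finset.prod_le_prod (fun i _ => sq_nonneg _) fun i _ => ?_
    have := hβ.pos' (i + 1 + 1)
    exact pow_le_pow_left₀ (by linarith) (by simp only [hβ'd]; linarith) 2
  have hQβ : ∀ k, ∏ i ∈ Finset.range (k + 1 + 1), β i ^ 2 ≤ (β 1 ^ 2 * β 0 ^ 2) * Q k := by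
    intro k
    rw [Finset.prod_range_succ', Finset.prod_range_succ', mul_assoc, mul_comm]
    refine mul_le_mul_of_nonneg_left (Finset.prod_le_prod (fun i _ => sq_nonneg _)
      fun i _ => ?_) (by positivity)
    have := hβ.pos' (i + 1 + 1)
    exact pow_le_pow_left₀ (by linarith) (by simp only [hβ'd]; linarith) 2
  set W := C * R * (1 + R ^ 2) + 2 * B * (β 1 ^ 2 * β 0 ^ 2) with hW
  have hW0 : 0 ≤ W := by positivity
  have hpt : ∀ (k : ℕ) (x : ℝ), η x * x ^ (2 * k) ≤ W * Q k * (1 + x ^ 2)⁻¹ := by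
    intro k x
    have hQ0 : 0 ≤ Q k := Finset.prod_nonneg fun i _ => sq_nonneg _
    rw [← div_eq_mul_inv, le_div_iff₀ (by positivity)]
    by_cases hx : R ≤ |x|
    · have h1 := hfar x hx (k + 1 + 1)
      have hx0 : 0 < |x| := by linarith
      have hx1 : 1 ≤ |x| := hR1.trans hx
      have e1 : ∏ m ∈ Finset.range (k + 1 + 1), (β m / |x|) ^ 2 =
          (∏ m ∈ Finset.range (k + 1 + 1), β m ^ 2) / x ^ (2 * (k + 1 + 1)) := by
        simp_rw [div_pow, Finset.prod_div_distrib, Finset.prod_const, Finset.card_range,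
          sq_abs, ← pow_mul]
      rw [e1] at h1
      have hxk : 0 < x ^ (2 * (k + 1 + 1)) := by
        rw [pow_mul, ← sq_abs]
        positivity
      have hxk0 : 0 ≤ x ^ (2 * k) := by
        rw [pow_mul]
        positivity
      have h2 : 1 + x ^ 2 ≤ 2 * x ^ 2 := by
        have : 1 ≤ x ^ 2 := by
          rw [← sq_abs]
          nlinarith
        linarith
      have hPn : 0 ≤ ∏ m ∈ Finset.range (k + 1 + 1), β m ^ 2 :=
        Finset.prod_nonneg fun _ _ => sq_nonneg _
      have h5 : η x * x ^ (2 * (k + 1 + 1)) ≤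
          |x| * (B * ∏ m ∈ Finset.range (k + 1 + 1), β m ^ 2) := by
        have h3 := mul_le_mul_of_nonneg_right h1 hxk.le
        refine h3.trans (le_of_eq ?_)
        field_simp
      have h6 : η x * x ^ (2 * (k + 1)) * |x| ≤ B * ∏ m ∈ Finset.range (k + 1 + 1), β m ^ 2 := by
        have h7 : (η x * x ^ (2 * (k + 1)) * |x|) * |x| ≤
            (B * ∏ m ∈ Finset.range (k + 1 + 1), β m ^ 2) * |x| := by
          have e2 : (η x * x ^ (2 * (k + 1)) * |x|) * |x| = η x * x ^ (2 * (k + 1 + 1)) := by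
            have : |x| * |x| = x ^ 2 := by rw [← sq_abs]; ring
            rw [mul_assoc, this, mul_assoc, ← pow_add]
            congr 2
          rw [e2]
          linarith
        exact le_of_mul_le_mul_right h7 hx0
      have h8 : η x * x ^ (2 * (k + 1)) ≤ B * ∏ m ∈ Finset.range (k + 1 + 1), β m ^ 2 := by
        refine le_trans ?_ h6
        have : 0 ≤ η x * x ^ (2 * (k + 1)) := mul_nonneg (hη0 x) (by
          rw [pow_mul]
          positivity)
        nlinarith
      calc η x * x ^ (2 * k) * (1 + x ^ 2) ≤ η x * x ^ (2 * k) * (2 * x ^ 2) :=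
            mul_le_mul_of_nonneg_left h2 (mul_nonneg (hη0 x) hxk0)
        _ = 2 * (η x * x ^ (2 * (k + 1))) := by
            rw [mul_add, pow_add, mul_one]
            ring
        _ ≤ 2 * (B * ∏ m ∈ Finset.range (k + 1 + 1), β m ^ 2) := by linarith
        _ ≤ 2 * (B * ((β 1 ^ 2 * β 0 ^ 2) * Q k)) := by
            have := mul_le_mul_of_nonneg_left (hQβ k) hB
            linarith
        _ ≤ W * Q k := by
            rw [hW]
            have : 0 ≤ C * R * (1 + R ^ 2) * Q k := by positivity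
            nlinarith
    · push Not at hx
      have h1 : x ^ (2 * k) ≤ R ^ (2 * k) := by
        rw [pow_mul, pow_mul, ← sq_abs]
        exact pow_le_pow_left₀ (sq_nonneg _) (pow_le_pow_left₀ (abs_nonneg _) hx.le 2) k
      have h2 : 1 + x ^ 2 ≤ 1 + R ^ 2 := by
        rw [← sq_abs]
        have := pow_le_pow_left₀ (abs_nonneg _) hx.le 2
        linarith
      have hxk0 : 0 ≤ x ^ (2 * k) := by
        rw [pow_mul]
        positivity
      have h3 : η x ≤ C * R := (hηJ x).trans (mul_le_mul_of_nonneg_left hx.le hC)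
      calc η x * x ^ (2 * k) * (1 + x ^ 2) ≤ (C * R) * R ^ (2 * k) * (1 + R ^ 2) := by
            refine mul_le_mul (mul_le_mul h3 h1 hxk0 (by positivity)) h2 (by positivity)
              (by positivity)
        _ ≤ (C * R) * Q k * (1 + R ^ 2) := by
            refine mul_le_mul_of_nonneg_right (mul_le_mul_of_nonneg_left (hQR k) (by positivity))
              (by positivity)
        _ ≤ W * Q k := by
            rw [hW]
            have : 0 ≤ 2 * B * (β 1 ^ 2 * β 0 ^ 2) * Q k := by positivity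
            nlinarith
  have hpi := Real.pi_pos
  have hmom : ∀ k : ℕ, ∫⁻ x, ENNReal.ofReal (η x * x ^ (2 * k)) ≤
      ENNReal.ofReal ((W * π + 1) * ∏ i ∈ Finset.range k, β' i ^ 2) := by
    intro k
    have hQ0 : 0 ≤ Q k := Finset.prod_nonneg fun i _ => sq_nonneg _
    have hi : Integrable fun x : ℝ => W * Q k * (1 + x ^ 2)⁻¹ :=
      integrable_inv_one_add_sq.const_mul _
    calc ∫⁻ x, ENNReal.ofReal (η x * x ^ (2 * k)) ≤
          ∫⁻ x, ENNReal.ofReal (W * Q k * (1 + x ^ 2)⁻¹) :=
          lintegral_mono fun x => ENNReal.ofReal_le_ofReal (hpt k x)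
      _ = ENNReal.ofReal (∫ x, W * Q k * (1 + x ^ 2)⁻¹) :=
          (ofReal_integral_eq_lintegral_ofReal hi (Eventually.of_forall fun x => by
            show 0 ≤ W * Q k * (1 + x ^ 2)⁻¹
            positivity)).symm
      _ ≤ _ := by
          refine ENNReal.ofReal_le_ofReal ?_
          rw [integral_const_mul, integral_univ_inv_one_add_sq]
          show W * Q k * π ≤ (W * π + 1) * Q k
          linarith
  have hz : ∀ K, TK (κ1 / 2) K → ∫ x, H x * ct K x = 0 := by
    intro K hK
    have ht := tst_hd hK (κ' := κ1) (by linarith) hκ0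
    have h2 := hE _ _ _ ht
    have i1 : Integrable fun y => A' y * -(y * ct K y) := poly_int ht h.mono.measurable h.bd
    have i2 : Integrable fun y => AG y * -(y * ct K y) := poly_int ht AG_meas AG_bound
    have i3 : Integrable fun y => (A' y - AG y) * (y * ct K y) := by
      refine (i2.sub i1).congr (Eventually.of_forall fun y => ?_)
      show AG y * -(y * ct K y) - A' y * -(y * ct K y) = _
      ring
    have e1 : ∫ y, (A' y - AG y) * (y * ct K y) = 0 := by
      have : ∫ y, (A' y - AG y) * (y * ct K y) =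
          (∫ y, AG y * -(y * ct K y)) - ∫ y, A' y * -(y * ct K y) := by
        rw [← integral_sub i2 i1]
        refine integral_congr_ae (Eventually.of_forall fun y => ?_)
        show (A' y - AG y) * (y * ct K y) = AG y * -(y * ct K y) - A' y * -(y * ct K y)
        ring
      rw [this, h2, sub_self]
    have e2 : ∫ y, (A' (-y) - AG (-y)) * (y * ct K y) = 0 := by
      have h3 : ∫ y, (A' (-y) - AG (-y)) * (y * ct K y) =
          ∫ y, -((fun y => (A' y - AG y) * (y * ct K y)) (-y)) := by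
        refine integral_congr_ae (Eventually.of_forall fun y => ?_)
        show (A' (-y) - AG (-y)) * (y * ct K y) = -((A' (-y) - AG (-y)) * (-y * ct K (-y)))
        rw [TK.ct_neg]
        ring
      rw [h3, integral_neg, integral_neg_eq_self (fun y => (A' y - AG y) * (y * ct K y)) volume,
        e1, neg_zero]
    have i4 : Integrable fun y => (A' (-y) - AG (-y)) * (y * ct K y) := by
      refine i3.comp_neg.neg.congr (Eventually.of_forall fun y => ?_)
      show -((A' (-y) - AG (-y)) * (-y * ct K (-y))) = _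
      rw [TK.ct_neg]
      ring
    have e3 : ∫ x, H x * ct K x = s * ((∫ y, (A' y - AG y) * (y * ct K y)) -
        ∫ y, (A' (-y) - AG (-y)) * (y * ct K y)) := by
      rw [← integral_sub i3 i4, ← integral_const_mul]
      refine integral_congr_ae (Eventually.of_forall fun y => ?_)
      show s * (y * dE A' y) * ct K y = s * ((A' y - AG y) * (y * ct K y) -
        (A' (-y) - AG (-y)) * (y * ct K y))
      unfold dE
      ring
    rw [e3, e1, e2]
    ring
  have hae := high_passQ (H := H) (η := η) (B := C) (B₁ := W * π + 1) (β := β') hκ2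
    hHm hHe hHb hηm hη0 hβ' (by positivity) hmom (Eventually.of_forall fun x => by
      have := le_max_left (-H x) 0
      simp only [hη]
      linarith) hz
  have hdE : ∀ᵐ x, dE A' x = 0 := by
    have h0 : ∀ᵐ x : ℝ, x ≠ 0 := by
      rw [ae_iff]
      simp
    filter_upwards [hae, h0] with x hx hx0
    have hs0 : s ≠ 0 := by rcases hs with rfl | rfl <;> norm_num
    have h2 : s * (x * dE A' x) = 0 := hx
    exact (mul_eq_zero.1 ((mul_eq_zero.1 h2).resolve_left hs0)).resolve_left hx0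
  have hper : ∀ l : ℝ, ∀ᵐ x, dE A' (x + l) = dE A' x := by
    intro l
    have h2 := (measurePreserving_add_right (volume : Measure ℝ) l).quasiMeasurePreserving.ae hdE
    filter_upwards [hdE, h2] with x hx hx2
    rw [hx, hx2]
  have hirr : Irrational (Real.sqrt 2 / 1) := by
    rw [div_one]
    exact irrational_sqrt_two
  exact fun x => limit_eq h.mono h.neg h.bd h.one hirr (hper _) (hper _) x

end Pool.Agent.W2helper24.FP
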