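import Pool.Agent.W2helper24.FP.Blk
import Pool.Agent.Y744.PCR.Fin

set_option autoImplicit false

/-! # Test functions with their derivatives -/

open Filter Topology MeasureTheory Set
open scoped ENNReal Real

namespace Pool.Agent.W2helper24.FP

open Pool.Agent.Y744

/-- test functions with their derivatives -/
structure Tst (κ : ℝ) (φ g w : ℝ → ℝ) : Prop where
  lip : ∃ A : ℝ, 0 ≤ A ∧ ∀ x y, |φ x - φ y| ≤ A * |x - y|
  supp : ∀ x, κ ≤ |x| → φ x = 0
  eq : ∀ x, ct φ x = g x
  dec : ∃ D : ℝ, 0 ≤ D ∧ ∀ y, |g y| ≤ D / (1 + y ^ 2) ^ 2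
  der : ∀ y, HasDerivAt g (w y) y
  wc : Continuous w
  wd : ∃ D : ℝ, 0 ≤ D ∧ ∀ y, |w y| ≤ D / (1 + y ^ 2) ^ 2

lemma dec_int {w : ℝ → ℝ} (hw : Continuous w) {D : ℝ} (hD : 0 ≤ D)
    (hwd : ∀ y, |w y| ≤ D / (1 + y ^ 2) ^ 2) : Integrable w := by
  refine (integrable_inv_one_add_sq.const_mul D).mono' hw.aestronglyMeasurable
    (Eventually.of_forall fun x => ?_)
  rw [Real.norm_eq_abs, ← div_eq_mul_inv]
  exact dec_one hD hwd x

lemma scale_of_deriv {g w : ℝ → ℝ} (hd : ∀ y, HasDerivAt g (w y) y) {D : ℝ} (hD0 : 0 ≤ D)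
    (hD : ∀ y, |w y| ≤ D / (1 + y ^ 2) ^ 2) (y s : ℝ) (hs : 1 ≤ s) :
    |g (s * y) - g y| ≤ D * (s - 1) / (1 + y ^ 2) := by
  have h1 : ∀ t ∈ Set.Icc (1 : ℝ) s, HasDerivWithinAt (fun t => g (t * y))
      (w (t * y) * y) (Set.Icc 1 s) t := by
    intro t _
    have h2 : HasDerivAt (fun t : ℝ => t * y) y t := by
      simpa using (hasDerivAt_id t).mul_const y
    exact ((hd (t * y)).comp t h2).hasDerivWithinAt
  have h2 : ∀ t ∈ Set.Icc (1 : ℝ) s, ‖w (t * y) * y‖ ≤ D / (1 + y ^ 2) := by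
    intro t ht
    rw [norm_mul, Real.norm_eq_abs, Real.norm_eq_abs]
    have h3 := hD (t * y)
    have h4 : 1 + y ^ 2 ≤ 1 + (t * y) ^ 2 := by
      have h5 : y ^ 2 * 1 ≤ y ^ 2 * t ^ 2 :=
        mul_le_mul_of_nonneg_left (one_le_pow₀ ht.1) (sq_nonneg y)
      nlinarith
    have h5 : D / (1 + (t * y) ^ 2) ^ 2 ≤ D / (1 + y ^ 2) ^ 2 := by
      gcongr
    have h6 : |y| ≤ 1 + y ^ 2 := by
      nlinarith [sq_abs y, sq_nonneg (|y| - 1), abs_nonneg y]
    calc |w (t * y)| * |y| ≤ D / (1 + y ^ 2) ^ 2 * (1 + y ^ 2) := by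
          refine mul_le_mul (h3.trans h5) h6 (abs_nonneg _) (by positivity)
      _ = D / (1 + y ^ 2) := by field_simp
  have h3 := Convex.norm_image_sub_le_of_norm_hasDerivWithin_le h1 h2 (convex_Icc 1 s)
    (Set.left_mem_Icc.2 hs) (Set.right_mem_Icc.2 hs)
  rw [Real.norm_eq_abs, Real.norm_eq_abs, abs_of_nonneg (by linarith : 0 ≤ s - 1), one_mul] at h3
  refine h3.trans (le_of_eq ?_)
  ring

lemma dec_tendsto {g : ℝ → ℝ} {D : ℝ} (hD0 : 0 ≤ D) (hD : ∀ y, |g y| ≤ D / (1 + y ^ 2) ^ 2) :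
    Tendsto g atTop (𝓝 0) := by
  have h1 : Tendsto (fun y : ℝ => D * y⁻¹) atTop (𝓝 (D * 0)) :=
    tendsto_inv_atTop_zero.const_mul D
  rw [mul_zero] at h1
  refine squeeze_zero_norm' ?_ h1
  filter_upwards [eventually_ge_atTop (1 : ℝ)] with y hy
  rw [Real.norm_eq_abs]
  refine (hD y).trans ?_
  rw [div_eq_mul_inv]
  refine mul_le_mul_of_nonneg_left ?_ hD0
  refine inv_anti₀ (by linarith) ?_
  nlinarith [sq_nonneg y, sq_nonneg (y ^ 2)]

section

variable {κ : ℝ} {φ g w : ℝ → ℝ}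

lemma Tst.even (h : Tst κ φ g w) (x : ℝ) : g (-x) = g x := by
  rw [← h.eq, ← h.eq, TK.ct_neg]

lemma Tst.cont (h : Tst κ φ g w) : Continuous φ := by
  obtain ⟨A, hA, hl⟩ := h.lip
  have : LipschitzWith A.toNNReal φ := by
    refine LipschitzWith.of_dist_le_mul fun x y => ?_
    rw [Real.dist_eq, Real.dist_eq, Real.coe_toNNReal _ hA]
    exact hl x y
  exact this.continuous

lemma Tst.wint (h : Tst κ φ g w) : Integrable w := by
  obtain ⟨D, hD0, hD⟩ := h.wd
  exact dec_int h.wc hD0 hD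

lemma Tst.gcont (h : Tst κ φ g w) : Continuous g :=
  continuous_iff_continuousAt.2 fun y => (h.der y).continuousAt

lemma Tst.tail (h : Tst κ φ g w) (t : ℝ) : ∫ y in Set.Ioi t, w y = -g t := by
  obtain ⟨D, hD0, hD⟩ := h.dec
  rw [integral_Ioi_of_hasDerivAt_of_tendsto' (fun y _ => h.der y) h.wint.integrableOn
    (dec_tendsto hD0 hD)]
  ring

/-- the integrals of the counting functions -/
lemma Tst.Aa_int (h : Tst κ φ g w) (T : ℝ) :
    ∫ y, Aa T y * w y = -((Xf T)⁻¹ * Q2 g T (Real.log T)) := by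
  have hw := h.wint
  have e1 : ∀ y, Aa T y * w y = (Xf T)⁻¹ * ∑ s ∈ Zt T, ∑ s' ∈ Zt T, mz s * mz s' *
        (Set.Ici |dd T s s'|).indicator w y := by
    intro y
    unfold Aa PC
    rw [mul_assoc, Finset.sum_mul]
    congr 1
    refine Finset.sum_congr rfl fun s _ => ?_
    rw [Finset.sum_mul]
    refine Finset.sum_congr rfl fun s' _ => ?_
    rw [mul_assoc]
    congr 1
    by_cases hx : |dd T s s'| ≤ y
    · rw [Set.indicator_of_mem (show dd T s s' ∈ {x | |x| ≤ y} from hx),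
        Set.indicator_of_mem (show y ∈ Set.Ici |dd T s s'| from hx), one_mul]
    · rw [Set.indicator_of_notMem (show dd T s s' ∉ {x | |x| ≤ y} from hx),
        Set.indicator_of_notMem (show y ∉ Set.Ici |dd T s s'| from hx), zero_mul]
  simp_rw [e1]
  have hi : ∀ t : ℝ, Integrable ((Set.Ici t).indicator w) := fun t =>
    hw.indicator measurableSet_Ici
  rw [integral_const_mul, integral_finsetSum _ fun s _ => integrable_finsetSum _ fun s' _ =>
    (hi _).const_mul _]
  rw [← mul_neg]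
  congr 1
  unfold Q2 QS
  rw [← Finset.sum_neg_distrib]
  refine Finset.sum_congr rfl fun s _ => ?_
  rw [integral_finsetSum _ fun s' _ => (hi _).const_mul _, ← Finset.sum_neg_distrib]
  refine Finset.sum_congr rfl fun s' _ => ?_
  rw [integral_const_mul, integral_indicator measurableSet_Ici, integral_Ici_eq_integral_Ioi,
    h.tail]
  have : g |dd T s s'| = g ((s.im - s'.im) * Real.log T / (2 * π)) := by
    show g |dd T s s'| = g (dd T s s')
    rcases abs_cases (dd T s s') with ⟨h1, _⟩ | ⟨h1, _⟩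
    · rw [h1]
    · rw [h1, h.even]
  rw [this]
  ring

lemma poly_int (h : Tst κ φ g w) {f : ℝ → ℝ} (hf : Measurable f) {B : ℝ}
    (hB : ∀ x, |f x| ≤ B * (1 + x ^ 2)) : Integrable fun y => f y * w y := by
  obtain ⟨D, hD0, hD⟩ := h.wd
  have hB0 : 0 ≤ B := by
    have := (abs_nonneg _).trans (hB 0)
    simpa using this
  refine (integrable_inv_one_add_sq.const_mul (B * D)).mono'
    (hf.mul h.wc.measurable).aestronglyMeasurable (Eventually.of_forall fun y => ?_)
  rw [Real.norm_eq_abs, abs_mul]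
  calc |f y| * |w y| ≤ (B * (1 + y ^ 2)) * (D / (1 + y ^ 2) ^ 2) :=
        mul_le_mul (hB y) (hD y) (abs_nonneg _) (by positivity)
    _ = B * D * (1 + y ^ 2)⁻¹ := by field_simp

/-- the integral of the predicted counting function -/
lemma Tst.AG_int (h : Tst κ φ g w) : ∫ y, AG y * w y = -(g 0 + ∫ y, g y * gd y) := by
  obtain ⟨D, hD0, hD⟩ := h.dec
  obtain ⟨D2, hD20, hD2⟩ := h.wd
  have hfc := h.gcont
  -- integrability
  have i1 : Integrable fun y => g y * gd y := by
    refine (integrable_inv_one_add_sq.const_mul D).mono'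
      (hfc.mul gd_cont).aestronglyMeasurable (Eventually.of_forall fun y => ?_)
    rw [Real.norm_eq_abs, abs_mul, abs_of_nonneg (gd_nonneg y)]
    have h1 : (1 : ℝ) ≤ 1 + y ^ 2 := by nlinarith [sq_nonneg y]
    calc |g y| * gd y ≤ D / (1 + y ^ 2) ^ 2 * 1 :=
          mul_le_mul (hD y) (gd_le y) (gd_nonneg y) (by positivity)
      _ ≤ D * (1 + y ^ 2)⁻¹ := by
          rw [mul_one, div_eq_mul_inv]
          refine mul_le_mul_of_nonneg_left ?_ hD0
          refine inv_anti₀ (by positivity) ?_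
          nlinarith
  have i2 : Integrable fun y => AG y * w y := poly_int h AG_meas AG_bound
  -- reduction to the half line
  have e1 : ∫ y, AG y * w y = ∫ y in Set.Ioi 0, (1 + 2 * gp y) * w y := by
    rw [← integral_add_compl (measurableSet_Iic (a := (0 : ℝ))) i2]
    have h1 : ∫ y in Set.Iic (0 : ℝ), AG y * w y = 0 := by
      rw [integral_Iic_eq_integral_Iio]
      refine setIntegral_eq_zero_of_forall_eq_zero fun y hy => ?_
      have hy' : y < 0 := hy
      unfold AG
      rw [if_pos hy', zero_mul]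
    rw [h1, zero_add, Set.compl_Iic]
    refine setIntegral_congr_fun measurableSet_Ioi fun y hy => ?_
    have hy' : (0 : ℝ) < y := hy
    show AG y * _ = _
    unfold AG
    rw [if_neg (by linarith)]
  set G : ℝ → ℝ := fun y => (1 + 2 * gp y) * g y with hG
  have hGd : ∀ y, HasDerivAt G (2 * gd y * g y + (1 + 2 * gp y) * w y) y := by
    intro y
    have h1 : HasDerivAt (fun y => 1 + 2 * gp y) (2 * gd y) y :=
      ((gp_deriv y).const_mul 2).const_add 1
    exact h1.mul (h.der y)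
  have j1 : IntegrableOn (fun y => 2 * gd y * g y) (Set.Ioi 0) := by
    have := (i1.const_mul 2).integrableOn (s := Set.Ioi (0 : ℝ))
    refine this.congr_fun (fun y _ => ?_) measurableSet_Ioi
    show 2 * (g y * gd y) = _
    ring
  have j2 : IntegrableOn (fun y => (1 + 2 * gp y) * w y) (Set.Ioi 0) := by
    refine (i2.integrableOn (s := Set.Ioi (0 : ℝ))).congr_fun (fun y hy => ?_) measurableSet_Ioi
    have hy' : (0 : ℝ) < y := hy
    show AG y * _ = _
    unfold AG
    rw [if_neg (by linarith)]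
  have hGt : Tendsto G atTop (𝓝 0) := by
    have h1 : Tendsto (fun y : ℝ => 3 * D * y⁻¹) atTop (𝓝 (3 * D * 0)) :=
      tendsto_inv_atTop_zero.const_mul (3 * D)
    rw [mul_zero] at h1
    refine squeeze_zero_norm' ?_ h1
    filter_upwards [eventually_ge_atTop (1 : ℝ)] with y hy
    rw [Real.norm_eq_abs, hG]
    show |(1 + 2 * gp y) * g y| ≤ _
    have h2 := gp_nonneg (x := y) (by linarith)
    have h3 := gp_le (x := y) (by linarith)
    rw [abs_mul, abs_of_nonneg (by linarith)]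
    have hy0 : 0 < y := by linarith
    have h4 : D / (1 + y ^ 2) ^ 2 ≤ D * (y⁻¹ * y⁻¹) := by
      rw [div_eq_mul_inv, ← mul_inv]
      refine mul_le_mul_of_nonneg_left ?_ hD0
      refine inv_anti₀ (by positivity) ?_
      nlinarith [sq_nonneg y, sq_nonneg (y ^ 2)]
    calc (1 + 2 * gp y) * |g y| ≤ (3 * y) * (D * (y⁻¹ * y⁻¹)) := by
          refine mul_le_mul (by linarith) ((hD y).trans h4) (abs_nonneg _) (by positivity)
      _ = 3 * D * y⁻¹ := by field_simp
  have key := integral_Ioi_of_hasDerivAt_of_tendsto' (a := 0) (fun y _ => hGd y) (j1.add j2) hGt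
  rw [integral_add j1 j2] at key
  have hG0 : G 0 = g 0 := by
    simp only [hG, gp_zero]
    ring
  rw [hG0] at key
  -- evenness
  have e2 : ∫ y in Set.Ioi (0 : ℝ), 2 * gd y * g y = ∫ y, g y * gd y := by
    have h1 : ∫ y in Set.Ioi (0 : ℝ), 2 * gd y * g y =
        2 * ∫ y in Set.Ioi (0 : ℝ), g y * gd y := by
      rw [← integral_const_mul]
      refine integral_congr_ae (Eventually.of_forall fun y => ?_)
      show 2 * gd y * g y = _
      ring
    have h2 := integral_comp_abs (f := fun y => g y * gd y)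
    have h3 : ∫ y : ℝ, (fun y => g y * gd y) |y| = ∫ y, g y * gd y := by
      refine integral_congr_ae (Eventually.of_forall fun y => ?_)
      show g |y| * gd |y| = g y * gd y
      rcases abs_cases y with ⟨hy, _⟩ | ⟨hy, _⟩
      · rw [hy]
      · rw [hy, h.even]
        congr 1
        unfold gd
        rw [mul_neg, Real.sinc_neg]
    rw [h1, ← h2, h3]
  rw [e1, ← e2]
  linarith

/-- the main term -/
lemma Tst.main (h : Tst κ φ g w) (hκ : κ ≤ 1) : g 0 + ∫ y, g y * gd y = mn φ 1 := by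
  have hz : ∀ x, 1 ≤ |x| → φ x = 0 := fun x hx => h.supp x (hκ.trans hx)
  have hRR : ∀ x, H370.A2.RR φ 1 x = g x := by
    intro x
    rw [← h.eq, ct_eq_r (fun x hx => hz x hx.le)]
    unfold H370.A2.RR Pool.Agent.Results.MP_103a5c_nt.BohrSetPairs.r
    refine intervalIntegral.integral_congr fun α _ => ?_
    show φ α * Real.cos (2 * π * α * x) = φ α * Real.cos (2 * π * x * α)
    congr 2
    ring
  obtain ⟨D, hD0, hD⟩ := h.dec
  have h1 := H370.A2.main_term (ψ := φ) (μ := 1) (C := D) h.cont hz le_rfl (fun x => by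
      rw [hRR]
      have h2 : |g x| * x ^ 2 ≤ D / (1 + x ^ 2) ^ 2 * x ^ 2 :=
        mul_le_mul_of_nonneg_right (hD x) (sq_nonneg x)
      refine h2.trans ?_
      rw [div_mul_eq_mul_div, div_le_iff₀ (by positivity)]
      refine mul_le_mul_of_nonneg_left ?_ hD0
      nlinarith [sq_nonneg x, sq_nonneg (x ^ 2)])
  simp_rw [hRR] at h1
  have h2 : ∫ y, g y * gd y =
      ∫ x, g x * (1 - (Real.sin (π * x) / (π * x)) ^ 2) := by
    refine integral_congr_ae ?_
    have h0 : ∀ᵐ x : ℝ, x ≠ 0 := by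
      rw [ae_iff]
      simp
    filter_upwards [h0] with x hx
    unfold gd
    have hpi := Real.pi_pos
    rw [Real.sinc_of_ne_zero (by positivity)]
  rw [h2, h1]
  unfold mn
  rw [one_pow, one_mul]

lemma Tst.AG_main (h : Tst κ φ g w) (hκ : κ ≤ 1) : ∫ y, AG y * w y = -mn φ 1 := by
  rw [h.AG_int, h.main hκ]

/-- profiles with smaller support -/
lemma Tst.prof (h : Tst κ φ g w) (hκ0 : 0 < κ) (hκ1 : κ ≤ 1) :
    Prof (fun β => φ (κ * β)) (fun x => g (x / κ) / κ) where
  lip := by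
    obtain ⟨A, hA, hl⟩ := h.lip
    refine ⟨A * κ, by positivity, fun x y => ?_⟩
    have := hl (κ * x) (κ * y)
    rw [← mul_sub, abs_mul, abs_of_pos hκ0] at this
    linarith
  supp := fun x hx => h.supp _ (by
    rw [abs_mul, abs_of_pos hκ0]
    nlinarith)
  eq := fun x => by
    show ct (fun β => φ (κ * β)) x = g (x / κ) / κ
    rw [← h.eq]
    unfold ct
    have h1 := Measure.integral_comp_mul_left (fun α : ℝ => φ α * Real.cos (2 * π * (x / κ) * α)) κ
    rw [abs_of_pos (inv_pos.2 hκ0), smul_eq_mul] at h1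
    rw [div_eq_inv_mul, ← h1]
    refine integral_congr_ae (Eventually.of_forall fun β => ?_)
    show φ (κ * β) * Real.cos (2 * π * x * β) =
      φ (κ * β) * Real.cos (2 * π * (x / κ) * (κ * β))
    congr 2
    field_simp
  dec := by
    obtain ⟨D, hD0, hD⟩ := h.dec
    refine ⟨D / κ, by positivity, fun y => ?_⟩
    rw [abs_div, abs_of_pos hκ0, div_le_iff₀ hκ0]
    refine (hD (y / κ)).trans ?_
    have h1 : 1 + y ^ 2 ≤ 1 + (y / κ) ^ 2 := by
      have h2 : y ^ 2 ≤ (y / κ) ^ 2 := by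
        rw [div_pow, le_div_iff₀ (by positivity)]
        have : κ ^ 2 ≤ 1 := pow_le_one₀ hκ0.le hκ1
        nlinarith [sq_nonneg y]
      linarith
    have h2 := pow_le_pow_left₀ (by positivity) h1 2
    have e : D / κ / (1 + y ^ 2) ^ 2 * κ = D / (1 + y ^ 2) ^ 2 := by field_simp
    rw [e]
    exact div_le_div_of_nonneg_left hD0 (by positivity) h2
  scale := by
    obtain ⟨D, hD0, hD⟩ := h.wd
    refine ⟨D / κ, by positivity, fun y s hs => ?_⟩
    have h1 := scale_of_deriv h.der hD0 hD (y / κ) s hs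
    rw [← mul_div_assoc] at h1
    rw [← sub_div, abs_div, abs_of_pos hκ0, div_le_iff₀ hκ0]
    refine h1.trans ?_
    have h2 : 1 + y ^ 2 ≤ 1 + (y / κ) ^ 2 := by
      have h2 : y ^ 2 ≤ (y / κ) ^ 2 := by
        rw [div_pow, le_div_iff₀ (by positivity)]
        have : κ ^ 2 ≤ 1 := pow_le_one₀ hκ0.le hκ1
        nlinarith [sq_nonneg y]
      linarith
    have h3 : 0 ≤ D * (s - 1) := mul_nonneg hD0 (by linarith)
    have e : D / κ * (s - 1) / (1 + y ^ 2) * κ = D * (s - 1) / (1 + y ^ 2) := by field_simp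
    rw [e]
    exact div_le_div_of_nonneg_left h3 (by positivity) h2

lemma dil_prof {κ : ℝ} (hκ : 0 < κ) (g : ℝ → ℝ) : dil κ (fun x => g (x / κ) / κ) = g := by
  funext x
  unfold dil
  show κ * (g (κ * x / κ) / κ) = g x
  rw [mul_div_cancel_left₀ _ hκ.ne']
  field_simp

lemma mn_prof (h : Tst κ φ g w) (hκ0 : 0 < κ) (hκ1 : κ ≤ 1) :
    mn (fun β => φ (κ * β)) κ = mn φ 1 := by
  unfold mn
  show φ (κ * 0) + κ ^ 2 * ∫ α in (-1 : ℝ)..1, |α| * φ (κ * α) =
    φ 0 + 1 ^ 2 * ∫ α in (-1 : ℝ)..1, |α| * φ α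
  rw [mul_zero, one_pow, one_mul]
  congr 1
  have h1 := intervalIntegral.mul_integral_comp_mul_left (a := (-1 : ℝ)) (b := 1)
    (f := fun α => |α| * φ α) κ
  rw [mul_one, mul_neg, mul_one] at h1
  have h2 : κ ^ 2 * ∫ α in (-1 : ℝ)..1, |α| * φ (κ * α) =
      κ * ∫ α in (-1 : ℝ)..1, |κ * α| * φ (κ * α) := by
    rw [← intervalIntegral.integral_const_mul, ← intervalIntegral.integral_const_mul]
    refine intervalIntegral.integral_congr fun β _ => ?_
    show κ ^ 2 * (|β| * φ (κ * β)) = κ * (|κ * β| * φ (κ * β))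
    rw [abs_mul, abs_of_pos hκ0]
    ring
  rw [h2, h1]
  have hc : Continuous fun α : ℝ => |α| * φ α := continuous_abs.mul h.cont
  have hz1 : ∫ α in (-1 : ℝ)..(-κ), |α| * φ α = 0 := by
    have : ∫ α in (-1 : ℝ)..(-κ), |α| * φ α = ∫ α in (-1 : ℝ)..(-κ), (0 : ℝ) := by
      refine intervalIntegral.integral_congr fun α hα => ?_
      rw [Set.uIcc_of_le (by linarith)] at hα
      show |α| * φ α = 0
      rw [h.supp α (by
        rw [abs_of_nonpos (by linarith [hα.2])]
        linarith [hα.2]), mul_zero]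
    rw [this]
    simp
  have hz2 : ∫ α in κ..(1 : ℝ), |α| * φ α = 0 := by
    have : ∫ α in κ..(1 : ℝ), |α| * φ α = ∫ α in κ..(1 : ℝ), (0 : ℝ) := by
      refine intervalIntegral.integral_congr fun α hα => ?_
      rw [Set.uIcc_of_le hκ1] at hα
      show |α| * φ α = 0
      rw [h.supp α (by
        rw [abs_of_nonneg (by linarith [hα.1])]
        exact hα.1), mul_zero]
    rw [this]
    simp
  rw [← intervalIntegral.integral_add_adjacent_intervals (a := -1) (b := -κ) (c := 1)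
    (hc.intervalIntegrable _ _) (hc.intervalIntegrable _ _),
    ← intervalIntegral.integral_add_adjacent_intervals (a := -κ) (b := κ) (c := 1)
    (hc.intervalIntegrable _ _) (hc.intervalIntegrable _ _), hz1, hz2]
  ring

/-- dilation -/
lemma Tst.dil (h : Tst κ φ g w) {δ : ℝ} (hδ : 0 < δ) (hδ1 : δ ≤ 1) :
    Tst (δ * κ) (fun α => φ (α / δ)) (dil δ g) (fun y => δ ^ 2 * w (δ * y)) where
  lip := by
    obtain ⟨A, hA, hl⟩ := h.lip
    refine ⟨A / δ, by positivity, fun x y => ?_⟩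
    have := hl (x / δ) (y / δ)
    rw [← sub_div, abs_div, abs_of_pos hδ] at this
    refine this.trans (le_of_eq ?_)
    ring
  supp := fun x hx => h.supp _ (by
    rw [abs_div, abs_of_pos hδ, le_div_iff₀ hδ]
    linarith)
  eq := fun x => by
    unfold FP.dil
    rw [← h.eq]
    unfold ct
    have h1 := Measure.integral_comp_div (fun β : ℝ => φ β * Real.cos (2 * π * (δ * x) * β)) δ
    rw [abs_of_pos hδ, smul_eq_mul] at h1
    rw [← h1]
    refine integral_congr_ae (Eventually.of_forall fun α => ?_)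
    show φ (α / δ) * Real.cos (2 * π * x * α) = φ (α / δ) * Real.cos (2 * π * (δ * x) * (α / δ))
    congr 2
    field_simp
  dec := by
    obtain ⟨D, hD0, hD⟩ := h.dec
    exact ⟨D / δ ^ 3, by positivity, dil_dec hD0 hD hδ hδ1⟩
  der := fun y => by
    have h1 : HasDerivAt (fun y : ℝ => δ * y) δ y := by
      simpa using (hasDerivAt_id y).const_mul δ
    have h2 := ((h.der (δ * y)).comp y h1).const_mul δ
    have e : δ * (w (δ * y) * δ) = δ ^ 2 * w (δ * y) := by ring
    rw [e] at h2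
    exact h2
  wc := by
    have := h.wc
    fun_prop
  wd := by
    obtain ⟨D, hD0, hD⟩ := h.wd
    refine ⟨D / δ ^ 3 * δ, by positivity, fun y => ?_⟩
    have h1 := dil_dec hD0 hD hδ hδ1 y
    unfold FP.dil at h1
    have e : δ ^ 2 * w (δ * y) = δ * w (δ * y) * δ := by ring
    rw [e, abs_mul, abs_of_pos hδ]
    have h2 := mul_le_mul_of_nonneg_right h1 hδ.le
    refine h2.trans (le_of_eq ?_)
    ring

end

end Pool.Agent.W2helper24.FP
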